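import Mathlib

/-!
Functional calculus lemmas: inverse square roots of elements near `1`, projections near almost
idempotents, projections at distance less than one.
-/

set_option autoImplicit false

namespace Pool.Agent.Q141.CC

variable {A : Type*} [CStarAlgebra A]

/-- The inverse square root of a self-adjoint element near `1`. -/
theorem exists_rsq (b : A) (hb : star b = b) (h : ‖b - 1‖ ≤ 1 / 2) :
    ∃ r : A, star r = r ∧ r * b * r = 1 ∧ ‖r - 1‖ ≤ ‖b - 1‖ ∧ ∀ z, z * b = b * z → z * r = r * z := by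
  have hsa : IsSelfAdjoint b := hb
  have hspec : ∀ x ∈ spectrum ℝ b, |x - 1| ≤ ‖b - 1‖ := by
    intro x hx
    rcases subsingleton_or_nontrivial A with hA | hA
    · exact absurd hx (by simp [spectrum.of_subsingleton])
    have h1 : x - 1 ∈ spectrum ℝ (b - algebraMap ℝ A 1) := by
      rw [← spectrum.sub_singleton_eq]
      exact Set.sub_mem_sub hx rfl
    rw [map_one] at h1
    have h2 := spectrum.norm_le_norm_of_mem h1
    rwa [Real.norm_eq_abs] at h2
  have hge : ∀ x ∈ spectrum ℝ b, 1 / 2 ≤ x := by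
    intro x hx
    have := abs_le.1 ((hspec x hx).trans h)
    linarith [this.1]
  have hc : ContinuousOn (fun x : ℝ => (Real.sqrt x)⁻¹) (spectrum ℝ b) := by
    refine ContinuousOn.inv₀ Real.continuous_sqrt.continuousOn ?_
    intro x hx
    have := hge x hx
    exact (Real.sqrt_pos.2 (by linarith)).ne'
  set r : A := cfc (fun x : ℝ => (Real.sqrt x)⁻¹) b with hr
  have hid : cfc (fun x : ℝ => x) b = b := cfc_id' ℝ b hsa
  refine ⟨r, ?_, ?_, ?_, ?_⟩
  · exact (cfc_predicate (fun x : ℝ => (Real.sqrt x)⁻¹) b : IsSelfAdjoint r)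
  · calc r * b * r = r * cfc (fun x : ℝ => x) b * r := by rw [hid]
      _ = cfc (fun x : ℝ => (Real.sqrt x)⁻¹ * x * (Real.sqrt x)⁻¹) b := by
          rw [hr, ← cfc_mul (fun x : ℝ => (Real.sqrt x)⁻¹) (fun x : ℝ => x) b hc
              continuous_id'.continuousOn,
            ← cfc_mul (fun x : ℝ => (Real.sqrt x)⁻¹ * x) (fun x : ℝ => (Real.sqrt x)⁻¹) b
              (hc.mul continuous_id'.continuousOn) hc]
      _ = cfc (fun _ : ℝ => (1 : ℝ)) b := by
          apply cfc_congr
          intro x hx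
          have h0 : 0 < Real.sqrt x := Real.sqrt_pos.2 (by linarith [hge x hx])
          have h1 : Real.sqrt x * Real.sqrt x = x := Real.mul_self_sqrt (by linarith [hge x hx])
          show (Real.sqrt x)⁻¹ * x * (Real.sqrt x)⁻¹ = 1
          nth_rewrite 2 [← h1]
          field_simp
      _ = 1 := cfc_const_one ℝ b
  · have h1 : r - 1 = cfc (fun x : ℝ => (Real.sqrt x)⁻¹ - 1) b := by
      rw [cfc_sub (fun x : ℝ => (Real.sqrt x)⁻¹) (fun _ => (1 : ℝ)) b hc continuousOn_const,
        cfc_const_one ℝ b]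
    rw [h1]
    refine norm_cfc_le (norm_nonneg _) ?_
    intro x hx
    refine le_trans ?_ (hspec x hx)
    have hx0 := hge x hx
    have h0 : 0 < Real.sqrt x := Real.sqrt_pos.2 (by linarith)
    have h2 : Real.sqrt x * Real.sqrt x = x := Real.mul_self_sqrt (by linarith)
    have h3 : 2 / 3 ≤ Real.sqrt x := Real.le_sqrt_of_sq_le (by norm_num; linarith)
    rw [Real.norm_eq_abs]
    have h4 : (Real.sqrt x)⁻¹ - 1 = (1 - x) * ((Real.sqrt x)⁻¹ * (1 + Real.sqrt x)⁻¹) := by
      nth_rewrite 2 [← h2]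
      field_simp
      ring
    rw [h4, abs_mul]
    have h5 : |(Real.sqrt x)⁻¹ * (1 + Real.sqrt x)⁻¹| ≤ 1 := by
      rw [abs_of_nonneg (by positivity), ← mul_inv]
      apply inv_le_one_of_one_le₀
      nlinarith
    calc |1 - x| * |(Real.sqrt x)⁻¹ * (1 + Real.sqrt x)⁻¹| ≤ |1 - x| * 1 :=
          mul_le_mul_of_nonneg_left h5 (abs_nonneg _)
      _ = |x - 1| := by rw [mul_one, abs_sub_comm]
  · intro z hz
    have h1 : Commute b z := hz.symm
    exact (h1.cfc_real (fun x : ℝ => (Real.sqrt x)⁻¹)).symm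

/-- A self-adjoint element near a projection is near a projection that commutes with everything
commuting with it. -/
theorem exists_proj (a q : A) (ε : ℝ) (ha : star a = a) (hq : star q = q) (hqq : q * q = q)
    (hε : ‖a - q‖ ≤ ε) (hε1 : ε ≤ 1 / 20) :
    ∃ f : A, star f = f ∧ f * f = f ∧ ‖f - a‖ ≤ 3 * ε ∧ ∀ z, z * a = a * z → z * f = f * z := by
  rcases subsingleton_or_nontrivial A with hA | hA
  · exact ⟨0, Subsingleton.elim _ _, Subsingleton.elim _ _, by
      rw [Subsingleton.elim (0 - a : A) 0, norm_zero]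
      linarith [(norm_nonneg _).trans hε], fun _ _ => Subsingleton.elim _ _⟩
  have hε0 : 0 ≤ ε := (norm_nonneg _).trans hε
  obtain ⟨t, ht⟩ : ∃ t : A, t = (2 : ℂ) • q - 1 := ⟨_, rfl⟩
  obtain ⟨s, hs⟩ : ∃ s : A, s = (2 : ℂ) • a - 1 := ⟨_, rfl⟩
  have hts : star t = t := by rw [ht, star_sub, star_smul, hq, star_one]; simp
  have hss : star s = s := by rw [hs, star_sub, star_smul, ha, star_one]; simp
  have htt : t * t = 1 := by
    rw [ht, sub_mul, mul_sub, mul_one, one_mul, smul_mul_smul_comm, hqq]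
    have : ((2 : ℂ) * 2) • q = (2 : ℂ) • q + (2 : ℂ) • q := by rw [← add_smul]; norm_num
    rw [this]
    abel
  have htn : ‖t‖ = 1 := by
    have h1 : ‖t‖ * ‖t‖ = 1 := by
      have := CStarRing.norm_star_mul_self (x := t)
      rw [hts, htt, norm_one] at this
      exact this.symm
    nlinarith [norm_nonneg t]
  have hst : s - t = (2 : ℂ) • (a - q) := by rw [hs, ht, smul_sub]; abel
  have hstn : ‖s - t‖ ≤ 2 * ε := by
    rw [hst, norm_smul]
    have : ‖(2 : ℂ)‖ = 2 := by norm_num
    rw [this]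
    linarith
  have hsn : ‖s‖ ≤ 1 + 2 * ε := by
    have : s = t + (s - t) := by abel
    rw [this]
    exact (norm_add_le _ _).trans (by rw [htn]; linarith)
  have hb1 : ‖s * s - 1‖ ≤ 5 * ε := by
    have e : s * s - 1 = (s - t) * s + t * (s - t) := by
      rw [sub_mul, mul_sub, htt]
      abel
    rw [e]
    calc ‖(s - t) * s + t * (s - t)‖ ≤ ‖s - t‖ * ‖s‖ + ‖t‖ * ‖s - t‖ :=
          (norm_add_le _ _).trans (add_le_add (norm_mul_le _ _) (norm_mul_le _ _))
      _ ≤ (2 * ε) * (1 + 2 * ε) + 1 * (2 * ε) := by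
          rw [htn]
          have := mul_le_mul hstn hsn (norm_nonneg _) (by linarith)
          linarith
      _ ≤ 5 * ε := by nlinarith
  obtain ⟨r, hr1, hr2, hr3, hr4⟩ := exists_rsq (s * s) (by rw [star_mul, hss]) (by linarith)
  have hsr : s * r = r * s := hr4 s (by rw [mul_assoc])
  obtain ⟨w, hw⟩ : ∃ w : A, w = s * r := ⟨_, rfl⟩
  have hws : star w = w := by rw [hw, star_mul, hr1, hss, hsr]
  have hww : w * w = 1 := by
    calc w * w = (s * r) * (s * r) := by rw [hw]
      _ = (r * s) * (s * r) := by rw [hsr]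
      _ = r * (s * s) * r := by noncomm_ring
      _ = 1 := hr2
  refine ⟨(2⁻¹ : ℂ) • (1 + w), ?_, ?_, ?_, ?_⟩
  · rw [star_smul, star_add, star_one, hws]; simp
  · rw [smul_mul_smul_comm, mul_add, add_mul, add_mul, hww, one_mul, mul_one]
    have : (1 : A) + w + (1 * w + 1) = (2 : ℂ) • (1 + w) := by
      rw [two_smul, one_mul]; abel
    rw [this, smul_smul]
    norm_num
  · have e : (2⁻¹ : ℂ) • (1 + w) - a = (2⁻¹ : ℂ) • (s * (r - 1)) := by
      have h1 : a = (2⁻¹ : ℂ) • (s + 1) := by
        rw [hs, sub_add_cancel, smul_smul]; norm_num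
      conv_lhs => rw [h1]
      rw [← smul_sub, mul_sub, mul_one, hw]
      congr 1
      abel
    rw [e, norm_smul]
    have h2 : ‖(2⁻¹ : ℂ)‖ = 2⁻¹ := by norm_num
    rw [h2]
    have h3 : ‖s * (r - 1)‖ ≤ (1 + 2 * ε) * (5 * ε) :=
      (norm_mul_le _ _).trans (mul_le_mul hsn (hr3.trans hb1) (norm_nonneg _) (by linarith))
    nlinarith
  · intro z hz
    have hzs : z * s = s * z := by
      rw [hs, mul_sub, sub_mul, mul_smul_comm, smul_mul_assoc, hz, mul_one, one_mul]
    have hzr : z * r = r * z := hr4 z (by rw [← mul_assoc, hzs, mul_assoc, hzs, mul_assoc])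
    have hzw : z * w = w * z := by rw [hw, ← mul_assoc, hzs, mul_assoc, hzr, mul_assoc]
    rw [mul_smul_comm, smul_mul_assoc, mul_add, add_mul, hzw, mul_one, one_mul]

/-- Nested projections at distance less than one are equal. -/
theorem proj_eq (p f : A) (hp : star p = p) (hpp : p * p = p) (hf : star f = f) (hff : f * f = f)
    (hfp : f * p = p) (h : ‖f - p‖ < 1) : f = p := by
  have hpf : p * f = p := by
    have := congrArg star hfp
    rwa [star_mul, hf, hp] at this
  have e : (f - p) * (f - p) = f - p := by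
    rw [sub_mul, mul_sub, mul_sub, hff, hfp, hpf, hpp]
    abel
  have es : star (f - p) = f - p := by rw [star_sub, hf, hp]
  have h1 : ‖f - p‖ * ‖f - p‖ = ‖f - p‖ := by
    conv_rhs => rw [← e]
    conv_rhs => rw [← es]
    rw [es]
    nth_rewrite 3 [← es]
    rw [CStarRing.norm_star_mul_self]
  have h2 : ‖f - p‖ = 0 := by
    by_contra h0
    have := mul_right_cancel₀ h0 (h1.trans (one_mul _).symm)
    linarith
  exact sub_eq_zero.1 (norm_eq_zero.1 h2)

end Pool.Agent.Q141.CC
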