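import Mathlib
import Pool.Agent.Q141.CC.Pol

/-!
An abstract C*-algebra lemma: correcting an approximate intertwiner.
-/

set_option autoImplicit false

namespace Pool.Agent.Q141.CC

variable {B : Type*} [CStarAlgebra B]

theorem norm_proj_le_one {p : B} (hp : star p = p) (hpp : p * p = p) : ‖p‖ ≤ 1 := by
  have h1 : ‖p‖ * ‖p‖ = ‖p‖ := by
    have := CStarRing.norm_star_mul_self (x := p)
    rw [hp, hpp] at this
    exact this.symm
  by_contra h
  push Not at h
  nlinarith

theorem norm_le_one_of_star_mul_proj {v c : B} (hc : star c = c) (hcc : c * c = c)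
    (hv : star v * v = c) : ‖v‖ ≤ 1 := by
  have h1 : ‖v‖ * ‖v‖ ≤ 1 := by
    rw [← CStarRing.norm_star_mul_self (x := v), hv]
    exact norm_proj_le_one hc hcc
  nlinarith [norm_nonneg v]

/-- Correcting an approximate intertwiner `v` with the help of an exact one `y0` and of an averaged
element `a`. -/
theorem correct (c v y0 a : B) (ε : ℝ) (hc : star c = c) (hcc : c * c = c)
    (hv : star v * v = c) (hvc : v * c = v) (hε : ε ≤ 1 / 1000) (hy : ‖v - y0‖ ≤ ε)
    (ha : star a = a) (hav : ‖a - v * star v‖ ≤ 3 * ε) :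
    ∃ x f : B, star x * x = c ∧ x * c = x ∧ x * star x = f ∧ star f = f ∧ f * f = f ∧
      ‖x - v‖ ≤ 41 * ε ∧ (∀ z, z * a = a * z → z * f = f * z) ∧
      (∀ z, z * a = a * z → z * c = c * z → z * y0 = y0 * z → star z * a = a * star z →
        star z * c = c * star z → star z * y0 = y0 * star z → z * x = x * z) := by
  have hε0 : 0 ≤ ε := (norm_nonneg _).trans hy
  have hvn : ‖v‖ ≤ 1 := norm_le_one_of_star_mul_proj hc hcc hv
  have hcn : ‖c‖ ≤ 1 := norm_proj_le_one hc hcc
  have hcv : c * star v = star v := by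
    have := congrArg star hvc
    rwa [star_mul, hc] at this
  -- the projection
  obtain ⟨f, hf1, hf2, hf3, hf4⟩ := exists_proj a (v * star v) (3 * ε) ha
    (by rw [star_mul, star_star]) (by
      calc v * star v * (v * star v) = v * (star v * v) * star v := by noncomm_ring
        _ = v * star v := by rw [hv, hvc]) hav (by linarith)
  have hfn : ‖f‖ ≤ 1 := norm_proj_le_one hf1 hf2
  have hfv : ‖f - v * star v‖ ≤ 12 * ε := by
    have e : f - v * star v = (f - a) + (a - v * star v) := by abel
    rw [e]
    refine (norm_add_le _ _).trans ?_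
    linarith
  -- the corrected approximate intertwiner
  obtain ⟨y, hyd⟩ : ∃ y : B, y = y0 * c := ⟨_, rfl⟩
  have hyc : y * c = y := by rw [hyd, mul_assoc, hcc]
  have hvy : ‖v - y‖ ≤ ε := by
    have e : v - y = (v - y0) * c := by rw [sub_mul, hvc, hyd]
    rw [e]
    refine (norm_mul_le _ _).trans ?_
    nlinarith [norm_nonneg (v - y0), norm_nonneg c]
  obtain ⟨z, hzd⟩ : ∃ z : B, z = f * y := ⟨_, rfl⟩
  have hzc : z * c = z := by rw [hzd, mul_assoc, hyc]
  have hfz : f * z = z := by rw [hzd, ← mul_assoc, hf2]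
  have hzv : ‖z - v‖ ≤ 13 * ε := by
    have e : z - v = f * (y - v) + (f - v * star v) * v := by
      have : v * star v * v = v := by rw [mul_assoc, hv, hvc]
      rw [hzd, mul_sub, sub_mul, this]
      abel
    rw [e]
    refine (norm_add_le _ _).trans ?_
    have h1 : ‖f * (y - v)‖ ≤ 1 * ε := by
      refine (norm_mul_le _ _).trans (mul_le_mul hfn ?_ (norm_nonneg _) zero_le_one)
      rwa [norm_sub_rev]
    have h2 : ‖(f - v * star v) * v‖ ≤ (12 * ε) * 1 :=
      (norm_mul_le _ _).trans (mul_le_mul hfv hvn (norm_nonneg _) (by linarith))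
    linarith
  have hzn : ‖z‖ ≤ 1 + 13 * ε := by
    have : z = v + (z - v) := by abel
    rw [this]
    exact (norm_add_le _ _).trans (by linarith)
  have hzz : ‖star z * z - c‖ ≤ 27 * ε := by
    have e : star z * z - c = star (z - v) * z + star v * (z - v) := by
      rw [star_sub, sub_mul, mul_sub, hv]
      abel
    rw [e]
    refine (norm_add_le _ _).trans ?_
    have h1 : ‖star (z - v) * z‖ ≤ (13 * ε) * (1 + 13 * ε) := by
      refine (norm_mul_le _ _).trans ?_
      rw [norm_star]
      exact mul_le_mul hzv hzn (norm_nonneg _) (by linarith)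
    have h2 : ‖star v * (z - v)‖ ≤ 1 * (13 * ε) := by
      refine (norm_mul_le _ _).trans ?_
      rw [norm_star]
      exact mul_le_mul hvn hzv (norm_nonneg _) zero_le_one
    nlinarith
  have hczz : c * (star z * z) = star z * z := by
    have : c * star z = star z := by
      have := congrArg star hzc
      rwa [star_mul, hc] at this
    rw [← mul_assoc, this]
  have hzzc : star z * z * c = star z * z := by rw [mul_assoc, hzc]
  obtain ⟨b, hbd⟩ : ∃ b : B, b = star z * z + (1 - c) := ⟨_, rfl⟩
  have hbs : star b = b := by rw [hbd, star_add, star_mul, star_star, star_sub, star_one, hc]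
  have hb1 : ‖b - 1‖ ≤ 27 * ε := by
    have : b - 1 = star z * z - c := by rw [hbd]; abel
    rwa [this]
  have hcb : c * b = b * c := by
    rw [hbd, mul_add, add_mul, hczz, hzzc]
    noncomm_ring
  obtain ⟨r, hr1, hr2, hr3, hr4⟩ := exists_rsq b hbs (by linarith)
  have hcr : c * r = r * c := hr4 c hcb
  have hr3' : ‖r - 1‖ ≤ 27 * ε := hr3.trans hb1
  have h1cb : (1 - c) * b = 1 - c := by
    rw [hbd, sub_mul, one_mul, mul_add, hczz, mul_sub, mul_one, hcc]
    abel
  have h1cr : r * (1 - c) * r = 1 - c := by
    have hrc : r * (1 - c) = (1 - c) * r := by rw [mul_sub, sub_mul, hcr, mul_one, one_mul]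
    calc r * (1 - c) * r = r * ((1 - c) * b) * r := by rw [h1cb]
      _ = (r * (1 - c)) * b * r := by noncomm_ring
      _ = (1 - c) * (r * b * r) := by rw [hrc]; noncomm_ring
      _ = 1 - c := by rw [hr2, mul_one]
  obtain ⟨x, hxd⟩ : ∃ x : B, x = z * r := ⟨_, rfl⟩
  have hxx : star x * x = c := by
    calc star x * x = r * (star z * z) * r := by rw [hxd, star_mul, hr1]; noncomm_ring
      _ = r * (b - (1 - c)) * r := by rw [hbd]; congr 2; abel
      _ = r * b * r - r * (1 - c) * r := by noncomm_ring
      _ = c := by rw [hr2, h1cr]; abel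
  have hxc : x * c = x := by rw [hxd, mul_assoc, ← hcr, ← mul_assoc, hzc]
  have hfx : f * x = x := by rw [hxd, ← mul_assoc, hfz]
  have hxv : ‖x - v‖ ≤ 41 * ε := by
    have e : x - v = z * (r - 1) + (z - v) := by rw [hxd, mul_sub, mul_one]; abel
    rw [e]
    refine (norm_add_le _ _).trans ?_
    have h1 : ‖z * (r - 1)‖ ≤ (1 + 13 * ε) * (27 * ε) :=
      (norm_mul_le _ _).trans (mul_le_mul hzn hr3' (norm_nonneg _) (by linarith))
    nlinarith
  have hxn : ‖x‖ ≤ 1 := norm_le_one_of_star_mul_proj hc hcc hxx
  have hxxf : f = x * star x := by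
    refine proj_eq (x * star x) f (by rw [star_mul, star_star]) ?_ hf1 hf2 ?_ ?_
    · calc x * star x * (x * star x) = x * (star x * x) * star x := by noncomm_ring
        _ = x * star x := by rw [hxx, hxc]
    · rw [← mul_assoc, hfx]
    · have e : f - x * star x = (f - v * star v) - ((x - v) * star x + v * star (x - v)) := by
        rw [star_sub]
        noncomm_ring
      rw [e]
      refine (norm_sub_le _ _).trans_lt ?_
      have h1 : ‖(x - v) * star x + v * star (x - v)‖ ≤ 41 * ε * 1 + 1 * (41 * ε) := by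
        refine (norm_add_le _ _).trans (add_le_add ?_ ?_)
        · refine (norm_mul_le _ _).trans ?_
          rw [norm_star]
          exact mul_le_mul hxv hxn (norm_nonneg _) (by linarith)
        · refine (norm_mul_le _ _).trans ?_
          rw [norm_star]
          exact mul_le_mul hvn hxv (norm_nonneg _) zero_le_one
      linarith
  refine ⟨x, f, hxx, hxc, hxxf.symm, hf1, hf2, hxv, hf4, ?_⟩
  · intro w h1 h2 h3 h1' h2' h3'
    have hwf : w * f = f * w := hf4 w h1
    have hwy : w * y = y * w := by rw [hyd, ← mul_assoc, h3, mul_assoc, h2, mul_assoc]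
    have hwz : w * z = z * w := by rw [hzd, ← mul_assoc, hwf, mul_assoc, hwy, mul_assoc]
    have hwf' : star w * f = f * star w := hf4 _ h1'
    have hwy' : star w * y = y * star w := by rw [hyd, ← mul_assoc, h3', mul_assoc, h2', mul_assoc]
    have hwz' : star w * z = z * star w := by rw [hzd, ← mul_assoc, hwf', mul_assoc, hwy', mul_assoc]
    have hwsz : w * star z = star z * w := by
      have := congrArg star hwz'
      rw [star_mul, star_mul, star_star] at this
      exact this.symm
    have hwb : w * b = b * w := by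
      rw [hbd, mul_add, add_mul, ← mul_assoc, hwsz, mul_assoc, hwz, mul_sub, sub_mul, h2, mul_one,
        one_mul, mul_assoc]
    have hwr : w * r = r * w := hr4 w hwb
    rw [hxd, ← mul_assoc, hwz, mul_assoc, hwr, mul_assoc]

end Pool.Agent.Q141.CC
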