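import Mathlib
import Pool.Agent.H759R2.Kad.Inner
import Pool.Agent.Q141.CC.Pol

/-!
Operators that almost commute with a represented C*-algebra are near its commutant.
-/

set_option autoImplicit false

open scoped InnerProductSpace

namespace Pool.Agent.Q141.CC

universe u v

/-- the universal constant of the derivation theorem -/
noncomputable def cD : ℝ := 5184 * 6 ^ 25 * 8 ^ 77

theorem cD_ge : 1 ≤ cD := by
  unfold cD
  norm_num

theorem near_comm (A : Type u) [NonUnitalCStarAlgebra A] (L : Type v) [NormedAddCommGroup L]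
    [InnerProductSpace ℂ L] [CompleteSpace L] (π : A →⋆ₙₐ[ℂ] (L →L[ℂ] L)) (X : L →L[ℂ] L) (ε : ℝ)
    (hε : 0 ≤ ε) (h : ∀ a, ‖π a * X - X * π a‖ ≤ ε * ‖a‖) :
    ∃ Y : L →L[ℂ] L, (∀ a, π a * Y = Y * π a) ∧ ‖X - Y‖ ≤ cD * ε := by
  let δ : A →L[ℂ] (L →L[ℂ] L) := LinearMap.mkContinuous
    { toFun := fun a => π a * X - X * π a
      map_add' := fun a b => by
        rw [map_add]
        noncomm_ring
      map_smul' := fun c a => by
        rw [map_smul, smul_mul_assoc, mul_smul_comm, RingHom.id_apply, smul_sub] } ε h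
  have hδ : ∀ a, δ a = π a * X - X * π a := fun a => rfl
  obtain ⟨T, hT1, hT2⟩ := H759R2.Kad.inner_bound A L π δ (by
    intro a b
    rw [hδ, hδ, hδ, map_mul]
    noncomm_ring)
  have hn : ‖δ‖ ≤ ε := LinearMap.mkContinuous_norm_le _ hε _
  refine ⟨X - T, ?_, ?_⟩
  · intro a
    have h1 := hT2 a
    rw [hδ] at h1
    have h2 : π a * (X - T) - (X - T) * π a = 0 := by
      have : π a * (X - T) - (X - T) * π a = (π a * X - X * π a) - (π a * T - T * π a) := by
        noncomm_ring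
      rw [this, h1, sub_self]
    exact sub_eq_zero.1 h2
  · rw [sub_sub_cancel]
    refine hT1.trans ?_
    have : (5184 * 6 ^ 25 * 8 ^ 77 : ℝ) = cD := rfl
    rw [this]
    exact mul_le_mul_of_nonneg_left hn (by linarith [cD_ge])

variable {H : Type u} [NormedAddCommGroup H] [InnerProductSpace ℂ H] [CompleteSpace H]

theorem isClosed_vN (N : VonNeumannAlgebra H) : IsClosed (N.toStarSubalgebra : Set (H →L[ℂ] H)) := by
  have h1 : (N.toStarSubalgebra : Set (H →L[ℂ] H)) =
      Set.centralizer (Set.centralizer (N : Set (H →L[ℂ] H))) := by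
    rw [VonNeumannAlgebra.centralizer_centralizer]
    rfl
  rw [h1]
  exact Set.isClosed_centralizer _

/-- A representation of a von Neumann algebra: operators almost commuting with the image are near
operators commuting with the image. -/
theorem near_comm_vN (N : VonNeumannAlgebra H) (L : Type v) [NormedAddCommGroup L]
    [InnerProductSpace ℂ L] [CompleteSpace L] (π : (H →L[ℂ] H) →⋆ₐ[ℂ] (L →L[ℂ] L))
    (X : L →L[ℂ] L) (ε : ℝ) (hε : 0 ≤ ε)
    (h : ∀ a ∈ N, ‖π a * X - X * π a‖ ≤ ε * ‖a‖) :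
    ∃ Y : L →L[ℂ] L, (∀ a ∈ N, π a * Y = Y * π a) ∧ ‖X - Y‖ ≤ cD * ε := by
  haveI : IsClosed (N.toStarSubalgebra : Set (H →L[ℂ] H)) := isClosed_vN N
  let ρ : N.toStarSubalgebra →⋆ₐ[ℂ] (L →L[ℂ] L) := π.comp N.toStarSubalgebra.subtype
  obtain ⟨Y, hY1, hY2⟩ := near_comm N.toStarSubalgebra L
    (ρ : N.toStarSubalgebra →⋆ₙₐ[ℂ] (L →L[ℂ] L)) X ε hε (fun a => h a a.2)
  exact ⟨Y, fun a ha => hY1 ⟨a, ha⟩, hY2⟩

end Pool.Agent.Q141.CC
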