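import Mathlib
import Pool.Agent.Helper183.Gar.Mean

/-!
Complex invariant means on commutative groups, means of bounded families of operators.
-/

set_option autoImplicit false
set_option linter.unusedSectionVars false

open scoped InnerProductSpace ComplexConjugate
open Filter

namespace Pool.Agent.Q141.CC

universe u v

/-- bounded functions -/
def Bd {G : Type*} {E : Type*} [Norm E] (f : G → E) : Prop := ∃ C : ℝ, ∀ x, ‖f x‖ ≤ C

theorem Bd.add {G : Type*} {E : Type*} [SeminormedAddCommGroup E] {f g : G → E} (hf : Bd f)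
    (hg : Bd g) : Bd (fun x => f x + g x) := by
  obtain ⟨C, hC⟩ := hf
  obtain ⟨D, hD⟩ := hg
  exact ⟨C + D, fun x => (norm_add_le _ _).trans (add_le_add (hC x) (hD x))⟩

theorem Bd.smul {G : Type*} {E : Type*} [SeminormedAddCommGroup E] [NormedSpace ℂ E] {f : G → E}
    (hf : Bd f) (c : ℂ) : Bd (fun x => c • f x) := by
  obtain ⟨C, hC⟩ := hf
  exact ⟨‖c‖ * C, fun x => by
    rw [norm_smul]
    exact mul_le_mul_of_nonneg_left (hC x) (norm_nonneg _)⟩

theorem Bd.inner {G : Type*} {E : Type*} [SeminormedAddCommGroup E] [InnerProductSpace ℂ E]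
    {f g : G → E} (hf : Bd f) (hg : Bd g) : Bd (fun x => ⟪f x, g x⟫_ℂ) := by
  obtain ⟨C, hC⟩ := hf
  obtain ⟨D, hD⟩ := hg
  exact ⟨C * D, fun x => (norm_inner_le_norm _ _).trans
    (mul_le_mul (hC x) (hD x) (norm_nonneg _) ((norm_nonneg _).trans (hC x)))⟩

/-- A complex invariant mean. -/
structure CMean (G : Type u) [Group G] where
  /-- the functional -/
  m : (G → ℂ) → ℂ
  add : ∀ f g, Bd f → Bd g → m (fun x => f x + g x) = m f + m g
  smul : ∀ (c : ℂ) f, Bd f → m (fun x => c * f x) = c * m f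
  cj : ∀ f, Bd f → m (fun x => conj (f x)) = conj (m f)
  nonneg : ∀ f, Bd f → (∀ x, 0 ≤ (f x).re) → 0 ≤ (m f).re
  one : m (fun _ => 1) = 1
  bound : ∀ f C, (∀ x, ‖f x‖ ≤ C) → ‖m f‖ ≤ C
  inv : ∀ f a, Bd f → m (fun x => f (a * x)) = m f

section real

variable {Γ : Type*} {M : (Γ → ℝ) → ℝ}

theorem real_smul (h1 : ∀ f g, Gardner.Bdd f → Gardner.Bdd g → M (f + g) = M f + M g)
    (h4 : ∀ f C, (∀ x, |f x| ≤ C) → |M f| ≤ C) (c : ℝ) (f : Γ → ℝ) (hf : Gardner.Bdd f) :
    M (fun x => c * f x) = c * M f := by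
  let L : ℝ →+ ℝ :=
    { toFun := fun c => M (fun x => c * f x)
      map_zero' := by
        have := h4 (fun x => 0 * f x) 0 (fun x => by simp)
        exact abs_nonpos_iff.1 this
      map_add' := by
        intro a b
        obtain ⟨C, hC⟩ := hf
        rw [← h1]
        · congr 1
          funext x
          simp [add_mul]
        · exact ⟨|a| * C, fun x => by
            rw [abs_mul]
            exact mul_le_mul_of_nonneg_left (hC x) (abs_nonneg _)⟩
        · exact ⟨|b| * C, fun x => by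
            rw [abs_mul]
            exact mul_le_mul_of_nonneg_left (hC x) (abs_nonneg _)⟩ }
  obtain ⟨C, hC⟩ := hf
  have hcont : Continuous L := by
    apply AddMonoidHomClass.continuous_of_bound L C
    intro x
    rw [Real.norm_eq_abs, Real.norm_eq_abs]
    refine h4 _ _ fun y => ?_
    rw [abs_mul, mul_comm]
    exact mul_le_mul_of_nonneg_right (hC y) (abs_nonneg _)
  have h5 := map_real_smul L hcont c 1
  have h6 : L (c • (1 : ℝ)) = M (fun x => c * f x) := by
    show M (fun x => (c • (1 : ℝ)) * f x) = _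
    simp
  have h7 : L 1 = M f := by
    show M (fun x => (1 : ℝ) * f x) = _
    simp
  rw [h6, h7] at h5
  exact h5

end real

/-- Commutative groups have complex invariant means. -/
theorem exists_cmean (G : Type u) [CommGroup G] : Nonempty (CMean G) := by
  obtain ⟨M, h1, h2, h3, h4, h5⟩ := Gardner.exists_mean (Additive G)
  have hre : ∀ f : G → ℂ, Bd f → Gardner.Bdd (Γ := Additive G) (fun x => (f x.toMul).re) := by
    rintro f ⟨C, hC⟩
    exact ⟨C, fun x => (Complex.abs_re_le_norm _).trans (hC _)⟩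
  have him : ∀ f : G → ℂ, Bd f → Gardner.Bdd (Γ := Additive G) (fun x => (f x.toMul).im) := by
    rintro f ⟨C, hC⟩
    exact ⟨C, fun x => (Complex.abs_im_le_norm _).trans (hC _)⟩
  let m : (G → ℂ) → ℂ := fun f =>
    ⟨M (fun x : Additive G => (f x.toMul).re), M (fun x : Additive G => (f x.toMul).im)⟩
  have hsm := fun (c : ℝ) f hf => real_smul h1 h4 c f hf
  have hadd : ∀ f g : G → ℂ, Bd f → Bd g → m (fun x => f x + g x) = m f + m g := by
    intro f g hf hg
    apply Complex.ext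
    · exact h1 _ _ (hre f hf) (hre g hg)
    · exact h1 _ _ (him f hf) (him g hg)
  have hneg : ∀ f : Additive G → ℝ, Gardner.Bdd f → M (fun x => -f x) = -M f := by
    intro f hf
    have := hsm (-1) f hf
    simpa using this
  have hsmul : ∀ (c : ℂ) (f : G → ℂ), Bd f → m (fun x => c * f x) = c * m f := by
    intro c f hf
    have hb1 : ∀ (a : ℝ) (h : Additive G → ℝ), Gardner.Bdd h → Gardner.Bdd (fun x => a * h x) := by
      rintro a h ⟨C, hC⟩
      exact ⟨|a| * C, fun x => by
        rw [abs_mul]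
        exact mul_le_mul_of_nonneg_left (hC x) (abs_nonneg _)⟩
    apply Complex.ext
    · show M (fun x : Additive G => (c * f x.toMul).re) = (c * m f).re
      have e : (fun x : Additive G => (c * f x.toMul).re) =
          (fun x : Additive G => c.re * (f x.toMul).re) + fun x : Additive G =>
            (-c.im) * (f x.toMul).im := by
        funext x
        simp [Complex.mul_re]
        ring
      rw [e, h1 _ _ (hb1 _ _ (hre f hf)) (hb1 _ _ (him f hf)), hsm _ _ (hre f hf),
        hsm _ _ (him f hf), Complex.mul_re]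
      show _ = c.re * M (fun x : Additive G => (f x.toMul).re) -
        c.im * M (fun x : Additive G => (f x.toMul).im)
      ring
    · show M (fun x : Additive G => (c * f x.toMul).im) = (c * m f).im
      have e : (fun x : Additive G => (c * f x.toMul).im) =
          (fun x : Additive G => c.re * (f x.toMul).im) + fun x : Additive G =>
            c.im * (f x.toMul).re := by
        funext x
        simp [Complex.mul_im]
      rw [e, h1 _ _ (hb1 _ _ (him f hf)) (hb1 _ _ (hre f hf)), hsm _ _ (hre f hf),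
        hsm _ _ (him f hf), Complex.mul_im]
  have hnn : ∀ f : G → ℂ, Bd f → (∀ x, 0 ≤ (f x).re) → 0 ≤ (m f).re := by
    intro f hf h0
    exact h2 _ (hre f hf) fun x => h0 _
  refine ⟨⟨m, hadd, hsmul, ?_, hnn, ?_, ?_, ?_⟩⟩
  · intro f hf
    apply Complex.ext
    · show M (fun x : Additive G => ((starRingEnd ℂ) (f x.toMul)).re) = (starRingEnd ℂ (m f)).re
      simp only [Complex.conj_re]
      rfl
    · show M (fun x : Additive G => ((starRingEnd ℂ) (f x.toMul)).im) = (starRingEnd ℂ (m f)).im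
      simp only [Complex.conj_im]
      exact hneg _ (him f hf)
  · apply Complex.ext
    · show M (fun _ : Additive G => (1 : ℂ).re) = (1 : ℂ).re
      rw [Complex.one_re]
      exact h3
    · show M (fun _ : Additive G => (1 : ℂ).im) = (1 : ℂ).im
      rw [Complex.one_im]
      have := h4 (fun _ : Additive G => (0 : ℝ)) 0 (fun x => by simp)
      exact abs_nonpos_iff.1 this
  · intro f C hC
    have hf : Bd f := ⟨C, hC⟩
    by_cases h0 : m f = 0
    · rw [h0, norm_zero]
      exact (norm_nonneg _).trans (hC 1)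
    set c : ℂ := conj (m f) / ‖m f‖ with hc
    have hcn : ‖c‖ = 1 := by
      rw [hc, norm_div, RCLike.norm_conj, Complex.norm_real, norm_norm]
      exact div_self (norm_ne_zero_iff.2 h0)
    have h6 : c * m f = (‖m f‖ : ℂ) := by
      rw [hc, div_mul_eq_mul_div, ← Complex.normSq_eq_conj_mul_self, Complex.normSq_eq_norm_sq]
      push_cast
      field_simp
    have h7 : (m (fun x => c * f x)).re = ‖m f‖ := by
      rw [hsmul c f hf, h6, Complex.ofReal_re]
    rw [← h7]
    refine (le_abs_self _).trans (h4 _ _ fun x => ?_)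
    refine (Complex.abs_re_le_norm _).trans ?_
    rw [norm_mul, hcn, one_mul]
    exact hC _
  · intro f a hf
    apply Complex.ext
    · exact h5 _ (Additive.ofMul a) (hre f hf)
    · exact h5 _ (Additive.ofMul a) (him f hf)

namespace CMean

variable {G : Type u} [Group G] (μ : CMean G)

theorem const (c : ℂ) : μ.m (fun _ => c) = c := by
  have h := μ.smul c (fun _ => 1) ⟨1, fun _ => by simp⟩
  rw [μ.one] at h
  simpa using h

theorem neg (f : G → ℂ) (hf : Bd f) : μ.m (fun x => -f x) = -μ.m f := by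
  have := μ.smul (-1) f hf
  simpa using this

theorem sub (f g : G → ℂ) (hf : Bd f) (hg : Bd g) :
    μ.m (fun x => f x - g x) = μ.m f - μ.m g := by
  have hg' : Bd (fun x => -g x) := by
    obtain ⟨C, hC⟩ := hg
    exact ⟨C, fun x => by rw [norm_neg]; exact hC x⟩
  have := μ.add f (fun x => -g x) hf hg'
  rw [μ.neg g hg] at this
  simpa [sub_eq_add_neg] using this

theorem sum {ι : Type*} (s : Finset ι) (f : ι → G → ℂ) (hf : ∀ i ∈ s, Bd (f i)) :
    Bd (fun x => ∑ i ∈ s, f i x) ∧ μ.m (fun x => ∑ i ∈ s, f i x) = ∑ i ∈ s, μ.m (f i) := by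
  classical
  induction s using Finset.induction_on with
  | empty => exact ⟨⟨0, fun x => by simp⟩, by simpa using μ.const 0⟩
  | insert a s ha ih =>
    obtain ⟨h1, h2⟩ := ih fun i hi => hf i (Finset.mem_insert_of_mem hi)
    have ha' := hf a (Finset.mem_insert_self _ _)
    simp only [Finset.sum_insert ha]
    exact ⟨ha'.add h1, by rw [μ.add _ _ ha' h1, h2]⟩

/-- Interchange of the mean and a uniformly summable series. -/
theorem tsum (f : ℕ → G → ℂ) (c : ℕ → ℝ) (hc : Summable c) (hf : ∀ k x, ‖f k x‖ ≤ c k) :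
    μ.m (fun x => ∑' k, f k x) = ∑' k, μ.m (f k) := by
  have hs : ∀ x, Summable (fun k => f k x) := fun x => Summable.of_norm_bounded hc fun k => hf k x
  have hm : Summable (fun k => μ.m (f k)) :=
    Summable.of_norm_bounded hc fun k => μ.bound _ _ (hf k)
  have hbd : ∀ k, Bd (f k) := fun k => ⟨c k, hf k⟩
  have hc0 : ∀ k, 0 ≤ c k := fun k => (norm_nonneg _).trans (hf k 1)
  have hbt : Bd (fun x => ∑' k, f k x) := ⟨∑' k, c k, fun x =>
    tsum_of_norm_bounded hc.hasSum fun k => hf k x⟩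
  have h1 : Tendsto (fun n => ∑ k ∈ Finset.range n, μ.m (f k)) atTop (nhds (∑' k, μ.m (f k))) :=
    hm.hasSum.tendsto_sum_nat
  refine tendsto_nhds_unique ?_ h1
  have h2 : Tendsto (fun n => ∑' k, c (k + n)) atTop (nhds 0) := tendsto_sum_nat_add c
  rw [tendsto_iff_norm_sub_tendsto_zero]
  refine squeeze_zero (fun n => norm_nonneg _) (fun n => ?_) h2
  obtain ⟨h3, h4⟩ := μ.sum (Finset.range n) f fun k _ => hbd k
  rw [← h4, ← μ.sub _ _ h3 hbt]
  refine μ.bound _ _ fun x => ?_
  have h5 : ∑ k ∈ Finset.range n, f k x - ∑' k, f k x = -∑' k, f (k + n) x := by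
    rw [← (hs x).sum_add_tsum_nat_add n]
    ring
  rw [h5, norm_neg]
  exact tsum_of_norm_bounded ((summable_nat_add_iff n).2 hc).hasSum fun k => hf _ _

end CMean

section op

variable {G : Type u} [Group G] (μ : CMean G)
variable {L : Type v} [NormedAddCommGroup L] [InnerProductSpace ℂ L] [CompleteSpace L]

/-- The mean of a bounded family of operators. -/
theorem exists_opMean (T : G → L →L[ℂ] L) (C : ℝ) (hT : ∀ g, ‖T g‖ ≤ C) :
    ∃ S : L →L[ℂ] L, ∀ x y, ⟪x, S y⟫_ℂ = μ.m (fun g => ⟪x, T g y⟫_ℂ) := by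
  have hC0 : 0 ≤ C := (norm_nonneg _).trans (hT 1)
  have hle : ∀ x y g, ‖⟪x, T g y⟫_ℂ‖ ≤ C * ‖x‖ * ‖y‖ := by
    intro x y g
    calc ‖⟪x, T g y⟫_ℂ‖ ≤ ‖x‖ * ‖T g y‖ := norm_inner_le_norm _ _
      _ ≤ ‖x‖ * (C * ‖y‖) := by
          refine mul_le_mul_of_nonneg_left ?_ (norm_nonneg _)
          exact (T g).le_of_opNorm_le (hT g) y
      _ = C * ‖x‖ * ‖y‖ := by ring
  have hbd : ∀ x y, Bd (fun g => ⟪x, T g y⟫_ℂ) := fun x y => ⟨_, hle x y⟩
  let B : L → L → ℂ := fun x y => μ.m (fun g => ⟪x, T g y⟫_ℂ)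
  let Lm : L →ₗ⋆[ℂ] L →ₗ[ℂ] ℂ :=
    LinearMap.mk₂'ₛₗ (starRingEnd ℂ) (RingHom.id ℂ) B
      (by
        intro x y z
        show μ.m (fun g => ⟪x + y, T g z⟫_ℂ) = _
        simp only [inner_add_left]
        exact μ.add _ _ (hbd x z) (hbd y z))
      (by
        intro c x y
        show μ.m (fun g => ⟪c • x, T g y⟫_ℂ) = _
        simp only [inner_smul_left]
        exact μ.smul _ _ (hbd x y))
      (by
        intro x y z
        show μ.m (fun g => ⟪x, T g (y + z)⟫_ℂ) = _
        simp only [map_add, inner_add_right]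
        exact μ.add _ _ (hbd x y) (hbd x z))
      (by
        intro c x y
        show μ.m (fun g => ⟪x, T g (c • y)⟫_ℂ) = _
        simp only [map_smul, inner_smul_right]
        exact μ.smul _ _ (hbd x y))
  let Bc : L →L⋆[ℂ] L →L[ℂ] ℂ := Lm.mkContinuous₂ C (by
    intro x y
    exact μ.bound _ _ (hle x y))
  let S : L →L[ℂ] L := InnerProductSpace.continuousLinearMapOfBilin Bc
  have hS : ∀ x y, ⟪S x, y⟫_ℂ = B x y := by
    intro x y
    rw [InnerProductSpace.continuousLinearMapOfBilin_apply]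
    rfl
  refine ⟨ContinuousLinearMap.adjoint S, ?_⟩
  intro x y
  rw [ContinuousLinearMap.adjoint_inner_right, hS]

/-- A chosen mean of a bounded family of operators. -/
noncomputable def opMean (T : G → L →L[ℂ] L) (C : ℝ) (hT : ∀ g, ‖T g‖ ≤ C) : L →L[ℂ] L :=
  (exists_opMean μ T C hT).choose

theorem inner_opMean (T : G → L →L[ℂ] L) (C : ℝ) (hT : ∀ g, ‖T g‖ ≤ C) (x y : L) :
    ⟪x, opMean μ T C hT y⟫_ℂ = μ.m (fun g => ⟪x, T g y⟫_ℂ) :=
  (exists_opMean μ T C hT).choose_spec x y

theorem bd_inner (T : G → L →L[ℂ] L) (C : ℝ) (hT : ∀ g, ‖T g‖ ≤ C) (x y : L) :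
    Bd (fun g => ⟪x, T g y⟫_ℂ) :=
  ⟨‖x‖ * (C * ‖y‖), fun g => (norm_inner_le_norm _ _).trans
    (mul_le_mul_of_nonneg_left ((T g).le_of_opNorm_le (hT g) y) (norm_nonneg _))⟩

theorem norm_opMean_sub_le (T : G → L →L[ℂ] L) (C : ℝ) (hT : ∀ g, ‖T g‖ ≤ C) (X : L →L[ℂ] L)
    (c : ℝ) (hc : ∀ g, ‖T g - X‖ ≤ c) : ‖opMean μ T C hT - X‖ ≤ c := by
  have hc0 : 0 ≤ c := (norm_nonneg _).trans (hc 1)
  refine ContinuousLinearMap.opNorm_le_bound _ hc0 fun y => ?_
  have h1 : ∀ x, ‖⟪x, (opMean μ T C hT - X) y⟫_ℂ‖ ≤ ‖x‖ * (c * ‖y‖) := by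
    intro x
    rw [sub_apply, inner_sub_right, inner_opMean]
    have h2 := μ.const ⟪x, X y⟫_ℂ
    rw [← h2, ← μ.sub _ _ (bd_inner T C hT x y) ⟨‖⟪x, X y⟫_ℂ‖, fun _ => le_rfl⟩]
    refine μ.bound _ _ fun g => ?_
    rw [← inner_sub_right]
    refine (norm_inner_le_norm _ _).trans (mul_le_mul_of_nonneg_left ?_ (norm_nonneg _))
    exact (T g - X).le_of_opNorm_le (hc g) y
  rcases eq_or_ne ((opMean μ T C hT - X) y) 0 with h0 | h0
  · rw [h0, norm_zero]
    positivity
  · have h2 := h1 ((opMean μ T C hT - X) y)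
    rw [inner_self_eq_norm_sq_to_K, norm_pow] at h2
    have h3 : ‖((‖(opMean μ T C hT - X) y‖ : ℝ) : ℂ)‖ = ‖(opMean μ T C hT - X) y‖ := by simp
    have h4 : ‖(opMean μ T C hT - X) y‖ ^ 2 ≤
        ‖(opMean μ T C hT - X) y‖ * (c * ‖y‖) := by
      refine le_trans (le_of_eq ?_) h2
      congr 1
      exact h3.symm
    have h5 : 0 < ‖(opMean μ T C hT - X) y‖ := norm_pos_iff.2 h0
    rw [sq] at h4
    exact le_of_mul_le_mul_left h4 h5

theorem opMean_comm (T : G → L →L[ℂ] L) (C : ℝ) (hT : ∀ g, ‖T g‖ ≤ C) (Z : L →L[ℂ] L)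
    (hZ : ∀ g, Z * T g = T g * Z) : Z * opMean μ T C hT = opMean μ T C hT * Z := by
  ext y
  refine ext_inner_left ℂ fun x => ?_
  show ⟪x, Z (opMean μ T C hT y)⟫_ℂ = ⟪x, opMean μ T C hT (Z y)⟫_ℂ
  rw [← ContinuousLinearMap.adjoint_inner_left, inner_opMean, inner_opMean]
  congr 1
  funext g
  rw [ContinuousLinearMap.adjoint_inner_left]
  have := congrArg (fun w : L →L[ℂ] L => w y) (hZ g)
  exact congrArg (fun w => ⟪x, w⟫_ℂ) this

theorem opMean_star (T : G → L →L[ℂ] L) (C : ℝ) (hT : ∀ g, ‖T g‖ ≤ C)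
    (h : ∀ g, star (T g) = T g) : star (opMean μ T C hT) = opMean μ T C hT := by
  ext y
  refine ext_inner_left ℂ fun x => ?_
  rw [ContinuousLinearMap.star_eq_adjoint, ContinuousLinearMap.adjoint_inner_right, inner_opMean,
    ← inner_conj_symm, inner_opMean, ← μ.cj _ (bd_inner T C hT y x)]
  congr 1
  funext g
  rw [inner_conj_symm]
  have h1 := h g
  rw [ContinuousLinearMap.star_eq_adjoint] at h1
  conv_lhs => rw [← h1]
  rw [ContinuousLinearMap.adjoint_inner_left]

/-- covariance: conjugating the family by `W` and shifting -/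
theorem opMean_conj (T : G → L →L[ℂ] L) (C : ℝ) (hT : ∀ g, ‖T g‖ ≤ C) (W W' : L →L[ℂ] L)
    (a : G) (h : ∀ g, W * T g * W' = T (a * g)) : W * opMean μ T C hT * W' = opMean μ T C hT := by
  ext y
  refine ext_inner_left ℂ fun x => ?_
  show ⟪x, W (opMean μ T C hT (W' y))⟫_ℂ = ⟪x, opMean μ T C hT y⟫_ℂ
  rw [← ContinuousLinearMap.adjoint_inner_left, inner_opMean, inner_opMean,
    ← μ.inv _ a (bd_inner T C hT x y)]
  congr 1
  funext g
  rw [ContinuousLinearMap.adjoint_inner_left, ← h g]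
  rfl

end op

end Pool.Agent.Q141.CC
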