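import Mathlib
import Pool.Agent.Q141.CC.Mean

/-!
The Hilbert space `L²(m; H)` of bounded functions on a group, with respect to an invariant mean.
-/

set_option autoImplicit false
set_option linter.unusedSectionVars false

open scoped InnerProductSpace ComplexConjugate
open Filter UniformSpace Completion

namespace Pool.Agent.Q141.CC

universe u v

variable {G : Type u} [Group G] (μ : CMean G)
variable (H : Type v) [NormedAddCommGroup H] [InnerProductSpace ℂ H]

/-- the bounded functions -/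
def BF (G : Type u) (H : Type v) [NormedAddCommGroup H] [InnerProductSpace ℂ H] :
    Submodule ℂ (G → H) where
  carrier := {F | Bd F}
  add_mem' := fun {a b} ha hb => Bd.add ha hb
  zero_mem' := ⟨0, fun x => by simp⟩
  smul_mem' := fun c {a} ha => Bd.smul ha c

set_option linter.unusedVariables false in
/-- bounded functions with the inner product given by the mean -/
def Pre (μ : CMean G) (H : Type v) [NormedAddCommGroup H] [InnerProductSpace ℂ H] : Type (max u v) :=
  BF G H

noncomputable instance : AddCommGroup (Pre μ H) := inferInstanceAs (AddCommGroup (BF G H))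
noncomputable instance : Module ℂ (Pre μ H) := inferInstanceAs (Module ℂ (BF G H))

variable {H}

/-- the function -/
def Pre.fn {μ : CMean G} (F : Pre μ H) : G → H := F.1

/-- constructor -/
def Pre.mk {μ : CMean G} (F : G → H) (hF : Bd F) : Pre μ H := ⟨F, hF⟩

theorem Pre.bd {μ : CMean G} (F : Pre μ H) : Bd F.fn := F.2

@[simp] theorem Pre.mk_fn {μ : CMean G} (F : G → H) (hF : Bd F) : (Pre.mk F hF : Pre μ H).fn = F := rfl

@[simp] theorem Pre.add_fn {μ : CMean G} (F F' : Pre μ H) (g : G) : (F + F').fn g = F.fn g + F'.fn g :=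
  rfl

@[simp] theorem Pre.smul_fn {μ : CMean G} (c : ℂ) (F : Pre μ H) (g : G) : (c • F).fn g = c • F.fn g :=
  rfl

theorem Pre.ext' {μ : CMean G} {F F' : Pre μ H} (h : ∀ g, F.fn g = F'.fn g) : F = F' :=
  Subtype.ext (funext h)

/-- the inner product of the mean -/
noncomputable abbrev preCore (μ : CMean G) (H : Type v) [NormedAddCommGroup H]
    [InnerProductSpace ℂ H] : PreInnerProductSpace.Core ℂ (Pre μ H) where
  inner F F' := μ.m (fun g => ⟪F.fn g, F'.fn g⟫_ℂ)
  conj_inner_symm F F' := by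
    rw [← μ.cj _ (F'.bd.inner F.bd)]
    congr 1
    funext g
    rw [inner_conj_symm]
  re_inner_nonneg F := by
    refine μ.nonneg _ (F.bd.inner F.bd) fun g => ?_
    exact inner_self_nonneg (𝕜 := ℂ) (x := F.fn g)
  add_left F F' F'' := by
    simp only [Pre.add_fn, inner_add_left]
    exact μ.add _ _ (F.bd.inner F''.bd) (F'.bd.inner F''.bd)
  smul_left F F' c := by
    simp only [Pre.smul_fn, inner_smul_left]
    exact μ.smul _ _ (F.bd.inner F'.bd)

noncomputable instance : SeminormedAddCommGroup (Pre μ H) :=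
  InnerProductSpace.Core.toSeminormedAddCommGroup (c := preCore μ H)
noncomputable instance : InnerProductSpace ℂ (Pre μ H) :=
  InnerProductSpace.ofCore (preCore μ H)

theorem Pre.inner_def {μ : CMean G} (F F' : Pre μ H) :
    ⟪F, F'⟫_ℂ = μ.m (fun g => ⟪F.fn g, F'.fn g⟫_ℂ) := rfl

/-- `‖F‖ ≤ c ‖F'‖` when this holds pointwise -/
theorem Pre.norm_le {H' : Type*} [NormedAddCommGroup H'] [InnerProductSpace ℂ H']
    {μ : CMean G} (F : Pre μ H) (F' : Pre μ H') (c : ℝ) (hc : 0 ≤ c)
    (h : ∀ g, ‖F.fn g‖ ≤ c * ‖F'.fn g‖) : ‖F‖ ≤ c * ‖F'‖ := by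
  have h1 : ‖F‖ ^ 2 ≤ (c * ‖F'‖) ^ 2 := by
    rw [mul_pow, ← inner_self_eq_norm_sq (𝕜 := ℂ) F, ← inner_self_eq_norm_sq (𝕜 := ℂ) F']
    rw [Pre.inner_def, Pre.inner_def]
    have h2 : c ^ 2 * RCLike.re (μ.m fun g => ⟪F'.fn g, F'.fn g⟫_ℂ) -
        RCLike.re (μ.m fun g => ⟪F.fn g, F.fn g⟫_ℂ) =
        (μ.m (fun g => ((c ^ 2 : ℝ) : ℂ) * ⟪F'.fn g, F'.fn g⟫_ℂ - ⟪F.fn g, F.fn g⟫_ℂ)).re := by
      rw [μ.sub _ _ ?_ (F.bd.inner F.bd), μ.smul _ _ (F'.bd.inner F'.bd), Complex.sub_re,
        Complex.re_ofReal_mul]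
      · rfl
      · obtain ⟨C, hC⟩ := F'.bd.inner F'.bd
        exact ⟨‖((c ^ 2 : ℝ) : ℂ)‖ * C, fun x => by
          rw [norm_mul]
          exact mul_le_mul_of_nonneg_left (hC x) (norm_nonneg _)⟩
    have h3 : 0 ≤ (μ.m (fun g => ((c ^ 2 : ℝ) : ℂ) * ⟪F'.fn g, F'.fn g⟫_ℂ -
        ⟪F.fn g, F.fn g⟫_ℂ)).re := by
      refine μ.nonneg _ ?_ fun g => ?_
      · obtain ⟨C, hC⟩ := F'.bd.inner F'.bd
        obtain ⟨D, hD⟩ := F.bd.inner F.bd
        exact ⟨‖((c ^ 2 : ℝ) : ℂ)‖ * C + D, fun x => by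
          refine (norm_sub_le _ _).trans (add_le_add ?_ (hD x))
          rw [norm_mul]
          exact mul_le_mul_of_nonneg_left (hC x) (norm_nonneg _)⟩
      · rw [inner_self_eq_norm_sq_to_K, inner_self_eq_norm_sq_to_K]
        have h4 := pow_le_pow_left₀ (norm_nonneg _) (h g) 2
        have h5 : (((c ^ 2 : ℝ) : ℂ) * ((‖F'.fn g‖ : ℝ) : ℂ) ^ 2 - ((‖F.fn g‖ : ℝ) : ℂ) ^ 2) =
            ((c ^ 2 * ‖F'.fn g‖ ^ 2 - ‖F.fn g‖ ^ 2 : ℝ) : ℂ) := by push_cast; ring
        have h6 : 0 ≤ (((c ^ 2 : ℝ) : ℂ) * ((‖F'.fn g‖ : ℝ) : ℂ) ^ 2 -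
            ((‖F.fn g‖ : ℝ) : ℂ) ^ 2).re := by
          rw [h5, Complex.ofReal_re]
          nlinarith
        exact h6
    rw [← h2] at h3
    linarith
  exact (pow_le_pow_iff_left₀ (norm_nonneg _) (by positivity) two_ne_zero).1 h1

variable (H)

/-- `L²(m; H)` -/
abbrev L2m (μ : CMean G) (H : Type v) [NormedAddCommGroup H] [InnerProductSpace ℂ H] :=
  UniformSpace.Completion (Pre μ H)

variable {H}
variable [CompleteSpace H]

/-- the operator `h ↦ (g ↦ S g h)` -/
noncomputable def vf (S : G → H →L[ℂ] H) (hS : Bd S) : H →L[ℂ] Pre μ H :=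
  LinearMap.mkContinuousOfExistsBound
    { toFun := fun h => Pre.mk (fun g => S g h) (by
        obtain ⟨C, hC⟩ := hS
        exact ⟨C * ‖h‖, fun g => (S g).le_of_opNorm_le (hC g) h⟩)
      map_add' := fun a b => Pre.ext' fun g => by simp
      map_smul' := fun c a => Pre.ext' fun g => by simp }
    (by
      obtain ⟨C, hC⟩ := hS
      have hC0 : 0 ≤ C := (norm_nonneg _).trans (hC 1)
      refine ⟨C, fun h => ?_⟩
      let F0 : Pre μ H := Pre.mk (fun _ => h) ⟨‖h‖, fun _ => le_rfl⟩
      have h0 : ‖F0‖ ≤ ‖h‖ := by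
        have h1 : ‖F0‖ ^ 2 = ‖h‖ ^ 2 := by
          rw [← inner_self_eq_norm_sq (𝕜 := ℂ) F0, ← inner_self_eq_norm_sq (𝕜 := ℂ) h,
            Pre.inner_def]
          show RCLike.re (μ.m (fun _ => ⟪h, h⟫_ℂ)) = _
          rw [μ.const]
        exact ((pow_left_inj₀ (norm_nonneg _) (norm_nonneg _) two_ne_zero).1 h1).le
      refine (Pre.norm_le _ F0 C hC0 fun g => ?_).trans (mul_le_mul_of_nonneg_left h0 hC0)
      exact (S g).le_of_opNorm_le (hC g) h)

@[simp] theorem vf_fn (S : G → H →L[ℂ] H) (hS : Bd S) (h : H) (g : G) :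
    (vf μ S hS h).fn g = S g h := rfl

/-- into the completion -/
noncomputable def vK (S : G → H →L[ℂ] H) (hS : Bd S) : H →L[ℂ] L2m μ H :=
  (toComplL : Pre μ H →L[ℂ] L2m μ H) ∘L vf μ S hS

theorem vK_apply (S : G → H →L[ℂ] H) (hS : Bd S) (h : H) :
    vK μ S hS h = ((vf μ S hS h : Pre μ H) : L2m μ H) := rfl

theorem inner_vK (S S' : G → H →L[ℂ] H) (hS : Bd S) (hS' : Bd S') (h h' : H) :
    ⟪vK μ S hS h, vK μ S' hS' h'⟫_ℂ = μ.m (fun g => ⟪S g h, S' g h'⟫_ℂ) := by
  rw [vK_apply, vK_apply, Completion.inner_coe]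
  rfl

theorem vK_isometry (S : G → H →L[ℂ] H) (hS : Bd S) (h : ∀ g, star (S g) * S g = 1) :
    ContinuousLinearMap.adjoint (vK μ S hS) ∘L vK μ S hS = 1 := by
  ext y
  refine ext_inner_left ℂ fun x => ?_
  rw [ContinuousLinearMap.comp_apply, ContinuousLinearMap.adjoint_inner_right, inner_vK]
  show _ = ⟪x, y⟫_ℂ
  have h1 : (fun g => ⟪S g x, S g y⟫_ℂ) = fun _ => ⟪x, y⟫_ℂ := by
    funext g
    rw [← ContinuousLinearMap.adjoint_inner_right]
    have := congrArg (fun w : H →L[ℂ] H => w y) (h g)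
    exact congrArg (fun w => ⟪x, w⟫_ℂ) this
  rw [h1, μ.const]

/-- norm bound for the difference -/
theorem vK_norm_sub (S S' : G → H →L[ℂ] H) (hS : Bd S) (hS' : Bd S') (c : ℝ)
    (h : ∀ g, ‖S g - S' g‖ ≤ c) : ‖vK μ S hS - vK μ S' hS'‖ ≤ c := by
  have hc0 : 0 ≤ c := (norm_nonneg _).trans (h 1)
  refine ContinuousLinearMap.opNorm_le_bound _ hc0 fun y => ?_
  have e : (vK μ S hS - vK μ S' hS') y =
      ((vf μ (fun g => S g - S' g) ⟨c, h⟩ y : Pre μ H) : L2m μ H) := by
    rw [sub_apply, vK_apply, vK_apply, ← Completion.coe_sub]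
    rfl
  rw [e, Completion.norm_coe]
  let F0 : Pre μ H := Pre.mk (fun _ => y) ⟨‖y‖, fun _ => le_rfl⟩
  have h0 : ‖F0‖ ≤ ‖y‖ := by
    have h1 : ‖F0‖ ^ 2 = ‖y‖ ^ 2 := by
      rw [← inner_self_eq_norm_sq (𝕜 := ℂ) F0, ← inner_self_eq_norm_sq (𝕜 := ℂ) y,
        Pre.inner_def]
      show RCLike.re (μ.m (fun _ => ⟪y, y⟫_ℂ)) = _
      rw [μ.const]
    exact ((pow_left_inj₀ (norm_nonneg _) (norm_nonneg _) two_ne_zero).1 h1).le
  refine (Pre.norm_le _ F0 c hc0 fun g => ?_).trans (mul_le_mul_of_nonneg_left h0 hc0)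
  exact (S g - S' g).le_of_opNorm_le (h g) y

/-- pointwise application of an operator -/
noncomputable def pf (T : H →L[ℂ] H) : Pre μ H →L[ℂ] Pre μ H :=
  LinearMap.mkContinuous
    { toFun := fun F => Pre.mk (fun g => T (F.fn g)) (by
        obtain ⟨C, hC⟩ := F.bd
        exact ⟨‖T‖ * C, fun g => (T.le_opNorm _).trans
          (mul_le_mul_of_nonneg_left (hC g) (norm_nonneg _))⟩)
      map_add' := fun a b => Pre.ext' fun g => by simp
      map_smul' := fun c a => Pre.ext' fun g => by simp } ‖T‖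
    (fun F => Pre.norm_le _ _ _ (norm_nonneg _) fun g => T.le_opNorm _)

@[simp] theorem pf_fn (T : H →L[ℂ] H) (F : Pre μ H) (g : G) : (pf μ T F).fn g = T (F.fn g) := rfl

/-- the representation `π` of `B(H)` on `L²(m; H)` -/
noncomputable def piK : (H →L[ℂ] H) →⋆ₐ[ℂ] (L2m μ H →L[ℂ] L2m μ H) where
  toFun T := (pf μ T).completion
  map_one' := by
    ext c
    induction c using induction_on with
    | hp => exact isClosed_eq (ContinuousLinearMap.continuous _) (ContinuousLinearMap.continuous _)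
    | ih c =>
      rw [ContinuousLinearMap.completion_apply_coe]
      rfl
  map_mul' S T := by
    ext c
    induction c using induction_on with
    | hp => exact isClosed_eq (ContinuousLinearMap.continuous _) (ContinuousLinearMap.continuous _)
    | ih c =>
      rw [mul_apply_eq_comp, ContinuousLinearMap.completion_apply_coe,
        ContinuousLinearMap.completion_apply_coe, ContinuousLinearMap.completion_apply_coe]
      rfl
  map_zero' := by
    ext c
    induction c using induction_on with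
    | hp => exact isClosed_eq (ContinuousLinearMap.continuous _) (ContinuousLinearMap.continuous _)
    | ih c =>
      rw [ContinuousLinearMap.completion_apply_coe]
      rfl
  map_add' S T := by
    ext c
    induction c using induction_on with
    | hp => exact isClosed_eq (ContinuousLinearMap.continuous _) (ContinuousLinearMap.continuous _)
    | ih c =>
      rw [add_apply, ContinuousLinearMap.completion_apply_coe,
        ContinuousLinearMap.completion_apply_coe, ContinuousLinearMap.completion_apply_coe,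
        ← Completion.coe_add]
      rfl
  commutes' r := by
    ext c
    induction c using induction_on with
    | hp => exact isClosed_eq (ContinuousLinearMap.continuous _) (ContinuousLinearMap.continuous _)
    | ih c =>
      rw [ContinuousLinearMap.completion_apply_coe, Algebra.algebraMap_eq_smul_one,
        Algebra.algebraMap_eq_smul_one]
      show _ = r • (c : L2m μ H)
      rw [← Completion.coe_smul]
      rfl
  map_star' T := by
    rw [ContinuousLinearMap.star_eq_adjoint, ContinuousLinearMap.star_eq_adjoint]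
    refine (ContinuousLinearMap.eq_adjoint_iff _ _).mpr ?_
    intro x y
    induction x, y using induction_on₂ with
    | hp => apply isClosed_eq <;> fun_prop
    | ih x y =>
      rw [ContinuousLinearMap.completion_apply_coe, ContinuousLinearMap.completion_apply_coe,
        Completion.inner_coe, Completion.inner_coe, Pre.inner_def, Pre.inner_def]
      congr 1
      funext g
      rw [pf_fn, pf_fn, ContinuousLinearMap.adjoint_inner_left]

theorem piK_coe (T : H →L[ℂ] H) (F : Pre μ H) :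
    piK μ T (F : L2m μ H) = ((pf μ T F : Pre μ H) : L2m μ H) :=
  ContinuousLinearMap.completion_apply_coe _ _

/-- translation by `a` -/
noncomputable def sf (a : G) : Pre μ H →L[ℂ] Pre μ H :=
  LinearMap.mkContinuous
    { toFun := fun F => Pre.mk (fun g => F.fn (a⁻¹ * g)) (by
        obtain ⟨C, hC⟩ := F.bd
        exact ⟨C, fun g => hC _⟩)
      map_add' := fun a b => Pre.ext' fun g => by simp
      map_smul' := fun c a => Pre.ext' fun g => by simp } 1
    (fun F => by
      rw [one_mul]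
      have h1 : ‖(Pre.mk (fun g => F.fn (a⁻¹ * g)) (by
        obtain ⟨C, hC⟩ := F.bd
        exact ⟨C, fun g => hC _⟩) : Pre μ H)‖ ^ 2 = ‖F‖ ^ 2 := by
        rw [← inner_self_eq_norm_sq (𝕜 := ℂ), ← inner_self_eq_norm_sq (𝕜 := ℂ) F, Pre.inner_def,
          Pre.inner_def]
        congr 1
        exact μ.inv _ a⁻¹ (F.bd.inner F.bd)
      exact ((pow_left_inj₀ (norm_nonneg _) (norm_nonneg _) two_ne_zero).1 h1).le)

@[simp] theorem sf_fn (a : G) (F : Pre μ H) (g : G) : (sf μ a F).fn g = F.fn (a⁻¹ * g) := rfl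

/-- translation on `L²(m; H)` -/
noncomputable def lamK (a : G) : L2m μ H →L[ℂ] L2m μ H := (sf μ a).completion

theorem lamK_coe (a : G) (F : Pre μ H) :
    lamK μ a (F : L2m μ H) = ((sf μ a F : Pre μ H) : L2m μ H) :=
  ContinuousLinearMap.completion_apply_coe _ _

theorem lamK_mul (a b : G) : (lamK μ (a * b) : L2m μ H →L[ℂ] L2m μ H) = lamK μ a * lamK μ b := by
  ext c
  induction c using induction_on with
  | hp => exact isClosed_eq (ContinuousLinearMap.continuous _) (ContinuousLinearMap.continuous _)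
  | ih c =>
    rw [mul_apply_eq_comp, lamK_coe, lamK_coe, lamK_coe]
    congr 1
    exact Pre.ext' fun g => by simp [mul_assoc]

theorem lamK_one : (lamK μ (1 : G) : L2m μ H →L[ℂ] L2m μ H) = 1 := by
  ext c
  induction c using induction_on with
  | hp => exact isClosed_eq (ContinuousLinearMap.continuous _) (ContinuousLinearMap.continuous _)
  | ih c =>
    rw [lamK_coe]
    show _ = (c : L2m μ H)
    congr 1
    exact Pre.ext' fun g => by simp

theorem lamK_star (a : G) : star (lamK μ a : L2m μ H →L[ℂ] L2m μ H) = lamK μ a⁻¹ := by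
  rw [ContinuousLinearMap.star_eq_adjoint]
  symm
  refine (ContinuousLinearMap.eq_adjoint_iff _ _).mpr ?_
  intro x y
  induction x, y using induction_on₂ with
  | hp => apply isClosed_eq <;> fun_prop
  | ih x y =>
    rw [lamK_coe, lamK_coe, Completion.inner_coe, Completion.inner_coe, Pre.inner_def,
      Pre.inner_def]
    have := μ.inv (fun g => ⟪(sf μ a⁻¹ x).fn g, y.fn g⟫_ℂ) a⁻¹ ((sf μ a⁻¹ x).bd.inner y.bd)
    rw [← this]
    congr 1
    funext g
    simp

theorem lamK_piK (a : G) (T : H →L[ℂ] H) : lamK μ a * piK μ T = piK μ T * lamK μ a := by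
  ext c
  induction c using induction_on with
  | hp => exact isClosed_eq (ContinuousLinearMap.continuous _) (ContinuousLinearMap.continuous _)
  | ih c =>
    rw [mul_apply_eq_comp, mul_apply_eq_comp, lamK_coe, piK_coe, lamK_coe,
      piK_coe]
    rfl

theorem lamK_vK (a : G) (S : G → H →L[ℂ] H) (hS : Bd S) (W : H →L[ℂ] H)
    (h : ∀ g, S (a⁻¹ * g) = S g * W) : lamK μ a ∘L vK μ S hS = vK μ S hS ∘L W := by
  ext y
  rw [ContinuousLinearMap.comp_apply, ContinuousLinearMap.comp_apply, vK_apply, vK_apply, lamK_coe]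
  congr 1
  exact Pre.ext' fun g => by simp [h]

theorem piK_vK (T : H →L[ℂ] H) (S S' : G → H →L[ℂ] H) (hS : Bd S) (hS' : Bd S')
    (h : ∀ g, T * S g = S' g) : piK μ T ∘L vK μ S hS = vK μ S' hS' := by
  ext y
  rw [ContinuousLinearMap.comp_apply, vK_apply, vK_apply, piK_coe]
  congr 1
  exact Pre.ext' fun g => by simp [← h]

theorem vK_comp (T : H →L[ℂ] H) (S S' : G → H →L[ℂ] H) (hS : Bd S) (hS' : Bd S')
    (h : ∀ g, S g * T = S' g) : vK μ S hS ∘L T = vK μ S' hS' := by
  ext y
  rw [ContinuousLinearMap.comp_apply, vK_apply, vK_apply]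
  congr 1
  exact Pre.ext' fun g => by simp [← h]

end Pool.Agent.Q141.CC
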