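import Mathlib
import Pool.Agent.Q141.CC.Abs
import Pool.Agent.Q141.CC.L2m
import Pool.Agent.Q141.CC.DD

/-!
Commutative groups of unitaries near a von Neumann algebra are conjugated into it by a unitary
near `1`.
-/

set_option autoImplicit false
set_option linter.unusedSectionVars false

open scoped InnerProductSpace ComplexConjugate
open ContinuousLinearMap (adjoint)

namespace Pool.Agent.Q141.CC

universe u v

variable {H : Type u} [NormedAddCommGroup H] [InnerProductSpace ℂ H] [CompleteSpace H]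

theorem unitary_norm_le {L : Type v} [NormedAddCommGroup L] [InnerProductSpace ℂ L]
    [CompleteSpace L] (w : L →L[ℂ] L) (h : star w * w = 1) : ‖w‖ ≤ 1 := by
  refine ContinuousLinearMap.opNorm_le_bound _ zero_le_one fun x => ?_
  have h1 : ‖w x‖ ^ 2 = ‖x‖ ^ 2 := by
    rw [← inner_self_eq_norm_sq (𝕜 := ℂ) (w x), ← ContinuousLinearMap.adjoint_inner_right]
    have h2 : adjoint w (w x) = x := congrArg (fun z : L →L[ℂ] L => z x) h
    rw [h2, inner_self_eq_norm_sq]
  rw [one_mul]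
  exact ((pow_left_inj₀ (norm_nonneg _) (norm_nonneg _) two_ne_zero).1 h1).le

/-- A self-adjoint-like statement: near `1`, a left invertible element is invertible. -/
theorem mul_star_of_near {A : Type*} [CStarAlgebra A] (u : A) (h : star u * u = 1)
    (hn : ‖u - 1‖ < 1) : u * star u = 1 := by
  have h1 : IsUnit u := by
    have h2 : ‖1 - u‖ < 1 := by rwa [norm_sub_rev]
    have := isUnit_one_sub_of_norm_lt_one h2
    rwa [sub_sub_cancel] at this
  obtain ⟨w, rfl⟩ := h1
  have h3 : star (w : A) = ((w⁻¹ : Aˣ) : A) := by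
    calc star (w : A) = star (w : A) * ((w : A) * ((w⁻¹ : Aˣ) : A)) := by rw [Units.mul_inv, mul_one]
      _ = ((w⁻¹ : Aˣ) : A) := by rw [← mul_assoc, h, one_mul]
  rw [h3, Units.mul_inv]

theorem norm_conj_le {A : Type*} [CStarAlgebra A] (w x : A) (hw : ‖w‖ ≤ 1) :
    ‖w * x * star w‖ ≤ ‖x‖ := by
  calc ‖w * x * star w‖ ≤ ‖w‖ * ‖x‖ * ‖star w‖ :=
        (norm_mul_le _ _).trans (mul_le_mul_of_nonneg_right (norm_mul_le _ _) (norm_nonneg _))
    _ ≤ 1 * ‖x‖ * 1 := by
        rw [norm_star]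
        exact mul_le_mul (mul_le_mul_of_nonneg_right hw (norm_nonneg _)) hw
          (norm_nonneg _) (by positivity)
    _ = ‖x‖ := by ring

theorem mulstar_sub_le {A : Type*} [CStarAlgebra A] (v y : A) (ε : ℝ) (hv : ‖v‖ ≤ 1)
    (hvy : ‖v - y‖ ≤ ε) (hε : ε ≤ 1) : ‖y * star y - v * star v‖ ≤ 3 * ε := by
  have hε0 : 0 ≤ ε := (norm_nonneg _).trans hvy
  have hyn : ‖y‖ ≤ 1 + ε := by
    have : y = v - (v - y) := by abel
    rw [this]
    exact (norm_sub_le _ _).trans (by linarith)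
  have e : y * star y - v * star v = -((v - y) * star y + v * star (v - y)) := by
    rw [star_sub]
    noncomm_ring
  rw [e, norm_neg]
  refine (norm_add_le _ _).trans ?_
  have h1 : ‖(v - y) * star y‖ ≤ ε * (1 + ε) := by
    refine (norm_mul_le _ _).trans ?_
    rw [norm_star]
    exact mul_le_mul hvy hyn (norm_nonneg _) hε0
  have h2 : ‖v * star (v - y)‖ ≤ 1 * ε := by
    refine (norm_mul_le _ _).trans ?_
    rw [norm_star]
    exact mul_le_mul hv hvy (norm_nonneg _) zero_le_one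
  nlinarith

theorem scv_aux {A : Type*} [CStarAlgebra A] (v w : A) {c : ℝ} (hv : ‖v‖ ≤ 1)
    (hw : ‖w‖ ≤ c) : ‖star v * w‖ ≤ c := by
  refine (norm_mul_le _ _).trans ?_
  rw [norm_star]
  nlinarith [norm_nonneg w, norm_nonneg v]

/-- The last step of the conjugation theorem: the unitary part of `S`. -/
theorem finish (N : VonNeumannAlgebra H) (G : Type u) [CommGroup G]
    (U : G →* unitary (H →L[ℂ] H)) (γ ε : ℝ) (hεd : ε = cD * (2 * γ)) (hε1 : ε ≤ 1 / 1000)
    (hUs : ∀ g, star (U g : H →L[ℂ] H) = (U g⁻¹ : H →L[ℂ] H)) (S : H →L[ℂ] H)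
    (Φ : G → H →L[ℂ] H) (hSΦ : ∀ g, S * Φ g = (U g : H →L[ℂ] H) * S)
    (hΦs : ∀ g, star (Φ g) = Φ g⁻¹) (hΦN : ∀ g, Φ g ∈ N) (hSn : ‖S - 1‖ ≤ 41 * ε)
    (hSz : ∀ z ∈ N.commutant, (∀ g, z * (U g : H →L[ℂ] H) = (U g : H →L[ℂ] H) * z) →
      z * S = S * z) :
    ∃ u : H →L[ℂ] H, star u * u = 1 ∧ u * star u = 1 ∧ ‖u - 1‖ ≤ 260 * cD * γ ∧
      (∀ g, star u * (U g : H →L[ℂ] H) * u ∈ N) ∧
      ∀ z, z ∈ N.commutant → (∀ g, z * (U g : H →L[ℂ] H) = (U g : H →L[ℂ] H) * z) →
        z * u = u * z := by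
  have hε0 : 0 ≤ ε := by linarith [(norm_nonneg _).trans hSn]
  rcases subsingleton_or_nontrivial (H →L[ℂ] H) with hss | hnt
  · refine ⟨1, Subsingleton.elim _ _, Subsingleton.elim _ _, ?_, fun g => ?_, fun z _ _ =>
      Subsingleton.elim _ _⟩
    · rw [sub_self, norm_zero]
      linarith
    · rw [Subsingleton.elim (star (1 : H →L[ℂ] H) * (U g : H →L[ℂ] H) * 1) 0]
      exact zero_mem N
  have hSn' : ‖S‖ ≤ 1 + 41 * ε := by
    have : S = 1 + (S - 1) := by abel
    rw [this]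
    refine (norm_add_le _ _).trans ?_
    rw [norm_one]
    linarith
  have hb : ‖star S * S - 1‖ ≤ 84 * ε := by
    have e : star S * S - 1 = star S * (S - 1) + star (S - 1) := by
      rw [star_sub, star_one]
      noncomm_ring
    rw [e]
    refine (norm_add_le _ _).trans ?_
    rw [norm_star]
    have h1 : ‖star S * (S - 1)‖ ≤ (1 + 41 * ε) * (41 * ε) := by
      refine (norm_mul_le _ _).trans ?_
      rw [norm_star]
      exact mul_le_mul hSn' hSn (norm_nonneg _) (by linarith)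
    nlinarith
  obtain ⟨r, hr1, hr2, hr3, hr4⟩ := exists_rsq (star S * S) (by rw [star_mul, star_star])
    (by linarith)
  have hr3' : ‖r - 1‖ ≤ 84 * ε := hr3.trans hb
  obtain ⟨u, hud⟩ : ∃ u, u = S * r := ⟨_, rfl⟩
  have hu1 : star u * u = 1 := by
    rw [hud, star_mul, hr1]
    calc r * star S * (S * r) = r * (star S * S) * r := by noncomm_ring
      _ = 1 := hr2
  have hu2 : ‖u - 1‖ ≤ 129 * ε := by
    have e : u - 1 = S * (r - 1) + (S - 1) := by rw [hud]; noncomm_ring
    rw [e]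
    refine (norm_add_le _ _).trans ?_
    have h1 : ‖S * (r - 1)‖ ≤ (1 + 41 * ε) * (84 * ε) :=
      (norm_mul_le _ _).trans (mul_le_mul hSn' hr3' (norm_nonneg _) (by linarith))
    nlinarith
  have hΦS : ∀ g, Φ g * star S = star S * (U g : H →L[ℂ] H) := by
    intro g
    have := congrArg star (hSΦ g⁻¹)
    rw [star_mul, star_mul, hΦs, inv_inv, hUs, inv_inv] at this
    exact this
  have hΦr : ∀ g, Φ g * r = r * Φ g := by
    intro g
    refine hr4 _ ?_
    rw [← mul_assoc, hΦS, mul_assoc, mul_assoc, hSΦ]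
  refine ⟨u, hu1, mul_star_of_near u hu1 (by linarith), ?_, ?_, ?_⟩
  · refine hu2.trans ?_
    rw [hεd]
    have : 0 ≤ cD * γ := by
      rw [hεd] at hε0
      linarith
    linarith
  · intro g
    have h1 : star u * (U g : H →L[ℂ] H) * u = Φ g := by
      calc star u * (U g : H →L[ℂ] H) * u = star u * ((U g : H →L[ℂ] H) * S) * r := by
            rw [hud]; noncomm_ring
        _ = star u * S * (Φ g * r) := by rw [← hSΦ]; noncomm_ring
        _ = star u * (S * r) * Φ g := by rw [hΦr]; noncomm_ring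
        _ = Φ g := by rw [← hud, hu1, one_mul]
    rw [h1]
    exact hΦN g
  · intro z hz hzU
    have hzs : ∀ g, star z * (U g : H →L[ℂ] H) = (U g : H →L[ℂ] H) * star z := by
      intro g
      have := congrArg star (hzU g⁻¹)
      rw [star_mul, star_mul, hUs, inv_inv] at this
      exact this.symm
    have h1 := hSz z hz hzU
    have h2 : z * star S = star S * z := by
      have := congrArg star (hSz (star z) (star_mem hz) hzs)
      rw [star_mul, star_mul, star_star] at this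
      exact this.symm
    have h3 : z * r = r * z := hr4 z (by rw [← mul_assoc, h2, mul_assoc, h1, mul_assoc])
    rw [hud, ← mul_assoc, h1, mul_assoc, h3, mul_assoc]

theorem conj_near (N : VonNeumannAlgebra H) (G : Type u) [CommGroup G]
    (U : G →* unitary (H →L[ℂ] H)) (γ : ℝ)
    (hγ : ∀ g, ∃ y ∈ N, ‖(U g : H →L[ℂ] H) - y‖ ≤ γ) (hγ1 : 2 * cD * γ ≤ 1 / 1000) :
    ∃ u : H →L[ℂ] H, star u * u = 1 ∧ u * star u = 1 ∧ ‖u - 1‖ ≤ 260 * cD * γ ∧
      (∀ g, star u * (U g : H →L[ℂ] H) * u ∈ N) ∧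
      ∀ z, z ∈ N.commutant → (∀ g, z * (U g : H →L[ℂ] H) = (U g : H →L[ℂ] H) * z) →
        z * u = u * z := by
  obtain ⟨μ⟩ := exists_cmean G
  have hγ0 : 0 ≤ γ := by
    obtain ⟨y, -, hy⟩ := hγ 1
    exact (norm_nonneg _).trans hy
  have hcD := cD_ge
  set ε : ℝ := cD * (2 * γ) with hεd
  have hε0 : 0 ≤ ε := by positivity
  have hε1 : ε ≤ 1 / 1000 := by rw [hεd]; linarith
  have hU1 : ∀ g, star (U g : H →L[ℂ] H) * (U g : H →L[ℂ] H) = 1 := fun g =>
    Unitary.coe_star_mul_self _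
  have hU2 : ∀ g, (U g : H →L[ℂ] H) * star (U g : H →L[ℂ] H) = 1 := fun g =>
    Unitary.coe_mul_star_self _
  have hUs : ∀ g, star (U g : H →L[ℂ] H) = (U g⁻¹ : H →L[ℂ] H) := by
    intro g
    rw [map_inv, ← Unitary.star_eq_inv]
    rfl
  have hUm : ∀ g h, (U (g * h) : H →L[ℂ] H) = (U g : H →L[ℂ] H) * (U h : H →L[ℂ] H) := by
    intro g h
    rw [map_mul]
    rfl
  have hUn : ∀ g, ‖(U g : H →L[ℂ] H)‖ ≤ 1 := fun g => unitary_norm_le _ (hU1 g)
  -- the maps
  let SV : G → H →L[ℂ] H := fun g => (U g⁻¹ : H →L[ℂ] H)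
  have hSV : Bd SV := ⟨1, fun g => hUn _⟩
  let SC : G → H →L[ℂ] H := fun _ => 1
  have hSC : Bd SC := ⟨‖(1 : H →L[ℂ] H)‖, fun g => le_rfl⟩
  set V : H →L[ℂ] L2m μ H := vK μ SV hSV with hV
  set C : H →L[ℂ] L2m μ H := vK μ SC hSC with hC
  have hVV : adjoint V ∘L V = 1 := vK_isometry μ SV hSV fun g => hU1 _
  have hCC : adjoint C ∘L C = 1 := vK_isometry μ SC hSC fun g => by
    show star (1 : H →L[ℂ] H) * 1 = 1
    rw [star_one, one_mul]
  -- relations
  have hCT : ∀ T : H →L[ℂ] H, piK μ T ∘L C = C ∘L T := by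
    intro T
    rw [hC, piK_vK μ T SC (fun _ => T) hSC ⟨‖T‖, fun _ => le_rfl⟩ (fun g => mul_one T),
      vK_comp μ T SC (fun _ => T) hSC ⟨‖T‖, fun _ => le_rfl⟩ (fun g => one_mul T)]
  have hTC : ∀ T : H →L[ℂ] H, adjoint C ∘L piK μ T = T ∘L adjoint C := by
    intro T
    have h1 := congrArg adjoint (hCT (adjoint T))
    rw [ContinuousLinearMap.adjoint_comp, ContinuousLinearMap.adjoint_comp,
      ContinuousLinearMap.adjoint_adjoint] at h1
    rw [← h1]
    congr 1
    rw [← ContinuousLinearMap.star_eq_adjoint, ← ContinuousLinearMap.star_eq_adjoint,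
      map_star, star_star]
  have hlV : ∀ a, lamK μ a ∘L V = V ∘L (U a : H →L[ℂ] H) := by
    intro a
    refine lamK_vK μ a SV hSV _ fun g => ?_
    show (U (a⁻¹ * g)⁻¹ : H →L[ℂ] H) = (U g⁻¹ : H →L[ℂ] H) * (U a : H →L[ℂ] H)
    rw [← hUm, mul_inv_rev, inv_inv]
  have hpV : ∀ (T : H →L[ℂ] H) (c : ℝ), (∀ g, ‖T * (U g : H →L[ℂ] H) - (U g : H →L[ℂ] H) * T‖ ≤ c) →
      ‖piK μ T ∘L V - V ∘L T‖ ≤ c := by
    intro T c h
    have hb1 : Bd (fun g => T * SV g) := ⟨‖T‖ * 1, fun g => (norm_mul_le _ _).trans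
      (mul_le_mul_of_nonneg_left (hUn _) (norm_nonneg _))⟩
    have hb2 : Bd (fun g => SV g * T) := ⟨1 * ‖T‖, fun g => (norm_mul_le _ _).trans
      (mul_le_mul_of_nonneg_right (hUn _) (norm_nonneg _))⟩
    rw [hV, piK_vK μ T SV (fun g => T * SV g) hSV hb1 (fun g => rfl),
      vK_comp μ T SV (fun g => SV g * T) hSV hb2 (fun g => rfl)]
    exact vK_norm_sub μ _ _ _ _ c fun g => h _
  have hpV0 : ∀ T : H →L[ℂ] H, (∀ g, T * (U g : H →L[ℂ] H) = (U g : H →L[ℂ] H) * T) →
      piK μ T ∘L V = V ∘L T := by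
    intro T h
    have h1 := hpV T 0 fun g => by rw [h g, sub_self, norm_zero]
    exact sub_eq_zero.1 (norm_le_zero_iff.1 h1)
  -- in the algebra of operators on the big space
  set c : L2m μ H →L[ℂ] L2m μ H := C ∘L adjoint C with hcd
  set v : L2m μ H →L[ℂ] L2m μ H := V ∘L adjoint C with hvd
  have hcs : star c = c := by
    rw [ContinuousLinearMap.star_eq_adjoint, hcd, ContinuousLinearMap.adjoint_comp,
      ContinuousLinearMap.adjoint_adjoint]
  have hcc : c * c = c := by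
    show (C ∘L adjoint C) ∘L (C ∘L adjoint C) = C ∘L adjoint C
    rw [ContinuousLinearMap.comp_assoc, ← ContinuousLinearMap.comp_assoc (adjoint C), hCC]
    rfl
  have hvv : star v * v = c := by
    rw [ContinuousLinearMap.star_eq_adjoint, hvd, ContinuousLinearMap.adjoint_comp,
      ContinuousLinearMap.adjoint_adjoint]
    show (C ∘L adjoint V) ∘L (V ∘L adjoint C) = C ∘L adjoint C
    rw [ContinuousLinearMap.comp_assoc, ← ContinuousLinearMap.comp_assoc (adjoint V), hVV]
    rfl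
  have hvc : v * c = v := by
    show (V ∘L adjoint C) ∘L (C ∘L adjoint C) = V ∘L adjoint C
    rw [ContinuousLinearMap.comp_assoc, ← ContinuousLinearMap.comp_assoc (adjoint C), hCC]
    rfl
  have hpc : ∀ T : H →L[ℂ] H, piK μ T * c = c * piK μ T := by
    intro T
    show piK μ T ∘L (C ∘L adjoint C) = (C ∘L adjoint C) ∘L piK μ T
    rw [← ContinuousLinearMap.comp_assoc, hCT, ContinuousLinearMap.comp_assoc,
      ContinuousLinearMap.comp_assoc, hTC]
  have hlv : ∀ a, lamK μ a * v = v * piK μ (U a : H →L[ℂ] H) := by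
    intro a
    show lamK μ a ∘L (V ∘L adjoint C) = (V ∘L adjoint C) ∘L piK μ (U a : H →L[ℂ] H)
    rw [← ContinuousLinearMap.comp_assoc, hlV, ContinuousLinearMap.comp_assoc,
      ContinuousLinearMap.comp_assoc, hTC]
  have hpv : ∀ (T : H →L[ℂ] H) (k : ℝ),
      (∀ g, ‖T * (U g : H →L[ℂ] H) - (U g : H →L[ℂ] H) * T‖ ≤ k) →
      ‖piK μ T * v - v * piK μ T‖ ≤ k := by
    intro T k h
    have h1 := hpV T k h
    have e : piK μ T * v - v * piK μ T = (piK μ T ∘L V - V ∘L T) ∘L adjoint C := by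
      rw [ContinuousLinearMap.sub_comp]
      show piK μ T ∘L (V ∘L adjoint C) - (V ∘L adjoint C) ∘L piK μ T = _
      rw [ContinuousLinearMap.comp_assoc, ContinuousLinearMap.comp_assoc,
        ContinuousLinearMap.comp_assoc, hTC]
    rw [e]
    refine (ContinuousLinearMap.opNorm_comp_le _ _).trans ?_
    have h2 : ‖adjoint C‖ ≤ 1 := by
      rw [LinearIsometryEquiv.norm_map]
      refine ContinuousLinearMap.opNorm_le_bound _ zero_le_one fun x => ?_
      have h3 : ‖C x‖ ^ 2 = ‖x‖ ^ 2 := by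
        rw [← inner_self_eq_norm_sq (𝕜 := ℂ) (C x), ← ContinuousLinearMap.adjoint_inner_right]
        have h4 : adjoint C (C x) = x := congrArg (fun z : H →L[ℂ] H => z x) hCC
        rw [h4, inner_self_eq_norm_sq]
      rw [one_mul]
      exact ((pow_left_inj₀ (norm_nonneg _) (norm_nonneg _) two_ne_zero).1 h3).le
    have h5 : 0 ≤ k := (norm_nonneg _).trans (h 1)
    nlinarith [norm_nonneg (piK μ T ∘L V - V ∘L T), norm_nonneg (adjoint C)]
  -- the exact intertwiner
  obtain ⟨y0, hy1, hy2⟩ := near_comm_vN N.commutant (L2m μ H) (piK μ) v (2 * γ) (by positivity) (by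
    intro T hT
    refine hpv T _ fun g => ?_
    obtain ⟨y, hyN, hy⟩ := hγ g
    have h1 : y * T = T * y := VonNeumannAlgebra.mem_commutant_iff.1 hT y hyN
    have e : T * (U g : H →L[ℂ] H) - (U g : H →L[ℂ] H) * T =
        T * ((U g : H →L[ℂ] H) - y) - ((U g : H →L[ℂ] H) - y) * T := by
      rw [mul_sub, sub_mul, h1]
      abel
    rw [e]
    refine (norm_sub_le _ _).trans ?_
    have h2 : ‖T * ((U g : H →L[ℂ] H) - y)‖ ≤ ‖T‖ * γ :=
      (norm_mul_le _ _).trans (mul_le_mul_of_nonneg_left hy (norm_nonneg _))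
    have h3 : ‖((U g : H →L[ℂ] H) - y) * T‖ ≤ γ * ‖T‖ :=
      (norm_mul_le _ _).trans (mul_le_mul_of_nonneg_right hy (norm_nonneg _))
    linarith)
  have hvn : ‖v‖ ≤ 1 := norm_le_one_of_star_mul_proj hcs hcc hvv
  -- translations
  have hl1 : ∀ a, lamK μ a * star (lamK μ a : L2m μ H →L[ℂ] L2m μ H) = 1 := by
    intro a
    rw [lamK_star, ← lamK_mul, mul_inv_cancel, lamK_one]
  have hl2 : ∀ a, star (lamK μ a : L2m μ H →L[ℂ] L2m μ H) * lamK μ a = 1 := by
    intro a
    rw [lamK_star, ← lamK_mul, inv_mul_cancel, lamK_one]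
  have hln : ∀ a, ‖(lamK μ a : L2m μ H →L[ℂ] L2m μ H)‖ ≤ 1 := fun a => unitary_norm_le _ (hl2 a)
  have hvvl : ∀ a, lamK μ a * (v * star v) * star (lamK μ a : L2m μ H →L[ℂ] L2m μ H) =
      v * star v := by
    intro a
    have h1 : star v * star (lamK μ a : L2m μ H →L[ℂ] L2m μ H) =
        piK μ (star (U a : H →L[ℂ] H)) * star v := by
      rw [← star_mul, hlv, star_mul, map_star]
    calc lamK μ a * (v * star v) * star (lamK μ a : L2m μ H →L[ℂ] L2m μ H) =
        (lamK μ a * v) * (star v * star (lamK μ a : L2m μ H →L[ℂ] L2m μ H)) := by noncomm_ring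
      _ = v * (piK μ (U a : H →L[ℂ] H) * piK μ (star (U a : H →L[ℂ] H))) * star v := by
          rw [hlv, h1]; noncomm_ring
      _ = v * star v := by rw [← map_mul, hU2, map_one, mul_one]
  -- the average
  obtain ⟨y, hyd⟩ : ∃ y, y = y0 * c := ⟨_, rfl⟩
  have hvy : ‖v - y‖ ≤ ε := by
    have e : v - y = (v - y0) * c := by rw [sub_mul, hvc, hyd]
    rw [e]
    refine (norm_mul_le _ _).trans ?_
    have : ‖c‖ ≤ 1 := norm_proj_le_one hcs hcc
    nlinarith [norm_nonneg (v - y0), norm_nonneg c]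
  have ha0 : ‖y * star y - v * star v‖ ≤ 3 * ε :=
    mulstar_sub_le v y ε hvn hvy (by linarith)
  let T0 : G → L2m μ H →L[ℂ] L2m μ H := fun g => lamK μ g * (y * star y) * star (lamK μ g)
  have hT0 : ∀ g, ‖T0 g‖ ≤ ‖y * star y‖ := fun g => norm_conj_le _ _ (hln g)
  set a : L2m μ H →L[ℂ] L2m μ H := opMean μ T0 _ hT0 with had
  have has : star a = a := opMean_star μ T0 _ hT0 fun g => by
    show star (lamK μ g * (y * star y) * star (lamK μ g)) =
      lamK μ g * (y * star y) * star (lamK μ g)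
    simp only [star_mul, star_star, mul_assoc]
  have hav : ‖a - v * star v‖ ≤ 3 * ε := by
    refine norm_opMean_sub_le μ T0 _ hT0 _ _ fun g => ?_
    have e : T0 g - v * star v = lamK μ g * (y * star y - v * star v) * star (lamK μ g) := by
      rw [mul_sub, sub_mul, hvvl]
    rw [e]
    exact (norm_conj_le _ _ (hln g)).trans ha0
  have hla : ∀ b, lamK μ b * a = a * lamK μ b := by
    intro b
    have h1 : lamK μ b * a * star (lamK μ b : L2m μ H →L[ℂ] L2m μ H) = a := by
      refine opMean_conj μ T0 _ hT0 _ _ b fun g => ?_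
      show lamK μ b * (lamK μ g * (y * star y) * star (lamK μ g)) * star (lamK μ b) =
        lamK μ (b * g) * (y * star y) * star (lamK μ (b * g))
      rw [lamK_mul, star_mul]
      noncomm_ring
    calc lamK μ b * a = lamK μ b * a * (star (lamK μ b : L2m μ H →L[ℂ] L2m μ H) * lamK μ b) := by
          rw [hl2, mul_one]
      _ = (lamK μ b * a * star (lamK μ b : L2m μ H →L[ℂ] L2m μ H)) * lamK μ b := by noncomm_ring
      _ = a * lamK μ b := by rw [h1]
  have hpy : ∀ T ∈ N.commutant, piK μ T * y = y * piK μ T := by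
    intro T hT
    rw [hyd, ← mul_assoc, hy1 T hT, mul_assoc, hpc, mul_assoc]
  have hpa : ∀ T ∈ N.commutant, piK μ T * a = a * piK μ T := by
    intro T hT
    refine opMean_comm μ T0 _ hT0 _ fun g => ?_
    have h1 : piK μ T * star y = star y * piK μ T := by
      have := congrArg star (hpy (star T) (star_mem hT))
      rw [star_mul, star_mul, ← map_star, star_star] at this
      exact this.symm
    have h2 : piK μ T * star (lamK μ g : L2m μ H →L[ℂ] L2m μ H) = star (lamK μ g) * piK μ T := by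
      rw [lamK_star, lamK_piK]
    show piK μ T * (lamK μ g * (y * star y) * star (lamK μ g)) =
      lamK μ g * (y * star y) * star (lamK μ g) * piK μ T
    calc piK μ T * (lamK μ g * (y * star y) * star (lamK μ g)) =
          (piK μ T * lamK μ g) * y * star y * star (lamK μ g) := by noncomm_ring
      _ = lamK μ g * (piK μ T * y) * star y * star (lamK μ g) := by rw [← lamK_piK]; noncomm_ring
      _ = lamK μ g * y * (piK μ T * star y) * star (lamK μ g) := by rw [hpy T hT]; noncomm_ring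
      _ = lamK μ g * y * star y * (piK μ T * star (lamK μ g)) := by rw [h1]; noncomm_ring
      _ = lamK μ g * (y * star y) * star (lamK μ g) * piK μ T := by rw [h2]; noncomm_ring
  obtain ⟨x, f, hx1, hx2, hx3, hf1, hf2, hx4, hf3, hx5⟩ :=
    correct c v y0 a ε hcs hcc hvv hvc hε1 hy2 has hav
  have hpx : ∀ T ∈ N.commutant, piK μ T * x = x * piK μ T := by
    intro T hT
    have hTs : star T ∈ N.commutant := star_mem hT
    refine hx5 _ (hpa T hT) (hpc T) (hy1 T hT) ?_ ?_ ?_
    · rw [← map_star]; exact hpa _ hTs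
    · rw [← map_star]; exact hpc _
    · rw [← map_star]; exact hy1 _ hTs
  have hlf : ∀ b, lamK μ b * f = f * lamK μ b := fun b => hf3 _ (hla b)
  have hfx : f * x = x := by rw [← hx3, mul_assoc, hx1, hx2]
  have hpxs : ∀ T ∈ N.commutant, piK μ T * star x = star x * piK μ T := by
    intro T hT
    have := congrArg star (hpx (star T) (star_mem hT))
    rw [star_mul, star_mul, ← map_star, star_star] at this
    exact this.symm
  have hcvs : c * star v = star v := by
    have := congrArg star hvc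
    rwa [star_mul, hcs] at this
  have hcxs : c * star x = star x := by
    have := congrArg star hx2
    rwa [star_mul, hcs] at this
  have hvsl : ∀ b, star v * lamK μ b = piK μ (U b : H →L[ℂ] H) * star v := by
    intro b
    have h1 := congrArg star (hlv b⁻¹)
    rw [star_mul, star_mul, lamK_star, inv_inv, ← map_star, hUs, inv_inv] at h1
    exact h1
  -- compression to `H`
  let κ : (L2m μ H →L[ℂ] L2m μ H) → (H →L[ℂ] H) := fun w => adjoint C ∘L (w ∘L C)
  have hκ1 : ∀ w w', w * c = w → κ (w * w') = κ w * κ w' := by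
    intro w w' h
    conv_lhs => rw [← h]
    show adjoint C ∘L (((w ∘L (C ∘L adjoint C)) ∘L w') ∘L C) =
      (adjoint C ∘L (w ∘L C)) ∘L (adjoint C ∘L (w' ∘L C))
    simp only [ContinuousLinearMap.comp_assoc]
  have hκ2 : ∀ w w', c * w' = w' → κ (w * w') = κ w * κ w' := by
    intro w w' h
    conv_lhs => rw [← h]
    show adjoint C ∘L ((w ∘L ((C ∘L adjoint C) ∘L w')) ∘L C) =
      (adjoint C ∘L (w ∘L C)) ∘L (adjoint C ∘L (w' ∘L C))
    simp only [ContinuousLinearMap.comp_assoc]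
  have hκs : ∀ w, star (κ w) = κ (star w) := by
    intro w
    show adjoint (adjoint C ∘L (w ∘L C)) = adjoint C ∘L (adjoint w ∘L C)
    rw [ContinuousLinearMap.adjoint_comp, ContinuousLinearMap.adjoint_comp,
      ContinuousLinearMap.adjoint_adjoint, ContinuousLinearMap.comp_assoc]
  have hκp : ∀ T, κ (piK μ T) = T := by
    intro T
    show adjoint C ∘L (piK μ T ∘L C) = T
    rw [hCT, ← ContinuousLinearMap.comp_assoc, hCC]
    rfl
  have hκc : κ c = 1 := by
    show adjoint C ∘L ((C ∘L adjoint C) ∘L C) = 1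
    rw [ContinuousLinearMap.comp_assoc, hCC]
    exact hCC
  have hCn : ‖C‖ ≤ 1 := by
    refine ContinuousLinearMap.opNorm_le_bound _ zero_le_one fun x => ?_
    have h3 : ‖C x‖ ^ 2 = ‖x‖ ^ 2 := by
      rw [← inner_self_eq_norm_sq (𝕜 := ℂ) (C x), ← ContinuousLinearMap.adjoint_inner_right]
      have h4 : adjoint C (C x) = x := congrArg (fun z : H →L[ℂ] H => z x) hCC
      rw [h4, inner_self_eq_norm_sq]
    rw [one_mul]
    exact ((pow_left_inj₀ (norm_nonneg _) (norm_nonneg _) two_ne_zero).1 h3).le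
  have hκn : ∀ w, ‖κ w‖ ≤ ‖w‖ := by
    intro w
    have h2 : ‖adjoint C‖ ≤ 1 := by rw [LinearIsometryEquiv.norm_map]; exact hCn
    have h3 : ‖w ∘L C‖ ≤ ‖w‖ * 1 := (ContinuousLinearMap.opNorm_comp_le _ _).trans
      (mul_le_mul_of_nonneg_left hCn (norm_nonneg _))
    have h4 : ‖κ w‖ ≤ 1 * (‖w‖ * 1) := (ContinuousLinearMap.opNorm_comp_le _ _).trans
      (mul_le_mul h2 h3 (norm_nonneg _) zero_le_one)
    linarith
  have hκsub : ∀ w w', κ w - κ w' = κ (w - w') := by
    intro w w'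
    show adjoint C ∘L (w ∘L C) - adjoint C ∘L (w' ∘L C) = adjoint C ∘L ((w - w') ∘L C)
    rw [ContinuousLinearMap.sub_comp, ContinuousLinearMap.comp_sub]
  obtain ⟨s, hsd⟩ : ∃ s, s = star v * x := ⟨_, rfl⟩
  have hcs' : c * s = s := by rw [hsd, ← mul_assoc, hcvs]
  have hsc : s * c = s := by rw [hsd, mul_assoc, hx2]
  have hsn : ‖s - c‖ ≤ 41 * ε := by
    have e : s - c = star v * (x - v) := by rw [mul_sub, hvv, hsd]
    rw [e]
    exact scv_aux v (x - v) hvn hx4
  obtain ⟨φ, hφd⟩ : ∃ φ : G → L2m μ H →L[ℂ] L2m μ H, ∀ g, φ g = star x * lamK μ g * x :=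
    ⟨_, fun _ => rfl⟩
  have hcφ : ∀ g, c * φ g = φ g := by
    intro g
    rw [hφd, ← mul_assoc, ← mul_assoc, hcxs]
  have hφc : ∀ g, φ g * c = φ g := by
    intro g
    rw [hφd, mul_assoc, hx2]
  have hφs : ∀ g, star (φ g) = φ g⁻¹ := by
    intro g
    rw [hφd, hφd, star_mul, star_mul, star_star, lamK_star, mul_assoc]
  have hsφ : ∀ g, s * φ g = piK μ (U g : H →L[ℂ] H) * s := by
    intro g
    calc s * φ g = star v * (x * star x) * lamK μ g * x := by rw [hsd, hφd]; noncomm_ring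
      _ = star v * (f * lamK μ g) * x := by rw [hx3]; noncomm_ring
      _ = (star v * lamK μ g) * (f * x) := by rw [← hlf]; noncomm_ring
      _ = piK μ (U g : H →L[ℂ] H) * s := by rw [hfx, hvsl, hsd, mul_assoc]
  have hφp : ∀ g, ∀ T ∈ N.commutant, φ g * piK μ T = piK μ T * φ g := by
    intro g T hT
    calc φ g * piK μ T = star x * lamK μ g * (x * piK μ T) := by rw [hφd, mul_assoc]
      _ = star x * (lamK μ g * piK μ T) * x := by rw [← hpx T hT]; noncomm_ring
      _ = (star x * piK μ T) * lamK μ g * x := by rw [lamK_piK]; noncomm_ring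
      _ = piK μ T * φ g := by rw [← hpxs T hT, hφd]; noncomm_ring
  obtain ⟨S, hSd⟩ : ∃ S, S = κ s := ⟨_, rfl⟩
  obtain ⟨Φ, hΦd⟩ : ∃ Φ : G → H →L[ℂ] H, ∀ g, Φ g = κ (φ g) := ⟨_, fun _ => rfl⟩
  have hSΦ : ∀ g, S * Φ g = (U g : H →L[ℂ] H) * S := by
    intro g
    rw [hSd, hΦd, ← hκ1 s _ hsc, hsφ, hκ2 _ s hcs', hκp]
  have hΦs : ∀ g, star (Φ g) = Φ g⁻¹ := by
    intro g
    rw [hΦd, hΦd, hκs, hφs]
  have hΦN : ∀ g, Φ g ∈ N := by
    intro g
    rw [← VonNeumannAlgebra.commutant_commutant N, VonNeumannAlgebra.mem_commutant_iff]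
    intro T hT
    have h1 := congrArg κ (hφp g T hT)
    rw [hκ1 _ _ (hφc g), hκ2 _ _ (hcφ g), hκp] at h1
    rw [hΦd]
    exact h1.symm
  have hSn : ‖S - 1‖ ≤ 41 * ε := by
    rw [hSd, ← hκc, hκsub]
    exact (hκn _).trans hsn
  have hSz : ∀ z ∈ N.commutant, (∀ g, z * (U g : H →L[ℂ] H) = (U g : H →L[ℂ] H) * z) →
      z * S = S * z := by
    intro z hz hzU
    have hzs : ∀ g, star z * (U g : H →L[ℂ] H) = (U g : H →L[ℂ] H) * star z := by
      intro g
      have := congrArg star (hzU g⁻¹)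
      rw [star_mul, star_mul, hUs, inv_inv] at this
      exact this.symm
    have h1 : piK μ (star z) * v = v * piK μ (star z) := by
      show piK μ (star z) ∘L (V ∘L adjoint C) = (V ∘L adjoint C) ∘L piK μ (star z)
      rw [← ContinuousLinearMap.comp_assoc, hpV0 _ hzs, ContinuousLinearMap.comp_assoc,
        ContinuousLinearMap.comp_assoc, hTC]
    have h2 : piK μ z * star v = star v * piK μ z := by
      have := congrArg star h1
      rw [star_mul, star_mul, ← map_star, star_star] at this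
      exact this.symm
    have h3 : piK μ z * s = s * piK μ z := by
      rw [hsd, ← mul_assoc, h2, mul_assoc, hpx z hz, mul_assoc]
    have h4 := congrArg κ h3
    rw [hκ2 _ _ hcs', hκ1 _ _ hsc, hκp] at h4
    rw [hSd]
    exact h4
  exact finish N G U γ ε hεd hε1 hUs S Φ hSΦ hΦs hΦN hSn hSz

end Pool.Agent.Q141.CC
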