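import Mathlib

/-!
Unitary representations from families of vectors with an invariant Gram matrix.
-/

set_option autoImplicit false
set_option linter.unusedSectionVars false

open scoped InnerProductSpace

namespace Pool.Agent.Q141.CC

universe u v w

variable {H : Type u} [NormedAddCommGroup H] [InnerProductSpace ℂ H] [CompleteSpace H]

section rep

variable {S : Type v} (v : S → H)

/-- the closed span -/
noncomputable abbrev KK : Submodule ℂ H := (Submodule.span ℂ (Set.range v)).topologicalClosure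

theorem mem_KK (s : S) : v s ∈ KK v :=
  Submodule.le_topologicalClosure _ (Submodule.subset_span ⟨s, rfl⟩)

/-- finite sums of the vectors plus vectors of the complement -/
noncomputable def eMap : (S →₀ ℂ) × ((KK v)ᗮ : Submodule ℂ H) →ₗ[ℂ] H :=
  (Finsupp.linearCombination ℂ v).coprod ((KK v)ᗮ).subtype

theorem eMap_dense : DenseRange (eMap v) := by
  have h1 : Dense ((LinearMap.range (eMap v) : Submodule ℂ H) : Set H) := by
    rw [Submodule.dense_iff_topologicalClosure_eq_top]
    have h2 : KK v ≤ (LinearMap.range (eMap v)).topologicalClosure := by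
      apply Submodule.topologicalClosure_mono
      rw [Submodule.span_le]
      rintro _ ⟨s, rfl⟩
      exact ⟨(Finsupp.single s 1, 0), by simp [eMap]⟩
    have h3 : (KK v)ᗮ ≤ (LinearMap.range (eMap v)).topologicalClosure := by
      refine le_trans ?_ (Submodule.le_topologicalClosure _)
      intro y hy
      exact ⟨(0, ⟨y, hy⟩), by simp [eMap]⟩
    have h4 : KK v ⊔ (KK v)ᗮ = ⊤ := Submodule.sup_orthogonal_of_hasOrthogonalProjection
    rw [eq_top_iff, ← h4]
    exact sup_le h2 h3
  exact h1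

theorem inner_comb (a b : S →₀ ℂ) (w : S → H) :
    ⟪Finsupp.linearCombination ℂ w a, Finsupp.linearCombination ℂ w b⟫_ℂ =
      a.sum fun s c => b.sum fun t d => (starRingEnd ℂ) c * d * ⟪w s, w t⟫_ℂ := by
  rw [Finsupp.linearCombination_apply, Finsupp.linearCombination_apply, Finsupp.sum_inner]
  congr 1
  funext s c
  rw [Finsupp.inner_sum]
  congr 1
  funext t d
  rw [inner_smul_left, inner_smul_right]
  ring

/-- two families with the same Gram matrix -/
theorem norm_comb_eq (w : S → H) (h : ∀ s t, ⟪w s, w t⟫_ℂ = ⟪v s, v t⟫_ℂ) (a : S →₀ ℂ) :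
    ‖Finsupp.linearCombination ℂ w a‖ = ‖Finsupp.linearCombination ℂ v a‖ := by
  have h1 : ‖Finsupp.linearCombination ℂ w a‖ ^ 2 = ‖Finsupp.linearCombination ℂ v a‖ ^ 2 := by
    rw [← inner_self_eq_norm_sq (𝕜 := ℂ) (Finsupp.linearCombination ℂ w a),
      ← inner_self_eq_norm_sq (𝕜 := ℂ) (Finsupp.linearCombination ℂ v a), inner_comb, inner_comb]
    simp only [h]
  exact (pow_left_inj₀ (norm_nonneg _) (norm_nonneg _) two_ne_zero).1 h1

theorem norm_add_sq_orth (x y : H) (h : ⟪x, y⟫_ℂ = 0) : ‖x + y‖ ^ 2 = ‖x‖ ^ 2 + ‖y‖ ^ 2 := by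
  rw [sq, sq, sq]
  exact norm_add_sq_eq_norm_sq_add_norm_sq_of_inner_eq_zero x y h

theorem comb_mem (w : S → H) (hw : ∀ s, w s ∈ KK v) (a : S →₀ ℂ) :
    Finsupp.linearCombination ℂ w a ∈ KK v := by
  rw [Finsupp.linearCombination_apply]
  exact Submodule.sum_mem _ fun s _ => Submodule.smul_mem _ _ (hw s)

/-- A contraction sending `v s` to `w s` and fixing the complement. -/
theorem exists_contr (w : S → H) (hw : ∀ s, w s ∈ KK v)
    (h : ∀ s t, ⟪w s, w t⟫_ℂ = ⟪v s, v t⟫_ℂ) :
    ∃ B : H →L[ℂ] H, (∀ s, B (v s) = w s) ∧ (∀ y, (∀ s, ⟪v s, y⟫_ℂ = 0) → B y = y) ∧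
      ∀ x, ‖B x‖ ≤ ‖x‖ := by
  let f : (S →₀ ℂ) × ((KK v)ᗮ : Submodule ℂ H) →ₗ[ℂ] H :=
    (Finsupp.linearCombination ℂ w).coprod ((KK v)ᗮ).subtype
  have hn : ∀ x, ‖f x‖ ≤ 1 * ‖eMap v x‖ := by
    rintro ⟨a, y⟩
    rw [one_mul]
    have e1 : f (a, y) = Finsupp.linearCombination ℂ w a + (y : H) := by simp [f]
    have e2 : eMap v (a, y) = Finsupp.linearCombination ℂ v a + (y : H) := by simp [eMap]
    have h1 : ‖f (a, y)‖ ^ 2 = ‖eMap v (a, y)‖ ^ 2 := by
      rw [e1, e2, norm_add_sq_orth, norm_add_sq_orth, norm_comb_eq v w h]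
      · exact Submodule.inner_right_of_mem_orthogonal (comb_mem v v (mem_KK v) a) y.2
      · exact Submodule.inner_right_of_mem_orthogonal (comb_mem v w hw a) y.2
    exact ((pow_left_inj₀ (norm_nonneg _) (norm_nonneg _) two_ne_zero).1 h1).le
  have hd := eMap_dense v
  refine ⟨f.extendOfNorm (eMap v), ?_, ?_, ?_⟩
  · intro s
    have h1 := LinearMap.extendOfNorm_eq hd ⟨1, hn⟩ ((Finsupp.single s 1, 0) :
      (S →₀ ℂ) × ((KK v)ᗮ : Submodule ℂ H))
    have e1 : eMap v (Finsupp.single s 1, 0) = v s := by simp [eMap]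
    have e2 : f (Finsupp.single s 1, 0) = w s := by simp [f]
    rwa [e1, e2] at h1
  · intro y hy
    have hy' : y ∈ (KK v)ᗮ := by
      rw [Submodule.orthogonal_closure]
      rw [Submodule.mem_orthogonal]
      intro z hz
      induction hz using Submodule.span_induction with
      | mem z hz =>
        obtain ⟨s, rfl⟩ := hz
        exact hy s
      | zero => exact inner_zero_left _
      | add a b _ _ ha hb => rw [inner_add_left, ha, hb, add_zero]
      | smul c a _ ha => rw [inner_smul_left, ha, mul_zero]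
    have h1 := LinearMap.extendOfNorm_eq hd ⟨1, hn⟩ ((0, ⟨y, hy'⟩) :
      (S →₀ ℂ) × ((KK v)ᗮ : Submodule ℂ H))
    have e1 : eMap v (0, ⟨y, hy'⟩) = y := by simp [eMap]
    have e2 : f (0, ⟨y, hy'⟩) = y := by simp [f]
    rwa [e1, e2] at h1
  · intro x
    have := LinearMap.norm_extendOfNorm_apply_le hd 1 hn x
    rwa [one_mul] at this

theorem orth_iff (y : H) : y ∈ (KK v)ᗮ ↔ ∀ s, ⟪v s, y⟫_ℂ = 0 := by
  constructor
  · intro hy s
    exact Submodule.inner_right_of_mem_orthogonal (mem_KK v s) hy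
  · intro hy
    rw [Submodule.orthogonal_closure, Submodule.mem_orthogonal]
    intro z hz
    induction hz using Submodule.span_induction with
    | mem z hz =>
      obtain ⟨s, rfl⟩ := hz
      exact hy s
    | zero => exact inner_zero_left _
    | add a b _ _ ha hb => rw [inner_add_left, ha, hb, add_zero]
    | smul c a _ ha => rw [inner_smul_left, ha, mul_zero]

/-- Two operators that agree on the vectors `v s` and on the complement are equal. -/
theorem op_ext {A B : H →L[ℂ] H} (h1 : ∀ s, A (v s) = B (v s))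
    (h2 : ∀ y, (∀ s, ⟪v s, y⟫_ℂ = 0) → A y = B y) : A = B := by
  ext x
  refine (eMap_dense v).induction (P := fun x => A x = B x) ?_ (isClosed_eq A.continuous B.continuous) x
  rintro _ ⟨⟨a, y⟩, rfl⟩
  have e2 : eMap v (a, y) = Finsupp.linearCombination ℂ v a + (y : H) := by simp [eMap]
  rw [e2, map_add, map_add, h2 y ((orth_iff v y).1 y.2)]
  congr 1
  rw [Finsupp.linearCombination_apply]
  simp only [Finsupp.sum, map_sum, map_smul, h1]

/-- A group acting on the index set and preserving the Gram matrix is represented by unitaries. -/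
theorem exists_rep (G : Type w) [Group G] (act : G → S → S) (hone : ∀ s, act 1 s = s)
    (hmul : ∀ g h s, act (g * h) s = act g (act h s))
    (hG : ∀ g s t, ⟪v (act g s), v (act g t)⟫_ℂ = ⟪v s, v t⟫_ℂ) :
    ∃ B : G →* unitary (H →L[ℂ] H), (∀ g s, (B g : H →L[ℂ] H) (v s) = v (act g s)) ∧
      ∀ g y, (∀ s, ⟪v s, y⟫_ℂ = 0) → (B g : H →L[ℂ] H) y = y := by
  choose B hB1 hB2 hB3 using fun g => exists_contr v (fun s => v (act g s)) (fun s => mem_KK v _)
    (hG g)
  have hBo : B 1 = 1 := op_ext v (fun s => by rw [hB1, hone]; rfl) (fun y hy => hB2 1 y hy)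
  have hBm : ∀ g h, B (g * h) = B g * B h := by
    intro g h
    refine op_ext v (fun s => ?_) (fun y hy => ?_)
    · rw [hB1, hmul]
      show _ = B g (B h (v s))
      rw [hB1, hB1]
    · rw [hB2 _ y hy]
      show _ = B g (B h y)
      rw [hB2 _ y hy, hB2 _ y hy]
  have hinv : ∀ g, B g⁻¹ * B g = 1 := fun g => by rw [← hBm, inv_mul_cancel, hBo]
  have hiso : ∀ g x, ‖B g x‖ = ‖x‖ := by
    intro g x
    refine le_antisymm (hB3 g x) ?_
    have h1 : B g⁻¹ (B g x) = x := congrArg (fun z : H →L[ℂ] H => z x) (hinv g)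
    conv_lhs => rw [← h1]
    exact hB3 _ _
  have hs1 : ∀ g, star (B g) * B g = 1 := by
    intro g
    rw [ContinuousLinearMap.star_eq_adjoint]
    exact (ContinuousLinearMap.norm_map_iff_adjoint_comp_self (B g)).1 (hiso g)
  have hs2 : ∀ g, star (B g) = B g⁻¹ := by
    intro g
    calc star (B g) = star (B g) * (B g * B g⁻¹) := by
          rw [← hBm, mul_inv_cancel, hBo, mul_one]
      _ = B g⁻¹ := by rw [← mul_assoc, hs1, one_mul]
  have hu : ∀ g, B g ∈ unitary (H →L[ℂ] H) := by
    intro g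
    rw [Unitary.mem_iff]
    exact ⟨hs1 g, by rw [hs2, ← hBm, mul_inv_cancel, hBo]⟩
  refine ⟨{ toFun := fun g => ⟨B g, hu g⟩
            map_one' := Subtype.ext hBo
            map_mul' := fun g h => Subtype.ext (hBm g h) }, ?_, ?_⟩
  · intro g s
    exact hB1 g s
  · intro g y hy
    exact hB2 g y hy

end rep

end Pool.Agent.Q141.CC
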