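import Mathlib
import Pool.Agent.Helper278.GroupMain
import Pool.Agent.Q141.CC.Mean
import Pool.Agent.Q141.CC.Pol
import Pool.Agent.Q141.CC.Abs

/-!
Conjugates of von Neumann algebras, near inclusions, unitary groups of masas.
-/

set_option autoImplicit false
set_option linter.unusedSectionVars false
set_option linter.unusedVariables false

open scoped InnerProductSpace

namespace Pool.Agent.Q141.CC

universe u

variable {H : Type u} [NormedAddCommGroup H] [InnerProductSpace ℂ H] [CompleteSpace H]

/-- Every element of the unit ball of `M` is within `γ` of an element of `N`. -/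
def NearIn (M N : VonNeumannAlgebra H) (γ : ℝ) : Prop :=
  ∀ x ∈ M, ‖x‖ ≤ 1 → ∃ y ∈ N, ‖x - y‖ ≤ γ

theorem mem_of_comm (N : VonNeumannAlgebra H) (x : H →L[ℂ] H)
    (h : ∀ t ∈ N.commutant, t * x = x * t) : x ∈ N := by
  rw [← VonNeumannAlgebra.commutant_commutant N, VonNeumannAlgebra.mem_commutant_iff]
  exact h

theorem comm_of_mem {N : VonNeumannAlgebra H} {x t : H →L[ℂ] H} (hx : x ∈ N)
    (ht : t ∈ N.commutant) : x * t = t * x :=
  VonNeumannAlgebra.mem_commutant_iff.1 ht x hx

theorem smul_mem_vN {N : VonNeumannAlgebra H} {x : H →L[ℂ] H} (hx : x ∈ N) (c : ℂ) :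
    c • x ∈ N :=
  N.toStarSubalgebra.smul_mem hx c

/-- The conjugate `u N u*`. -/
noncomputable def cjN (N : VonNeumannAlgebra H) (u : H →L[ℂ] H) (h1 : star u * u = 1)
    (h2 : u * star u = 1) : VonNeumannAlgebra H where
  carrier := {x | star u * x * u ∈ N}
  mul_mem' := by
    intro a b ha hb
    have : star u * (a * b) * u = (star u * a * u) * (star u * b * u) := by
      calc star u * (a * b) * u = star u * a * 1 * b * u := by noncomm_ring
        _ = (star u * a * u) * (star u * b * u) := by rw [← h2]; noncomm_ring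
    show star u * (a * b) * u ∈ N
    rw [this]
    exact mul_mem ha hb
  one_mem' := by
    show star u * 1 * u ∈ N
    rw [mul_one, h1]
    exact one_mem N
  add_mem' := by
    intro a b ha hb
    show star u * (a + b) * u ∈ N
    rw [mul_add, add_mul]
    exact add_mem ha hb
  zero_mem' := by
    show star u * 0 * u ∈ N
    rw [mul_zero, zero_mul]
    exact zero_mem N
  algebraMap_mem' := by
    intro c
    show star u * (algebraMap ℂ (H →L[ℂ] H) c) * u ∈ N
    rw [Algebra.algebraMap_eq_smul_one, mul_smul_comm, smul_mul_assoc, mul_one, h1]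
    exact smul_mem_vN (one_mem N) c
  star_mem' := by
    intro a ha
    show star u * star a * u ∈ N
    have := star_mem (S := VonNeumannAlgebra H) ha
    rw [star_mul, star_mul, star_star, ← mul_assoc] at this
    exact this
  centralizer_centralizer' := by
    refine Set.Subset.antisymm ?_ Set.subset_centralizer_centralizer
    intro x hx
    show star u * x * u ∈ N
    refine mem_of_comm N _ fun t ht => ?_
    have h3 : u * t * star u ∈ Set.centralizer {x : H →L[ℂ] H | star u * x * u ∈ N} := by
      intro y hy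
      have h4 := comm_of_mem (show star u * y * u ∈ N from hy) ht
      calc y * (u * t * star u) = (u * star u) * y * (u * t * star u) := by rw [h2, one_mul]
        _ = u * ((star u * y * u) * t) * star u := by noncomm_ring
        _ = u * (t * (star u * y * u)) * star u := by rw [h4]
        _ = (u * t * star u) * y * (u * star u) := by noncomm_ring
        _ = (u * t * star u) * y := by rw [h2, mul_one]
    have h5 := hx _ h3
    calc t * (star u * x * u) = (star u * u) * t * (star u * x * u) := by rw [h1, one_mul]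
      _ = star u * ((u * t * star u) * x) * u := by noncomm_ring
      _ = star u * (x * (u * t * star u)) * u := by rw [h5]
      _ = (star u * x * u) * t * (star u * u) := by noncomm_ring
      _ = (star u * x * u) * t := by rw [h1, mul_one]

theorem mem_cjN {N : VonNeumannAlgebra H} {u : H →L[ℂ] H} {h1 : star u * u = 1}
    {h2 : u * star u = 1} {x : H →L[ℂ] H} : x ∈ cjN N u h1 h2 ↔ star u * x * u ∈ N := Iff.rfl

theorem cjN_commutant {N : VonNeumannAlgebra H} {u : H →L[ℂ] H} {h1 : star u * u = 1}
    {h2 : u * star u = 1} {t : H →L[ℂ] H} (ht : star u * t * u ∈ N.commutant) :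
    t ∈ (cjN N u h1 h2).commutant := by
  rw [VonNeumannAlgebra.mem_commutant_iff]
  intro y hy
  have h4 := comm_of_mem (mem_cjN.1 hy) ht
  calc y * t = (u * star u) * y * (u * star u) * t * (u * star u) := by
        rw [h2, one_mul, mul_one, mul_one]
    _ = u * ((star u * y * u) * (star u * t * u)) * star u := by noncomm_ring
    _ = u * ((star u * t * u) * (star u * y * u)) * star u := by rw [h4]
    _ = (u * star u) * t * (u * star u) * y * (u * star u) := by noncomm_ring
    _ = t * y := by rw [h2, one_mul, mul_one, mul_one]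

theorem norm_unitary_le {u : H →L[ℂ] H} (h1 : star u * u = 1) : ‖u‖ ≤ 1 :=
  norm_le_one_of_star_mul_proj (star_one _) (one_mul 1) h1

theorem norm_conj_sub_le {u : H →L[ℂ] H} (h1 : star u * u = 1) (h2 : u * star u = 1) {η : ℝ}
    (hu : ‖u - 1‖ ≤ η) (y : H →L[ℂ] H) : ‖u * y * star u - y‖ ≤ 2 * η * ‖y‖ := by
  have e : u * y * star u - y = (u - 1) * y * star u - y * (u - 1) * star u := by
    have : y * (u - 1) * star u = y * (u * star u) - y * star u := by noncomm_ring
    rw [this, h2]
    noncomm_ring
  have hn := norm_unitary_le (u := star u) (by rw [star_star]; exact h2)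
  have hη : 0 ≤ η := (norm_nonneg _).trans hu
  rw [e]
  refine (norm_sub_le _ _).trans ?_
  have h3 : ‖(u - 1) * y * star u‖ ≤ η * ‖y‖ * 1 :=
    (norm_mul_le _ _).trans (mul_le_mul ((norm_mul_le _ _).trans
      (mul_le_mul_of_nonneg_right hu (norm_nonneg _))) hn (norm_nonneg _) (by positivity))
  have h4 : ‖y * (u - 1) * star u‖ ≤ ‖y‖ * η * 1 :=
    (norm_mul_le _ _).trans (mul_le_mul ((norm_mul_le _ _).trans
      (mul_le_mul_of_nonneg_left hu (norm_nonneg _))) hn (norm_nonneg _) (by positivity))
  linarith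

/-- near inclusion into the conjugate -/
theorem nearIn_cjN {M N : VonNeumannAlgebra H} {γ η : ℝ} (h : NearIn M N γ) (hγ : γ ≤ 1)
    {u : H →L[ℂ] H} (h1 : star u * u = 1) (h2 : u * star u = 1) (hu : ‖u - 1‖ ≤ η) :
    NearIn M (cjN N u h1 h2) (γ + 4 * η) := by
  intro x hx hx1
  obtain ⟨y, hy, hxy⟩ := h x hx hx1
  have hη : 0 ≤ η := (norm_nonneg _).trans hu
  refine ⟨u * y * star u, ?_, ?_⟩
  · rw [mem_cjN]
    have : star u * (u * y * star u) * u = y := by
      calc star u * (u * y * star u) * u = (star u * u) * y * (star u * u) := by noncomm_ring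
        _ = y := by rw [h1, one_mul, mul_one]
    rwa [this]
  · have hyn : ‖y‖ ≤ 2 := by
      have : y = x - (x - y) := by abel
      rw [this]
      exact (norm_sub_le _ _).trans (by linarith)
    have e : x - u * y * star u = (x - y) - (u * y * star u - y) := by abel
    rw [e]
    refine (norm_sub_le _ _).trans ?_
    have := norm_conj_sub_le h1 h2 hu y
    nlinarith

/-- near inclusion of the conjugate -/
theorem cjN_nearIn {M N : VonNeumannAlgebra H} {γ η : ℝ} (h : NearIn N M γ)
    {u : H →L[ℂ] H} (h1 : star u * u = 1) (h2 : u * star u = 1) (hu : ‖u - 1‖ ≤ η) :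
    NearIn (cjN N u h1 h2) M (γ + 4 * η) := by
  intro x hx hx1
  have hη : 0 ≤ η := (norm_nonneg _).trans hu
  have hn := norm_unitary_le h1
  have hns := norm_unitary_le (u := star u) (by rw [star_star]; exact h2)
  have hx2 : ‖star u * x * u‖ ≤ 1 := by
    have : ‖star u * x * u‖ ≤ (1 * 1) * 1 :=
      (norm_mul_le _ _).trans (mul_le_mul ((norm_mul_le _ _).trans
        (mul_le_mul hns hx1 (norm_nonneg _) zero_le_one)) hn (norm_nonneg _) (by norm_num))
    linarith
  obtain ⟨y, hy, hxy⟩ := h _ (mem_cjN.1 hx) hx2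
  refine ⟨y, hy, ?_⟩
  have h3 := norm_conj_sub_le h1 h2 hu (star u * x * u)
  have e1 : u * (star u * x * u) * star u = x := by
    calc u * (star u * x * u) * star u = (u * star u) * x * (u * star u) := by noncomm_ring
      _ = x := by rw [h2, one_mul, mul_one]
  rw [e1] at h3
  have e : x - y = (x - star u * x * u) + (star u * x * u - y) := by abel
  rw [e]
  refine (norm_add_le _ _).trans ?_
  nlinarith [norm_nonneg (star u * x * u)]

/-! ### unitaries of an abelian subalgebra -/

/-- the unitaries of a subalgebra -/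
noncomputable def UD (D : StarSubalgebra ℂ (H →L[ℂ] H)) : Subgroup (unitary (H →L[ℂ] H)) where
  carrier := {g | (g : H →L[ℂ] H) ∈ D}
  mul_mem' := fun {a b} ha hb => D.mul_mem ha hb
  one_mem' := D.one_mem
  inv_mem' := fun {a} ha => D.star_mem' ha

/-- The unitary group of an abelian subalgebra is commutative. -/
@[reducible]
noncomputable def UDcomm (D : StarSubalgebra ℂ (H →L[ℂ] H)) (hD : ∀ x ∈ D, ∀ y ∈ D, x * y = y * x) :
    CommGroup (UD D) :=
  { (inferInstance : Group (UD D)) with
    mul_comm := fun a b => Subtype.ext (Subtype.ext (hD _ a.2 _ b.2)) }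

theorem span_UD (D : StarSubalgebra ℂ (H →L[ℂ] H)) (hDc : IsClosed (D : Set (H →L[ℂ] H)))
    (P : Submodule ℂ (H →L[ℂ] H)) (hP : ∀ g : UD D, ((g : unitary (H →L[ℂ] H)) : H →L[ℂ] H) ∈ P) :
    ∀ x ∈ D, x ∈ P := by
  have : IsClosed (D : Set (H →L[ℂ] H)) := hDc
  intro x hx
  have h1 : (⟨x, hx⟩ : D) ∈ Submodule.span ℂ (unitary D : Set D) := by
    rw [CStarAlgebra.span_unitary]
    exact Submodule.mem_top
  have h2 : ∀ z : D, z ∈ Submodule.span ℂ (unitary D : Set D) → (z : H →L[ℂ] H) ∈ P := by
    intro z hz
    induction hz using Submodule.span_induction with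
    | mem z hz =>
      have hz' : (z : H →L[ℂ] H) ∈ unitary (H →L[ℂ] H) := by
        have h3 := Unitary.mem_iff.1 hz
        rw [Unitary.mem_iff]
        exact ⟨congrArg Subtype.val h3.1, congrArg Subtype.val h3.2⟩
      exact hP ⟨⟨z, hz'⟩, z.2⟩
    | zero => exact P.zero_mem
    | add a b _ _ ha hb => exact P.add_mem ha hb
    | smul c a _ ha => exact P.smul_mem c ha
  exact h2 _ h1

theorem isClosed_masa {M : VonNeumannAlgebra H} {D : StarSubalgebra ℂ (H →L[ℂ] H)}
    (hD : Helper278.IsMasa M D) : IsClosed (D : Set (H →L[ℂ] H)) := by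
  have h1 : (D : Set (H →L[ℂ] H)) = (M : Set (H →L[ℂ] H)) ∩ Set.centralizer (D : Set (H →L[ℂ] H)) := by
    ext x
    constructor
    · intro hx
      exact ⟨hD.le x hx, fun y hy => hD.comm y hy x hx⟩
    · rintro ⟨h1, h2⟩
      exact hD.max x h1 fun y hy => (h2 y hy).symm
  rw [h1]
  refine IsClosed.inter ?_ (Set.isClosed_centralizer _)
  rw [← VonNeumannAlgebra.centralizer_centralizer M]
  exact Set.isClosed_centralizer _

end Pool.Agent.Q141.CC
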