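import Mathlib
import Pool.Agent.Q141.CC.Vn

/-!
Traces of close von Neumann algebras agree on a common masa.
-/

set_option autoImplicit false
set_option linter.unusedSectionVars false
set_option linter.unusedVariables false

open scoped InnerProductSpace ComplexOrder
open Pool.Agent.Helper278 (Elt TracialState HasTrivialCenter IsDiffuse IsMasa nfun WotCont)

namespace Pool.Agent.Q141.CC

universe u

variable {H : Type u} [NormedAddCommGroup H] [InnerProductSpace ℂ H] [CompleteSpace H]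

/-- the normal functional of a sequence of vectors -/
noncomputable def tr (ζ : ℕ → H) (X : H →L[ℂ] H) : ℂ := ∑' k, ⟪ζ k, X (ζ k)⟫_ℂ

/-- `tr ζ` is a tracial state on `N`. -/
structure TrVec (N : VonNeumannAlgebra H) (ζ : ℕ → H) : Prop where
  summable : Summable (fun k => ‖ζ k‖ ^ 2)
  one : tr ζ 1 = 1
  tracial : ∀ x ∈ N, ∀ y ∈ N, tr ζ (x * y) = tr ζ (y * x)

theorem tr_eq (ζ : ℕ → H) (hζ : Summable (fun k => ‖ζ k‖ ^ 2)) (X : H →L[ℂ] H) :
    tr ζ X = nfun ζ ζ hζ hζ X := rfl

theorem tr_add {ζ : ℕ → H} (hζ : Summable (fun k => ‖ζ k‖ ^ 2)) (X Y : H →L[ℂ] H) :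
    tr ζ (X + Y) = tr ζ X + tr ζ Y := by
  rw [tr_eq ζ hζ, map_add]; rfl

theorem tr_sub {ζ : ℕ → H} (hζ : Summable (fun k => ‖ζ k‖ ^ 2)) (X Y : H →L[ℂ] H) :
    tr ζ (X - Y) = tr ζ X - tr ζ Y := by
  rw [tr_eq ζ hζ, map_sub]; rfl

theorem tr_smul {ζ : ℕ → H} (hζ : Summable (fun k => ‖ζ k‖ ^ 2)) (c : ℂ) (X : H →L[ℂ] H) :
    tr ζ (c • X) = c * tr ζ X := by
  rw [tr_eq ζ hζ, map_smul]; rfl

/-- transporting a partial isometry to a nearby algebra -/
theorem partial_near {B : Type*} [CStarAlgebra B] (e f v w0 : B) (γ : ℝ) (he : star e = e)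
    (hee : e * e = e) (hf : star f = f) (hff : f * f = f) (hv1 : star v * v = e)
    (hv2 : v * star v = f) (hfw : f * w0 = w0) (hwe : w0 * e = w0) (hw : ‖w0 - v‖ ≤ γ)
    (hγ : γ ≤ 1 / 10) :
    ∃ r : B, star (w0 * r) * (w0 * r) = e ∧ (w0 * r) * star (w0 * r) = f ∧
      ∀ z, z * (star w0 * w0 + (1 - e)) = (star w0 * w0 + (1 - e)) * z → z * r = r * z := by
  have hγ0 : 0 ≤ γ := (norm_nonneg _).trans hw
  have hvn : ‖v‖ ≤ 1 := norm_le_one_of_star_mul_proj he hee hv1
  have hwn : ‖w0‖ ≤ 1 + γ := by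
    have : w0 = v + (w0 - v) := by abel
    rw [this]
    exact (norm_add_le _ _).trans (by linarith)
  obtain ⟨b, hb⟩ : ∃ b : B, b = star w0 * w0 + (1 - e) := ⟨_, rfl⟩
  have hbs : star b = b := by rw [hb, star_add, star_mul, star_star, star_sub, star_one, he]
  have hb1 : ‖b - 1‖ ≤ 21 / 10 * γ := by
    have e1 : b - 1 = star w0 * (w0 - v) + star (w0 - v) * v := by
      rw [hb, star_sub, sub_mul, mul_sub, hv1]
      abel
    rw [e1]
    refine (norm_add_le _ _).trans ?_
    have h1 : ‖star w0 * (w0 - v)‖ ≤ (1 + γ) * γ := by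
      refine (norm_mul_le _ _).trans ?_
      rw [norm_star]
      exact mul_le_mul hwn hw (norm_nonneg _) (by linarith)
    have h2 : ‖star (w0 - v) * v‖ ≤ γ * 1 := by
      refine (norm_mul_le _ _).trans ?_
      rw [norm_star]
      exact mul_le_mul hw hvn (norm_nonneg _) hγ0
    nlinarith
  obtain ⟨r, hr1, hr2, hr3, hr4⟩ := exists_rsq b hbs (by linarith)
  have hr3' : ‖r - 1‖ ≤ 21 / 10 * γ := hr3.trans hb1
  have hew : e * star w0 = star w0 := by
    have := congrArg star hwe
    rwa [star_mul, he] at this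
  have heb : e * b = b * e := by
    rw [hb, mul_add, add_mul, ← mul_assoc, hew, mul_assoc, hwe]
    noncomm_ring
  have her : e * r = r * e := hr4 e heb
  have h1eb : (1 - e) * b = 1 - e := by
    rw [hb, sub_mul, one_mul, mul_add, ← mul_assoc, hew, mul_sub, mul_one, hee]
    abel
  have h1er : r * (1 - e) * r = 1 - e := by
    have hrc : r * (1 - e) = (1 - e) * r := by rw [mul_sub, sub_mul, her, mul_one, one_mul]
    calc r * (1 - e) * r = r * ((1 - e) * b) * r := by rw [h1eb]
      _ = (r * (1 - e)) * b * r := by noncomm_ring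
      _ = (1 - e) * (r * b * r) := by rw [hrc]; noncomm_ring
      _ = 1 - e := by rw [hr2, mul_one]
  obtain ⟨w, hwd⟩ : ∃ w : B, w = w0 * r := ⟨_, rfl⟩
  have hww : star w * w = e := by
    calc star w * w = r * (star w0 * w0) * r := by rw [hwd, star_mul, hr1]; noncomm_ring
      _ = r * (b - (1 - e)) * r := by rw [hb]; congr 2; abel
      _ = r * b * r - r * (1 - e) * r := by noncomm_ring
      _ = e := by rw [hr2, h1er]; abel
  have hwe' : w * e = w := by rw [hwd, mul_assoc, ← her, ← mul_assoc, hwe]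
  have hfw' : f * w = w := by rw [hwd, ← mul_assoc, hfw]
  have hwv : ‖w - v‖ ≤ 4 * γ := by
    have e1 : w - v = w0 * (r - 1) + (w0 - v) := by rw [hwd]; noncomm_ring
    rw [e1]
    refine (norm_add_le _ _).trans ?_
    have h1 : ‖w0 * (r - 1)‖ ≤ (1 + γ) * (21 / 10 * γ) :=
      (norm_mul_le _ _).trans (mul_le_mul hwn hr3' (norm_nonneg _) (by linarith))
    nlinarith
  have hwn1 : ‖w‖ ≤ 1 := norm_le_one_of_star_mul_proj he hee hww
  refine ⟨r, by rw [← hwd]; exact hww, ?_, ?_⟩
  · rw [← hwd]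
    symm
    refine proj_eq (w * star w) f (by rw [star_mul, star_star]) ?_ hf hff ?_ ?_
    · calc w * star w * (w * star w) = w * (star w * w) * star w := by noncomm_ring
        _ = w * star w := by rw [hww, hwe']
    · rw [← mul_assoc, hfw']
    · have e1 : f - w * star w = -((w - v) * star w + v * star (w - v)) := by
        rw [star_sub, ← hv2]
        noncomm_ring
      rw [e1, norm_neg]
      refine (norm_add_le _ _).trans_lt ?_
      have h1 : ‖(w - v) * star w‖ ≤ (4 * γ) * 1 := by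
        refine (norm_mul_le _ _).trans ?_
        rw [norm_star]
        exact mul_le_mul hwv hwn1 (norm_nonneg _) (by linarith)
      have h2 : ‖v * star (w - v)‖ ≤ 1 * (4 * γ) := by
        refine (norm_mul_le _ _).trans ?_
        rw [norm_star]
        exact mul_le_mul hvn hwv (norm_nonneg _) zero_le_one
      linarith
  · intro z hz
    exact hr4 z (by rw [hb]; exact hz)

/-- Equivalent projections of `M` lying in `N` have equal traces in the nearby algebra `N`. -/
theorem tr_eq_of_equiv {M N : VonNeumannAlgebra H} {γ : ℝ} (hMN : NearIn M N γ) (hγ : γ ≤ 1 / 10)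
    {ζ : ℕ → H} (hζ : TrVec N ζ) (e f v : H →L[ℂ] H) (he : star e = e)
    (hee : e * e = e) (hf : star f = f) (hff : f * f = f) (hv1 : star v * v = e)
    (hv2 : v * star v = f) (heN : e ∈ N) (hfN : f ∈ N) (hvM : v ∈ M) : tr ζ e = tr ζ f := by
  have hvn : ‖v‖ ≤ 1 := norm_le_one_of_star_mul_proj he hee hv1
  have hve : v * e = v := by
    have h : star (v * e - v) * (v * e - v) = 0 := by
      rw [star_sub, star_mul, he]
      calc (e * star v - star v) * (v * e - v) =
          e * (star v * v) * e - e * (star v * v) - (star v * v) * e + star v * v := by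
            noncomm_ring
        _ = 0 := by rw [hv1, hee, hee]; abel
    exact sub_eq_zero.1 ((CStarRing.star_mul_self_eq_zero_iff _).1 h)
  have hfv : f * v = v := by rw [← hv2, mul_assoc, hv1, hve]
  obtain ⟨v', hv'N, hv'⟩ := hMN v hvM hvn
  have hen := norm_proj_le_one he hee
  have hfn := norm_proj_le_one hf hff
  obtain ⟨r, hr1, hr2, hr3⟩ := partial_near e f v (f * v' * e) γ he hee hf hff hv1 hv2
    (by rw [← mul_assoc, ← mul_assoc, hff]) (by rw [mul_assoc, hee]) (by
      have e1 : f * v' * e - v = f * (v' - v) * e := by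
        rw [mul_sub, sub_mul, hfv, hve]
      rw [e1]
      have : ‖v' - v‖ ≤ γ := by rw [norm_sub_rev]; exact hv'
      have h1 : ‖f * (v' - v) * e‖ ≤ (1 * γ) * 1 :=
        (norm_mul_le _ _).trans (mul_le_mul ((norm_mul_le _ _).trans
          (mul_le_mul hfn this (norm_nonneg _) zero_le_one)) hen (norm_nonneg _)
          (by have := (norm_nonneg _).trans hv'; linarith))
      linarith) hγ
  have hw0N : f * v' * e ∈ N := mul_mem (mul_mem hfN hv'N) heN
  have hrN : r ∈ N := by
    refine mem_of_comm N r fun t ht => hr3 t ?_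
    have h1 : star (f * v' * e) * (f * v' * e) + (1 - e) ∈ N :=
      add_mem (mul_mem (star_mem hw0N) hw0N) (sub_mem (one_mem N) heN)
    exact (comm_of_mem h1 ht).symm
  have hwN : f * v' * e * r ∈ N := mul_mem hw0N hrN
  calc tr ζ e = tr ζ (star (f * v' * e * r) * (f * v' * e * r)) := by rw [hr1]
    _ = tr ζ ((f * v' * e * r) * star (f * v' * e * r)) := hζ.tracial _ (star_mem hwN) _ hwN
    _ = tr ζ f := by rw [hr2]

section masa

variable {M N : VonNeumannAlgebra H} {γ : ℝ} {D : StarSubalgebra ℂ (H →L[ℂ] H)} {ξ ζ : ℕ → H}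

/-- Lyapunov's theorem in the masa for two normal functionals. -/
theorem lyap2 (hdiff : IsDiffuse M) (hD : IsMasa M D)
    (hξ : Summable (fun k => ‖ξ k‖ ^ 2)) (hζ : Summable (fun k => ‖ζ k‖ ^ 2))
    (x : H →L[ℂ] H) (hx : x ∈ D) (hx0 : 0 ≤ x) (hx1 : x ≤ 1) :
    ∃ p ∈ D, star p = p ∧ p * p = p ∧ tr ξ p = tr ξ x ∧ tr ζ p = tr ζ x := by
  have hinf := Helper278.masa_corner_infinite M (by
    intro r hr hrr hrs hr0
    exact hdiff r hr hrr hrs hr0) D hD
  let T' : Set (H →L[ℂ] H) := (D : Set (H →L[ℂ] H)) ∪ Set.centralizer (M : Set (H →L[ℂ] H))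
  have hDT : ∀ z, z ∈ D ↔ ∀ t ∈ T', t * z = z * t := by
    intro z
    constructor
    · rintro hz t (ht | ht)
      · exact hD.comm t ht z hz
      · exact (ht z (hD.le z hz)).symm
    · intro hz
      apply hD.max
      · have h1 : z ∈ Set.centralizer (Set.centralizer (M : Set (H →L[ℂ] H))) := by
          intro t ht
          exact hz t (Or.inr ht)
        rw [VonNeumannAlgebra.centralizer_centralizer] at h1
        exact h1
      · intro t ht
        exact (hz t (Or.inl ht)).symm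
  let f : Bool → (H →L[ℂ] H) →ₗ[ℂ] ℂ := fun k =>
    if k then nfun ξ ξ hξ hξ else nfun ζ ζ hζ hζ
  have hf : ∀ k, WotCont (f k) := by
    intro k
    cases k
    · exact Helper278.wotCont_nfun ζ ζ hζ hζ
    · exact Helper278.wotCont_nfun ξ ξ hξ hξ
  have h1x : (0 : H →L[ℂ] H) ≤ 1 - x := sub_nonneg.2 hx1
  obtain ⟨p, hpD, hps, hpi, -, -, hpf⟩ := Helper278.lyapunov_abelian D T' hDT hD.comm hinf f hf
    (fun b : Bool => if b then x else 1 - x)
    (by
      intro b
      cases b
      · exact D.sub_mem D.one_mem hx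
      · exact hx)
    (by
      intro b
      rw [← ContinuousLinearMap.nonneg_iff_isPositive]
      cases b
      · exact h1x
      · exact hx0)
    (by simp)
  refine ⟨p true, hpD true, hps true, hpi true, ?_, ?_⟩
  · exact hpf true true
  · exact hpf true false

/-- On projections of the masa the two traces agree. -/
theorem tr_proj_eq (T : TracialState M) (hξ : Summable (fun k => ‖ξ k‖ ^ 2))
    (hT : ∀ x : Elt M, T.τ x = tr ξ (x : H →L[ℂ] H))
    (hfac : HasTrivialCenter M) (hdiff : IsDiffuse M) (hD : IsMasa M D)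
    (hDN : ∀ x ∈ D, x ∈ N) (hMN : NearIn M N γ) (hγ : γ ≤ 1 / 10) (hζ : TrVec N ζ)
    (e : H →L[ℂ] H) (heD : e ∈ D) (he : star e = e) (hee : e * e = e) : tr ζ e = tr ξ e := by
  have hA := Helper278.trAlg T
  have hone : tr ξ 1 = 1 := by rw [← T.map_one, hT]; rfl
  let E : Elt M := ⟨e, hD.le e heD⟩
  have hEs : star E * E = E := Subtype.ext (by show star e * e = e; rw [he, hee])
  have h0 : 0 ≤ T.τ E := by
    have := hA.nonneg E
    rwa [hEs] at this
  have h1 : 0 ≤ T.τ (1 - E) := by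
    have h2 := hA.nonneg (1 - E)
    have h3 : star (1 - E) * (1 - E) = 1 - E := Subtype.ext (by
      show star (1 - e) * (1 - e) = 1 - e
      rw [star_sub, star_one, he, mul_sub, sub_mul, sub_mul, mul_one, one_mul, mul_one, hee]
      abel)
    rwa [h3] at h2
  rw [map_sub, T.map_one] at h1
  obtain ⟨t, ht0, ht⟩ : ∃ t : ℝ, 0 ≤ t ∧ T.τ E = (t : ℂ) :=
    ⟨(T.τ E).re, (Complex.nonneg_iff.1 h0).1, by
      apply Complex.ext
      · simp
      · simp [(Complex.nonneg_iff.1 h0).2]⟩
  have ht1 : t ≤ 1 := by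
    rw [ht] at h1
    have := (Complex.nonneg_iff.1 h1).1
    simpa using this
  obtain ⟨p, hpD, hps, hpp, hp1, hp2⟩ := lyap2 hdiff hD hξ hζ.summable ((t : ℂ) • (1 : H →L[ℂ] H))
    (D.smul_mem D.one_mem _) (by
      have : ((t : ℂ) • (1 : H →L[ℂ] H)) = t • (1 : H →L[ℂ] H) := by
        rw [Complex.coe_smul]
      rw [this]
      exact smul_nonneg ht0 zero_le_one) (by
      have : ((t : ℂ) • (1 : H →L[ℂ] H)) = t • (1 : H →L[ℂ] H) := by
        rw [Complex.coe_smul]
      rw [this]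
      calc t • (1 : H →L[ℂ] H) ≤ (1 : ℝ) • (1 : H →L[ℂ] H) :=
            smul_le_smul_of_nonneg_right ht1 zero_le_one
        _ = 1 := one_smul _ _)
  rw [tr_smul hξ, hone, mul_one] at hp1
  rw [tr_smul hζ.summable, hζ.one, mul_one] at hp2
  let P : Elt M := ⟨p, hD.le p hpD⟩
  obtain ⟨v, hv1, hv2⟩ := Helper278.exists_equiv T hfac E P (Subtype.ext he) (Subtype.ext hee)
    (Subtype.ext hps) (Subtype.ext hpp) (by
      rw [ht, hT P]
      exact hp1.symm)
  have h5 := tr_eq_of_equiv hMN hγ hζ e p (v : H →L[ℂ] H) he hee hps hpp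
    (congrArg Subtype.val hv1) (congrArg Subtype.val hv2) (hDN e heD) (hDN p hpD) v.2
  have h6 : T.τ E = tr ξ e := hT E
  rw [h5, hp2, ← ht, h6]

/-- The two traces agree on the masa. -/
theorem tr_masa_eq (T : TracialState M) (hξ : Summable (fun k => ‖ξ k‖ ^ 2))
    (hT : ∀ x : Elt M, T.τ x = tr ξ (x : H →L[ℂ] H))
    (hfac : HasTrivialCenter M) (hdiff : IsDiffuse M) (hD : IsMasa M D)
    (hDN : ∀ x ∈ D, x ∈ N) (hMN : NearIn M N γ) (hγ : γ ≤ 1 / 10) (hζ : TrVec N ζ)
    (x : H →L[ℂ] H) (hx : x ∈ D) : tr ζ x = tr ξ x := by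
  have hone : tr ξ 1 = 1 := by rw [← T.map_one, hT]; rfl
  have hpos : ∀ y ∈ D, 0 ≤ y → y ≤ 1 → tr ζ y = tr ξ y := by
    intro y hy h0 h1
    obtain ⟨p, hpD, hps, hpp, hp1, hp2⟩ := lyap2 hdiff hD hξ hζ.summable y hy h0 h1
    rw [← hp1, ← hp2]
    exact tr_proj_eq T hξ hT hfac hdiff hD hDN hMN hγ hζ p hpD hps hpp
  have hsa : ∀ y ∈ D, star y = y → tr ζ y = tr ξ y := by
    intro y hy hys
    set c : ℝ := ‖y‖ + 1 with hc
    have hc0 : 0 < c := by positivity
    have hysa : IsSelfAdjoint y := hys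
    have hle : y ≤ algebraMap ℝ (H →L[ℂ] H) ‖y‖ := hysa.le_algebraMap_norm_self
    have hge : -(algebraMap ℝ (H →L[ℂ] H) ‖y‖) ≤ y := hysa.neg_algebraMap_norm_le_self
    have hcy : algebraMap ℝ (H →L[ℂ] H) ‖y‖ ≤ algebraMap ℝ (H →L[ℂ] H) c :=
      algebraMap_mono _ (by linarith)
    set z : H →L[ℂ] H := ((2 * c)⁻¹ : ℝ) • (algebraMap ℝ (H →L[ℂ] H) c + y) with hz
    have hz0 : 0 ≤ z := by
      refine smul_nonneg (by positivity) ?_
      have := add_le_add hcy hge
      rwa [add_neg_cancel] at this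
    have hz1 : z ≤ 1 := by
      have h1 : algebraMap ℝ (H →L[ℂ] H) c + y ≤ algebraMap ℝ (H →L[ℂ] H) (2 * c) := by
        have h2 : algebraMap ℝ (H →L[ℂ] H) (2 * c) =
            algebraMap ℝ (H →L[ℂ] H) c + algebraMap ℝ (H →L[ℂ] H) c := by
          rw [← map_add]; congr 1; ring
        rw [h2]
        exact add_le_add le_rfl (hle.trans hcy)
      calc z ≤ ((2 * c)⁻¹ : ℝ) • algebraMap ℝ (H →L[ℂ] H) (2 * c) :=
            smul_le_smul_of_nonneg_left h1 (by positivity)
        _ = 1 := by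
          rw [Algebra.algebraMap_eq_smul_one, smul_smul, inv_mul_cancel₀ (by positivity), one_smul]
    have hzc : z = (((2 * c)⁻¹ : ℝ) : ℂ) • ((c : ℂ) • (1 : H →L[ℂ] H) + y) := by
      rw [hz, Algebra.algebraMap_eq_smul_one, Complex.coe_smul, Complex.coe_smul]
    have hzD : z ∈ D := by
      rw [hzc]
      exact D.smul_mem (D.add_mem (D.smul_mem D.one_mem _) hy) _
    have h3 := hpos z hzD hz0 hz1
    rw [hzc, tr_smul hζ.summable, tr_smul hξ, tr_add hζ.summable, tr_add hξ,
      tr_smul hζ.summable, tr_smul hξ, hζ.one, hone] at h3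
    have h4 : (((2 * c)⁻¹ : ℝ) : ℂ) ≠ 0 := by
      rw [Complex.ofReal_ne_zero]
      positivity
    exact add_left_cancel (mul_left_cancel₀ h4 h3)
  have h1 := hsa (x + star x) (D.add_mem hx (D.star_mem' hx)) (by
    rw [star_add, star_star, add_comm])
  have h2 := hsa (Complex.I • (x - star x)) (D.smul_mem (D.sub_mem hx (D.star_mem' hx)) _) (by
    rw [star_smul, star_sub, star_star, Complex.star_def, Complex.conj_I, neg_smul, ← smul_neg,
      neg_sub])
  rw [tr_add hζ.summable, tr_add hξ] at h1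
  rw [tr_smul hζ.summable, tr_smul hξ, tr_sub hζ.summable, tr_sub hξ] at h2
  have h3 := mul_left_cancel₀ Complex.I_ne_zero h2
  have h4 : 2 * tr ζ x = 2 * tr ξ x := by linear_combination h1 + h3
  exact mul_left_cancel₀ two_ne_zero h4

end masa

end Pool.Agent.Q141.CC
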