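import Mathlib
import Pool.Agent.Q141.CC.Tr
import Pool.Agent.Q141.CC.Rep

/-!
Families of vectors of trace type: right multiplication, averaging.
-/

set_option autoImplicit false
set_option linter.unusedSectionVars false
set_option linter.unusedVariables false

open scoped InnerProductSpace ComplexOrder
open Pool.Agent.Helper278 (Elt TracialState HasTrivialCenter IsDiffuse IsMasa nfun WotCont)

namespace Pool.Agent.Q141.CC

universe u v

variable {H : Type u} [NormedAddCommGroup H] [InnerProductSpace ℂ H] [CompleteSpace H]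
variable {M N : VonNeumannAlgebra H} {γ : ℝ} {D : StarSubalgebra ℂ (H →L[ℂ] H)} {ξ ζ : ℕ → H}

open Classical in
/-- A family of vectors of trace type: `⟨η_j, x η_i⟩ = δ_ij τ(x q_i)`. -/
def Fam {J : Type v} (M : VonNeumannAlgebra H) (ξ : ℕ → H) (q : J → H →L[ℂ] H) (η : J → H) : Prop :=
  ∀ x ∈ M, ∀ i j, ⟪η j, x (η i)⟫_ℂ = if i = j then tr ξ (x * q i) else 0

/-- Right multiplication by the unitaries of the masa. -/
theorem exists_right {J : Type v} (hD : IsMasa M D) (hξ : TrVec M ξ) {q : J → H →L[ℂ] H}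
    (hq : ∀ i, q i ∈ D) {η : J → H} (hF : Fam M ξ q η) :
    ∃ B : UD D →* unitary (H →L[ℂ] H), (∀ g, (B g : H →L[ℂ] H) ∈ M.commutant) ∧
      ∀ g i, (B g : H →L[ℂ] H) (η i) = ((g : unitary (H →L[ℂ] H)) : H →L[ℂ] H) (η i) := by
  classical
  let gg : UD D → (H →L[ℂ] H) := fun g => ((g : unitary (H →L[ℂ] H)) : H →L[ℂ] H)
  have hgD : ∀ g, gg g ∈ D := fun g => g.2
  have hg1 : ∀ g, star (gg g) * gg g = 1 := fun g => Unitary.coe_star_mul_self _
  have hg2 : ∀ g, gg g * star (gg g) = 1 := fun g => Unitary.coe_mul_star_self _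
  let v : J × Elt M → H := fun s => (s.2 : H →L[ℂ] H) (η s.1)
  let act : UD D → J × Elt M → J × Elt M := fun g s => (s.1, s.2 * ⟨gg g, hD.le _ (hgD g)⟩)
  have hact : ∀ g s, v (act g s) = (s.2 : H →L[ℂ] H) (gg g (η s.1)) := fun g s => rfl
  have hin : ∀ (a b : H →L[ℂ] H), a ∈ M → b ∈ M → ∀ i j,
      ⟪a (η j), b (η i)⟫_ℂ = if i = j then tr ξ (star a * b * q i) else 0 := by
    intro a b ha hb i j
    rw [← hF _ (mul_mem (star_mem ha) hb) i j]
    show _ = ⟪η j, (star a) (b (η i))⟫_ℂ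
    rw [ContinuousLinearMap.star_eq_adjoint, ContinuousLinearMap.adjoint_inner_right]
  obtain ⟨B, hB1, hB2⟩ := exists_rep v (UD D) act
    (by
      rintro ⟨i, y⟩
      refine Prod.ext rfl (Subtype.ext ?_)
      exact mul_one (y : H →L[ℂ] H))
    (by
      rintro g h ⟨i, y⟩
      refine Prod.ext rfl (Subtype.ext ?_)
      show (y : H →L[ℂ] H) * (gg g * gg h) = (y : H →L[ℂ] H) * gg h * gg g
      rw [hD.comm _ (hgD g) _ (hgD h), mul_assoc])
    (by
      rintro g ⟨j, y'⟩ ⟨i, y⟩
      have hgM := hD.le _ (hgD g)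
      have e1 := hin ((y' : H →L[ℂ] H) * gg g) ((y : H →L[ℂ] H) * gg g) (mul_mem y'.2 hgM)
        (mul_mem y.2 hgM) i j
      have e2 := hin (y' : H →L[ℂ] H) (y : H →L[ℂ] H) y'.2 y.2 i j
      show ⟪((y' : H →L[ℂ] H) * gg g) (η j), ((y : H →L[ℂ] H) * gg g) (η i)⟫_ℂ =
        ⟪(y' : H →L[ℂ] H) (η j), (y : H →L[ℂ] H) (η i)⟫_ℂ
      rw [e1, e2]
      split_ifs with hij
      · have hqM := hD.le _ (hq i)
        calc tr ξ (star ((y' : H →L[ℂ] H) * gg g) * ((y : H →L[ℂ] H) * gg g) * q i) =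
            tr ξ (star (gg g) * (star (y' : H →L[ℂ] H) * (y : H →L[ℂ] H) * (gg g * q i))) := by
              rw [star_mul]
              simp only [mul_assoc]
          _ = tr ξ ((star (y' : H →L[ℂ] H) * (y : H →L[ℂ] H) * (gg g * q i)) * star (gg g)) :=
              hξ.tracial _ (star_mem hgM) _ (mul_mem (mul_mem (star_mem y'.2) y.2)
                (mul_mem hgM hqM))
          _ = tr ξ (star (y' : H →L[ℂ] H) * (y : H →L[ℂ] H) * (q i * (gg g * star (gg g)))) := by
              rw [hD.comm _ (hgD g) _ (hq i)]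
              simp only [mul_assoc]
          _ = tr ξ (star (y' : H →L[ℂ] H) * (y : H →L[ℂ] H) * q i) := by
              rw [hg2, mul_one]
      · rfl)
  refine ⟨B, ?_, ?_⟩
  · intro g
    rw [VonNeumannAlgebra.mem_commutant_iff]
    intro x hx
    refine op_ext v (fun s => ?_) (fun y hy => ?_)
    · obtain ⟨i, y⟩ := s
      show x ((B g : H →L[ℂ] H) (v (i, y))) = (B g : H →L[ℂ] H) (x (v (i, y)))
      have e1 : x (v (i, y)) = v (i, ⟨x, hx⟩ * y) := rfl
      rw [e1, hB1, hB1]
      rfl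
    · show x ((B g : H →L[ℂ] H) y) = (B g : H →L[ℂ] H) (x y)
      rw [hB2 g y hy, hB2 g (x y)]
      rintro ⟨i, z⟩
      rw [← ContinuousLinearMap.adjoint_inner_left]
      exact hy (i, ⟨star x, star_mem hx⟩ * z)
  · intro g i
    have h1 := hB1 g (i, 1)
    exact h1

/-- A masa of `M` contained in the nearby algebra `N` is maximal abelian in `N`. -/
theorem masa_near (hD : IsMasa M D) (hDN : ∀ x ∈ D, x ∈ N) (hNM : NearIn N M γ) (hγ : γ ≤ 1 / 2)
    (x : H →L[ℂ] H) (hx : x ∈ N) (hxc : ∀ y ∈ D, x * y = y * x) : x ∈ D := by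
  let _ := UDcomm D hD.comm
  obtain ⟨μ⟩ := exists_cmean (UD D)
  have hDc := isClosed_masa hD
  let gg : UD D → (H →L[ℂ] H) := fun g => ((g : unitary (H →L[ℂ] H)) : H →L[ℂ] H)
  have hgD : ∀ g, gg g ∈ D := fun g => g.2
  have hg1 : ∀ g, star (gg g) * gg g = 1 := fun g => Unitary.coe_star_mul_self _
  have hg2 : ∀ g, gg g * star (gg g) = 1 := fun g => Unitary.coe_mul_star_self _
  have hgn : ∀ g, ‖gg g‖ ≤ 1 := fun g => norm_unitary_le (hg1 g)
  have hgns : ∀ g, ‖star (gg g)‖ ≤ 1 := fun g => by rw [norm_star]; exact hgn g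
  have hγ0 : 0 ≤ γ := by
    obtain ⟨y, -, hy⟩ := hNM 0 (zero_mem N) (by simp)
    exact (norm_nonneg _).trans hy
  have hconj : ∀ g (z : H →L[ℂ] H), ‖gg g * z * star (gg g)‖ ≤ ‖z‖ := by
    intro g z
    have : ‖gg g * z * star (gg g)‖ ≤ 1 * ‖z‖ * 1 :=
      (norm_mul_le _ _).trans (mul_le_mul ((norm_mul_le _ _).trans
        (mul_le_mul_of_nonneg_right (hgn g) (norm_nonneg _))) (hgns g) (norm_nonneg _)
        (by positivity))
    linarith
  -- elements of the relative commutant are near `D`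
  have hstep : ∀ z ∈ N, (∀ y ∈ D, z * y = y * z) → ‖z‖ ≤ 1 → ∃ d ∈ D, ‖z - d‖ ≤ γ := by
    intro z hz hzc hz1
    obtain ⟨y, hy, hzy⟩ := hNM z hz hz1
    let T0 : UD D → H →L[ℂ] H := fun g => gg g * y * star (gg g)
    have hT0 : ∀ g, ‖T0 g‖ ≤ ‖y‖ := fun g => hconj g y
    refine ⟨opMean μ T0 _ hT0, ?_, ?_⟩
    · apply hD.max
      · refine mem_of_comm M _ fun t ht => opMean_comm μ T0 _ hT0 t fun g => ?_
        have h1 : T0 g ∈ M := mul_mem (mul_mem (hD.le _ (hgD g)) hy) (star_mem (hD.le _ (hgD g)))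
        exact (comm_of_mem h1 ht).symm
      · let P : Submodule ℂ (H →L[ℂ] H) :=
          { carrier := {w | opMean μ T0 _ hT0 * w = w * opMean μ T0 _ hT0}
            add_mem' := fun {a b} ha hb => by
              show _ * (a + b) = (a + b) * _
              rw [mul_add, add_mul, show _ * a = a * _ from ha, show _ * b = b * _ from hb]
            zero_mem' := by
              show _ * (0 : H →L[ℂ] H) = 0 * _
              rw [mul_zero, zero_mul]
            smul_mem' := fun c a ha => by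
              show _ * (c • a) = (c • a) * _
              rw [mul_smul_comm, smul_mul_assoc, show _ * a = a * _ from ha] }
        refine span_UD D hDc P fun g => ?_
        show opMean μ T0 _ hT0 * gg g = gg g * opMean μ T0 _ hT0
        have h1 : gg g * opMean μ T0 _ hT0 * star (gg g) = opMean μ T0 _ hT0 := by
          refine opMean_conj μ T0 _ hT0 _ _ g fun h => ?_
          show gg g * (gg h * y * star (gg h)) * star (gg g) =
            (gg g * gg h) * y * star (gg g * gg h)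
          rw [star_mul]
          noncomm_ring
        calc opMean μ T0 _ hT0 * gg g = gg g * opMean μ T0 _ hT0 * (star (gg g) * gg g) := by
              conv_lhs => rw [← h1]
              noncomm_ring
          _ = gg g * opMean μ T0 _ hT0 := by rw [hg1, mul_one]
    · rw [norm_sub_rev]
      refine norm_opMean_sub_le μ T0 _ hT0 _ _ fun g => ?_
      have e : T0 g - z = gg g * (y - z) * star (gg g) := by
        have h1 : gg g * z * star (gg g) = z := by
          rw [← hzc _ (hgD g), mul_assoc, hg2, mul_one]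
        rw [mul_sub, sub_mul, h1]
      rw [e]
      refine (hconj g _).trans ?_
      rw [norm_sub_rev]
      exact hzy
  by_contra hxD
  have hne : (D : Set (H →L[ℂ] H)).Nonempty := ⟨1, D.one_mem⟩
  have hpos : 0 < Metric.infDist x (D : Set (H →L[ℂ] H)) :=
    (hDc.notMem_iff_infDist_pos hne).1 hxD
  set δ := Metric.infDist x (D : Set (H →L[ℂ] H)) with hδ
  obtain ⟨d1, hd1, hd1'⟩ := (Metric.infDist_lt_iff (x := x) (r := 3 / 2 * δ) hne).1 (by linarith)
  rw [dist_eq_norm] at hd1'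
  obtain ⟨c, hc⟩ : ∃ c : ℝ, c = 3 / 2 * δ := ⟨_, rfl⟩
  have hc0 : 0 < c := by rw [hc]; positivity
  have hcc : ((c : ℝ) : ℂ) ≠ 0 := Complex.ofReal_ne_zero.2 hc0.ne'
  have hz1 : ‖((c : ℂ)⁻¹) • (x - d1)‖ ≤ 1 := by
    rw [norm_smul, norm_inv, Complex.norm_real, Real.norm_of_nonneg hc0.le, inv_mul_le_iff₀ hc0, mul_one]
    linarith
  obtain ⟨d2, hd2, hd2'⟩ := hstep (((c : ℂ)⁻¹) • (x - d1))
    (smul_mem_vN (sub_mem hx (hDN _ hd1)) _) (by
      intro y hy
      rw [smul_mul_assoc, mul_smul_comm, sub_mul, mul_sub, hxc y hy, hD.comm _ hd1 _ hy]) hz1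
  have h3 : ‖x - (d1 + (c : ℂ) • d2)‖ ≤ c * γ := by
    have e : x - (d1 + (c : ℂ) • d2) = (c : ℂ) • (((c : ℂ)⁻¹) • (x - d1) - d2) := by
      rw [smul_sub, smul_smul, mul_inv_cancel₀ hcc, one_smul]
      abel
    rw [e, norm_smul, Complex.norm_real, Real.norm_of_nonneg hc0.le]
    exact mul_le_mul_of_nonneg_left hd2' hc0.le
  have h4 : δ ≤ ‖x - (d1 + (c : ℂ) • d2)‖ := by
    rw [← dist_eq_norm]
    exact Metric.infDist_le_dist_of_mem (D.add_mem hd1 (D.smul_mem hd2 _))
  nlinarith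

/-- Transfer of a family from `M` to the nearby algebra `N`, when `N` contains the masa and `N'`
contains the right multiplications. -/
theorem transfer {J : Type v} (T : TracialState M) (hξ : TrVec M ξ)
    (hT : ∀ x : Elt M, T.τ x = tr ξ (x : H →L[ℂ] H))
    (hfac : HasTrivialCenter M) (hdiff : IsDiffuse M) (hD : IsMasa M D)
    (hDN : ∀ x ∈ D, x ∈ N) (hMN : NearIn M N γ) (hNM : NearIn N M γ) (hγ : γ ≤ 1 / 10)
    (hζ : TrVec N ζ) {q : J → H →L[ℂ] H} (hq : ∀ i, q i ∈ D) {η : J → H} (hF : Fam M ξ q η)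
    (B : UD D →* unitary (H →L[ℂ] H)) (hB1 : ∀ g, (B g : H →L[ℂ] H) ∈ N.commutant)
    (hB2 : ∀ g i, (B g : H →L[ℂ] H) (η i) = ((g : unitary (H →L[ℂ] H)) : H →L[ℂ] H) (η i)) :
    Fam N ζ q η := by
  let _ := UDcomm D hD.comm
  obtain ⟨μ⟩ := exists_cmean (UD D)
  have hDc := isClosed_masa hD
  let gg : UD D → (H →L[ℂ] H) := fun g => ((g : unitary (H →L[ℂ] H)) : H →L[ℂ] H)
  have hgD : ∀ g, gg g ∈ D := fun g => g.2
  have hg1 : ∀ g, star (gg g) * gg g = 1 := fun g => Unitary.coe_star_mul_self _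
  have hg2 : ∀ g, gg g * star (gg g) = 1 := fun g => Unitary.coe_mul_star_self _
  have hgn : ∀ g, ‖gg g‖ ≤ 1 := fun g => norm_unitary_le (hg1 g)
  have hgns : ∀ g, ‖star (gg g)‖ ≤ 1 := fun g => by rw [norm_star]; exact hgn g
  have hconj : ∀ g (z : H →L[ℂ] H), ‖gg g * z * star (gg g)‖ ≤ ‖z‖ := by
    intro g z
    have : ‖gg g * z * star (gg g)‖ ≤ 1 * ‖z‖ * 1 :=
      (norm_mul_le _ _).trans (mul_le_mul ((norm_mul_le _ _).trans
        (mul_le_mul_of_nonneg_right (hgn g) (norm_nonneg _))) (hgns g) (norm_nonneg _)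
        (by positivity))
    linarith
  intro x hx i j
  let T0 : UD D → H →L[ℂ] H := fun g => gg g * x * star (gg g)
  have hT0 : ∀ g, ‖T0 g‖ ≤ ‖x‖ := fun g => hconj g x
  obtain ⟨S, hS⟩ : ∃ S, S = opMean μ T0 _ hT0 := ⟨_, rfl⟩
  have hSN : S ∈ N := by
    rw [hS]
    refine mem_of_comm N _ fun t ht => opMean_comm μ T0 _ hT0 t fun g => ?_
    have h1 : T0 g ∈ N := mul_mem (mul_mem (hDN _ (hgD g)) hx) (star_mem (hDN _ (hgD g)))
    exact (comm_of_mem h1 ht).symm
  have hSD : S ∈ D := by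
    refine masa_near hD hDN hNM (by linarith) S hSN ?_
    let P : Submodule ℂ (H →L[ℂ] H) :=
      { carrier := {w | S * w = w * S}
        add_mem' := fun {a b} ha hb => by
          show S * (a + b) = (a + b) * S
          rw [mul_add, add_mul, show S * a = a * S from ha, show S * b = b * S from hb]
        zero_mem' := by
          show S * (0 : H →L[ℂ] H) = 0 * S
          rw [mul_zero, zero_mul]
        smul_mem' := fun c a ha => by
          show S * (c • a) = (c • a) * S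
          rw [mul_smul_comm, smul_mul_assoc, show S * a = a * S from ha] }
    refine span_UD D hDc P fun g => ?_
    show S * gg g = gg g * S
    have h1 : gg g * S * star (gg g) = S := by
      rw [hS]
      refine opMean_conj μ T0 _ hT0 _ _ g fun h => ?_
      show gg g * (gg h * x * star (gg h)) * star (gg g) =
        (gg g * gg h) * x * star (gg g * gg h)
      rw [star_mul]
      noncomm_ring
    calc S * gg g = gg g * S * (star (gg g) * gg g) := by
          conv_lhs => rw [← h1]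
          noncomm_ring
      _ = gg g * S := by rw [hg1, mul_one]
  -- the vector functionals
  have hBs : ∀ g i, (star (gg g)) (η i) = (B g⁻¹ : H →L[ℂ] H) (η i) := by
    intro g i
    rw [hB2]
    rfl
  have h1 : ⟪η j, S (η i)⟫_ℂ = ⟪η j, x (η i)⟫_ℂ := by
    rw [hS, inner_opMean]
    have h2 : (fun g => ⟪η j, T0 g (η i)⟫_ℂ) = fun _ => ⟪η j, x (η i)⟫_ℂ := by
      funext g
      show ⟪η j, gg g (x ((star (gg g)) (η i)))⟫_ℂ = _
      rw [← ContinuousLinearMap.adjoint_inner_left, ← ContinuousLinearMap.star_eq_adjoint, hBs,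
        hBs]
      have h3 : x ((B g⁻¹ : H →L[ℂ] H) (η i)) = (B g⁻¹ : H →L[ℂ] H) (x (η i)) :=
        congrArg (fun w : H →L[ℂ] H => w (η i)) (comm_of_mem hx (hB1 g⁻¹))
      rw [h3, ← ContinuousLinearMap.adjoint_inner_right, ← ContinuousLinearMap.star_eq_adjoint]
      have h4 : (star (B g⁻¹ : H →L[ℂ] H)) ((B g⁻¹ : H →L[ℂ] H) (x (η i))) = x (η i) :=
        congrArg (fun w : H →L[ℂ] H => w (x (η i))) (Unitary.coe_star_mul_self (B g⁻¹))
      rw [h4]
    rw [h2, μ.const]
  -- the trace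
  have h5 : ∀ i, tr ζ (S * q i) = tr ζ (x * q i) := by
    intro i
    have e1 : tr ζ (S * q i) = ∑' k, μ.m (fun g => ⟪ζ k, T0 g (q i (ζ k))⟫_ℂ) := by
      show ∑' k, ⟪ζ k, S (q i (ζ k))⟫_ℂ = _
      congr 1
      funext k
      rw [hS, inner_opMean]
    rw [e1, ← μ.tsum _ (fun k => (‖x‖ * ‖q i‖) * ‖ζ k‖ ^ 2) (hζ.summable.mul_left _)]
    · have e2 : (fun g => ∑' k, ⟪ζ k, T0 g (q i (ζ k))⟫_ℂ) = fun _ => tr ζ (x * q i) := by
        funext g
        show tr ζ (T0 g * q i) = _
        have hgN := hDN _ (hgD g)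
        have hqN := hDN _ (hq i)
        calc tr ζ (T0 g * q i) = tr ζ (gg g * (x * (q i * star (gg g)))) := by
              congr 1
              show gg g * x * star (gg g) * q i = _
              have : star (gg g) * q i = q i * star (gg g) :=
                hD.comm _ (D.star_mem' (hgD g)) _ (hq i)
              rw [mul_assoc, this]
              noncomm_ring
          _ = tr ζ ((x * (q i * star (gg g))) * gg g) :=
              hζ.tracial _ hgN _ (mul_mem hx (mul_mem hqN (star_mem hgN)))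
          _ = tr ζ (x * q i) := by
              congr 1
              calc x * (q i * star (gg g)) * gg g = x * q i * (star (gg g) * gg g) := by
                    noncomm_ring
                _ = x * q i := by rw [hg1, mul_one]
      rw [e2, μ.const]
    · intro k g
      calc ‖⟪ζ k, T0 g (q i (ζ k))⟫_ℂ‖ ≤ ‖ζ k‖ * ‖T0 g (q i (ζ k))‖ := norm_inner_le_norm _ _
        _ ≤ ‖ζ k‖ * (‖x‖ * (‖q i‖ * ‖ζ k‖)) := by
            refine mul_le_mul_of_nonneg_left ?_ (norm_nonneg _)
            exact ((T0 g).le_of_opNorm_le (hT0 g) _).trans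
              (mul_le_mul_of_nonneg_left ((q i).le_opNorm _) (norm_nonneg _))
        _ = (‖x‖ * ‖q i‖) * ‖ζ k‖ ^ 2 := by ring
  rw [← h1, hF S (hD.le _ hSD) i j]
  split_ifs with hij
  · rw [← h5 i]
    exact (tr_masa_eq T hξ.summable hT hfac hdiff hD hDN hMN hγ hζ _ (D.mul_mem hSD (hq i))).symm
  · rfl

end Pool.Agent.Q141.CC
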