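import Mathlib
import Pool.Agent.Q141.CC.Fam
import Pool.Agent.Q141.CC.Conj

/-!
Families of trace type are transferred between close II₁ factors.
-/

set_option autoImplicit false
set_option linter.unusedSectionVars false
set_option linter.unusedVariables false

open scoped InnerProductSpace ComplexOrder
open Pool.Agent.Helper278 (Elt TracialState HasTrivialCenter IsDiffuse IsMasa nfun WotCont)

namespace Pool.Agent.Q141.CC

universe u v

variable {H : Type u} [NormedAddCommGroup H] [InnerProductSpace ℂ H] [CompleteSpace H]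
variable {M N : VonNeumannAlgebra H}

theorem tr_conj (ζ : ℕ → H) (w X : H →L[ℂ] H) :
    tr (fun k => w (ζ k)) X = tr ζ (star w * X * w) := by
  show ∑' k, ⟪w (ζ k), X (w (ζ k))⟫_ℂ = ∑' k, ⟪ζ k, (star w) (X (w (ζ k)))⟫_ℂ
  congr 1
  funext k
  rw [ContinuousLinearMap.star_eq_adjoint, ContinuousLinearMap.adjoint_inner_right]

theorem trVec_cjN {ζ : ℕ → H} (hζ : TrVec N ζ) {u : H →L[ℂ] H} (h1 : star u * u = 1)
    (h2 : u * star u = 1) : TrVec (cjN N u h1 h2) (fun k => u (ζ k)) := by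
  refine ⟨?_, ?_, ?_⟩
  · have hn := norm_unitary_le h1
    refine Summable.of_nonneg_of_le (fun k => sq_nonneg _) (fun k => ?_) hζ.summable
    refine pow_le_pow_left₀ (norm_nonneg _) ?_ 2
    have := u.le_of_opNorm_le hn (ζ k)
    rwa [one_mul] at this
  · rw [tr_conj, mul_one, h1]
    exact hζ.one
  · intro x hx y hy
    rw [tr_conj, tr_conj]
    have e : ∀ a b : H →L[ℂ] H, star u * (a * b) * u = (star u * a * u) * (star u * b * u) := by
      intro a b
      calc star u * (a * b) * u = star u * a * 1 * b * u := by noncomm_ring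
        _ = (star u * a * u) * (star u * b * u) := by rw [← h2]; noncomm_ring
    rw [e, e]
    exact hζ.tracial _ (mem_cjN.1 hx) _ (mem_cjN.1 hy)

/-- back to the original algebra -/
theorem fam_of_cjN {J : Type v} {ζ : ℕ → H} {u : H →L[ℂ] H} (h1 : star u * u = 1)
    (h2 : u * star u = 1) {q : J → H →L[ℂ] H} {η : J → H}
    (hF : Fam (cjN N u h1 h2) (fun k => u (ζ k)) q η) :
    Fam N ζ (fun i => star u * q i * u) (fun i => (star u) (η i)) := by
  intro x hx i j
  have hx' : u * x * star u ∈ cjN N u h1 h2 := by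
    rw [mem_cjN]
    have : star u * (u * x * star u) * u = x := by
      calc star u * (u * x * star u) * u = (star u * u) * x * (star u * u) := by noncomm_ring
        _ = x := by rw [h1, one_mul, mul_one]
    rwa [this]
  have h3 := hF _ hx' i j
  have e1 : ⟪(star u) (η j), x ((star u) (η i))⟫_ℂ = ⟪η j, (u * x * star u) (η i)⟫_ℂ := by
    show ⟪(star u) (η j), x ((star u) (η i))⟫_ℂ = ⟪η j, u (x ((star u) (η i)))⟫_ℂ
    rw [ContinuousLinearMap.star_eq_adjoint, ContinuousLinearMap.adjoint_inner_left]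
  rw [e1, h3]
  split_ifs with hij
  · rw [tr_conj]
    congr 1
    calc star u * (u * x * star u * q i) * u = (star u * u) * x * (star u * q i * u) := by
          noncomm_ring
      _ = x * (star u * q i * u) := by rw [h1, one_mul]
  · rfl

/-- moving the projections of a family into a masa -/
theorem fam_masa {J : Type v} {D : StarSubalgebra ℂ (H →L[ℂ] H)} {ξ : ℕ → H} (T : TracialState M)
    (hξ : TrVec M ξ) (hT : ∀ x : Elt M, T.τ x = tr ξ (x : H →L[ℂ] H))
    (hfac : HasTrivialCenter M) (hdiff : IsDiffuse M) (hD : IsMasa M D)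
    {q : J → H →L[ℂ] H} (hqM : ∀ i, q i ∈ M) (hqs : ∀ i, star (q i) = q i)
    (hqq : ∀ i, q i * q i = q i) {η : J → H} (hF : Fam M ξ q η) :
    ∃ (p : J → H →L[ℂ] H) (η' : J → H), (∀ i, p i ∈ D) ∧ (∀ i, star (p i) = p i) ∧
      (∀ i, p i * p i = p i) ∧ (∀ i, tr ξ (p i) = tr ξ (q i)) ∧ Fam M ξ p η' := by
  have hA := Helper278.trAlg T
  have hkey : ∀ i, ∃ (p v : H →L[ℂ] H), p ∈ D ∧ star p = p ∧ p * p = p ∧ tr ξ p = tr ξ (q i) ∧
      v ∈ M ∧ star v * v = q i ∧ v * star v = p := by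
    intro i
    let E : Elt M := ⟨q i, hqM i⟩
    have hEs : star E * E = E := Subtype.ext (by
      show star (q i) * q i = q i
      rw [hqs, hqq])
    have h0 : 0 ≤ T.τ E := by
      have := hA.nonneg E
      rwa [hEs] at this
    have h1 : 0 ≤ T.τ (1 - E) := by
      have h2 := hA.nonneg (1 - E)
      have h3 : star (1 - E) * (1 - E) = 1 - E := Subtype.ext (by
        show star (1 - q i) * (1 - q i) = 1 - q i
        rw [star_sub, star_one, hqs, mul_sub, sub_mul, sub_mul, mul_one, one_mul, mul_one, hqq]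
        abel)
      rwa [h3] at h2
    rw [map_sub, T.map_one] at h1
    obtain ⟨t, ht0, ht⟩ : ∃ t : ℝ, 0 ≤ t ∧ T.τ E = (t : ℂ) :=
      ⟨(T.τ E).re, (Complex.nonneg_iff.1 h0).1, by
        apply Complex.ext
        · simp
        · simp [(Complex.nonneg_iff.1 h0).2]⟩
    have ht1 : t ≤ 1 := by
      rw [ht] at h1
      have := (Complex.nonneg_iff.1 h1).1
      simpa using this
    obtain ⟨p, hpD, hps, hpp, hp1, -⟩ := lyap2 (ζ := ξ) hdiff hD hξ.summable hξ.summable
      ((t : ℂ) • (1 : H →L[ℂ] H)) (D.smul_mem D.one_mem _) (by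
        have : ((t : ℂ) • (1 : H →L[ℂ] H)) = t • (1 : H →L[ℂ] H) := by
          rw [Complex.coe_smul]
        rw [this]
        exact smul_nonneg ht0 zero_le_one) (by
        have : ((t : ℂ) • (1 : H →L[ℂ] H)) = t • (1 : H →L[ℂ] H) := by
          rw [Complex.coe_smul]
        rw [this]
        calc t • (1 : H →L[ℂ] H) ≤ (1 : ℝ) • (1 : H →L[ℂ] H) :=
              smul_le_smul_of_nonneg_right ht1 zero_le_one
          _ = 1 := one_smul _ _)
    rw [tr_smul hξ.summable, hξ.one, mul_one] at hp1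
    let P : Elt M := ⟨p, hD.le p hpD⟩
    obtain ⟨v, hv1, hv2⟩ := Helper278.exists_equiv T hfac E P (Subtype.ext (hqs i))
      (Subtype.ext (hqq i)) (Subtype.ext hps) (Subtype.ext hpp) (by
        rw [ht, hT P]
        exact hp1.symm)
    refine ⟨p, v, hpD, hps, hpp, ?_, v.2, congrArg Subtype.val hv1, congrArg Subtype.val hv2⟩
    rw [hp1, ← ht]
    exact hT E
  choose p v hpD hps hpp hpt hvM hv1 hv2 using hkey
  refine ⟨p, fun i => v i (η i), hpD, hps, hpp, hpt, ?_⟩
  intro x hx i j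
  have e1 : ⟪v j (η j), x (v i (η i))⟫_ℂ = ⟪η j, (star (v j) * x * v i) (η i)⟫_ℂ := by
    show _ = ⟪η j, (star (v j)) (x (v i (η i)))⟫_ℂ
    rw [ContinuousLinearMap.star_eq_adjoint, ContinuousLinearMap.adjoint_inner_right]
  rw [e1, hF _ (mul_mem (mul_mem (star_mem (hvM j)) hx) (hvM i)) i j]
  by_cases hij : i = j
  · subst hij
    rw [if_pos rfl, if_pos rfl]
    have hvq : v i * q i = v i := by
      have h : star (v i * q i - v i) * (v i * q i - v i) = 0 := by
        rw [star_sub, star_mul, hqs]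
        calc (q i * star (v i) - star (v i)) * (v i * q i - v i) =
            q i * (star (v i) * v i) * q i - q i * (star (v i) * v i) - (star (v i) * v i) * q i +
              star (v i) * v i := by noncomm_ring
          _ = 0 := by rw [hv1, hqq, hqq]; abel
      exact sub_eq_zero.1 ((CStarRing.star_mul_self_eq_zero_iff _).1 h)
    calc tr ξ (star (v i) * x * v i * q i) = tr ξ (star (v i) * (x * v i)) := by
          rw [mul_assoc (star (v i) * x), hvq, mul_assoc]
      _ = tr ξ ((x * v i) * star (v i)) :=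
          hξ.tracial _ (star_mem (hvM i)) _ (mul_mem hx (hvM i))
      _ = tr ξ (x * p i) := by rw [mul_assoc, hv2]
  · rw [if_neg hij, if_neg hij]

/-- the universal bound -/
noncomputable def del : ℝ := 1 / (10 ^ 8 * cD ^ 3)

theorem del_pos : 0 < del := by
  have := cD_ge
  unfold del
  positivity

/-- **Transfer of families of trace type between close factors.** -/
theorem main_transfer {J : Type v} {ξ ζ : ℕ → H} (T : TracialState M)
    (hξ : TrVec M ξ) (hT : ∀ x : Elt M, T.τ x = tr ξ (x : H →L[ℂ] H))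
    (hfac : HasTrivialCenter M) (hdiff : IsDiffuse M) (hζ : TrVec N ζ)
    (hMN : NearIn M N del) (hNM : NearIn N M del)
    {q : J → H →L[ℂ] H} (hqM : ∀ i, q i ∈ M) (hqs : ∀ i, star (q i) = q i)
    (hqq : ∀ i, q i * q i = q i) {η : J → H} (hF : Fam M ξ q η) :
    ∃ (q' : J → H →L[ℂ] H) (η' : J → H), (∀ i, q' i ∈ N) ∧ (∀ i, star (q' i) = q' i) ∧
      (∀ i, q' i * q' i = q' i) ∧ (∀ i, tr ζ (q' i) = tr ξ (q i)) ∧ Fam N ζ q' η' := by
  have hc1 := cD_ge
  set c : ℝ := cD with hc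
  have hd0 := del_pos
  have hdc : del * c ^ 3 = 1 / 10 ^ 8 := by
    unfold del
    rw [← hc]
    field_simp
  have hc3 : c ≤ c ^ 3 := by nlinarith [sq_nonneg c, sq_nonneg (c - 1)]
  have hc2 : c ^ 2 ≤ c ^ 3 := by nlinarith [sq_nonneg c]
  have hdc1 : del * c ≤ 1 / 10 ^ 8 := by
    rw [← hdc]
    exact mul_le_mul_of_nonneg_left hc3 hd0.le
  have hdd : del ≤ 1 / 10 ^ 8 := by nlinarith
  -- the masa
  obtain ⟨D, hD, -⟩ := Helper278.exists_masa M ∅ (by simp) (by simp) (by simp)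
  have hDc := isClosed_masa hD
  obtain ⟨p, η1, hpD, hps, hpp, hpt, hF1⟩ := fam_masa T hξ hT hfac hdiff hD hqM hqs hqq hF
  -- first conjugation
  let _ : CommGroup (UD D) := UDcomm D hD.comm
  have hun : ∀ g : UD D, ‖((g : unitary (H →L[ℂ] H)) : H →L[ℂ] H)‖ ≤ 1 := fun g =>
    norm_unitary_le (Unitary.coe_star_mul_self _)
  obtain ⟨u1, h11, h12, hu1, hu1N, -⟩ := conj_near N (UD D) (UD D).subtype del
    (fun g => hMN _ (hD.le _ g.2) (hun g)) (by rw [← hc]; linarith)
  have hDN1 : ∀ x ∈ D, x ∈ cjN N u1 h11 h12 := by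
    let P : Submodule ℂ (H →L[ℂ] H) :=
      { carrier := {w | w ∈ cjN N u1 h11 h12}
        add_mem' := fun {a b} ha hb => by
          show a + b ∈ cjN N u1 h11 h12
          exact add_mem (show a ∈ cjN N u1 h11 h12 from ha) (show b ∈ cjN N u1 h11 h12 from hb)
        zero_mem' := zero_mem (cjN N u1 h11 h12)
        smul_mem' := fun k a ha => by
          show k • a ∈ cjN N u1 h11 h12
          exact smul_mem_vN (show a ∈ cjN N u1 h11 h12 from ha) k }
    exact span_UD D hDc P fun g => hu1N g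
  obtain ⟨δ1, hδ1⟩ : ∃ δ1 : ℝ, δ1 = del + 4 * (260 * c * del) := ⟨_, rfl⟩
  have hMN1 : NearIn M (cjN N u1 h11 h12) δ1 := by
    rw [hδ1]
    exact nearIn_cjN hMN (by linarith) h11 h12 hu1
  have hNM1 : NearIn (cjN N u1 h11 h12) M δ1 := by
    rw [hδ1]
    exact cjN_nearIn hNM h11 h12 hu1
  have hδ10 : 0 ≤ δ1 := by
    rw [hδ1]
    positivity
  -- right multiplications
  obtain ⟨B, hBM, hBη⟩ := exists_right hD hξ hpD hF1
  have hBn : ∀ g, ‖(B g : H →L[ℂ] H)‖ ≤ 1 := fun g =>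
    norm_unitary_le (Unitary.coe_star_mul_self _)
  have hBnear : ∀ g, ∃ y ∈ (cjN N u1 h11 h12).commutant, ‖(B g : H →L[ℂ] H) - y‖ ≤ c * (2 * δ1) := by
    intro g
    obtain ⟨Y, hY1, hY2⟩ := near_comm_vN (cjN N u1 h11 h12) H (StarAlgHom.id ℂ (H →L[ℂ] H))
      (B g : H →L[ℂ] H) (2 * δ1) (by positivity) (by
      intro a ha
      show ‖a * (B g : H →L[ℂ] H) - (B g : H →L[ℂ] H) * a‖ ≤ 2 * δ1 * ‖a‖
      rcases eq_or_ne a 0 with rfl | ha0
      · simp
      have han : 0 < ‖a‖ := norm_pos_iff.2 ha0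
      have hac : ((‖a‖ : ℝ) : ℂ) ≠ 0 := Complex.ofReal_ne_zero.2 han.ne'
      obtain ⟨y, hy, hay⟩ := hNM1 (((‖a‖ : ℝ) : ℂ)⁻¹ • a) (smul_mem_vN ha _) (by
        rw [norm_smul, norm_inv, Complex.norm_real, norm_norm, inv_mul_cancel₀ han.ne'])
      have hyB := comm_of_mem hy (hBM g)
      obtain ⟨b, hb⟩ : ∃ b, b = ((‖a‖ : ℝ) : ℂ)⁻¹ • a := ⟨_, rfl⟩
      have hab : a = ((‖a‖ : ℝ) : ℂ) • b := by
        rw [hb, smul_smul, mul_inv_cancel₀ hac, one_smul]
      rw [← hb] at hay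
      have e : a * (B g : H →L[ℂ] H) - (B g : H →L[ℂ] H) * a =
          ((‖a‖ : ℝ) : ℂ) • ((b - y) * (B g : H →L[ℂ] H) - (B g : H →L[ℂ] H) * (b - y)) := by
        conv_lhs => rw [hab]
        rw [smul_mul_assoc, mul_smul_comm, ← smul_sub, sub_mul, mul_sub, hyB]
        congr 1
        abel
      rw [e, norm_smul, Complex.norm_real, norm_norm]
      have h3 : ‖(b - y) * (B g : H →L[ℂ] H) - (B g : H →L[ℂ] H) * (b - y)‖ ≤ δ1 * 1 + 1 * δ1 :=
        (norm_sub_le _ _).trans (add_le_add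
          ((norm_mul_le _ _).trans (mul_le_mul hay (hBn g) (norm_nonneg _) hδ10))
          ((norm_mul_le _ _).trans (mul_le_mul (hBn g) hay (norm_nonneg _) zero_le_one)))
      nlinarith [norm_nonneg ((b - y) * (B g : H →L[ℂ] H) - (B g : H →L[ℂ] H) * (b - y))])
    refine ⟨Y, ?_, hY2⟩
    rw [VonNeumannAlgebra.mem_commutant_iff]
    exact fun a ha => hY1 a ha
  -- second conjugation
  obtain ⟨γ2, hγ2⟩ : ∃ γ2 : ℝ, γ2 = c * (2 * δ1) := ⟨_, rfl⟩
  rw [← hγ2] at hBnear
  have hb1 : c * δ1 ≤ 1041 * (del * c ^ 2) := by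
    rw [hδ1]
    have : 0 ≤ del * (c ^ 2 - c) := mul_nonneg hd0.le (by nlinarith)
    nlinarith
  have hb2 : c * (c * δ1) ≤ 1041 * (del * c ^ 3) := by
    have := mul_le_mul_of_nonneg_left hb1 (show 0 ≤ c by linarith)
    nlinarith
  obtain ⟨u2, h21, h22, hu2, hu2N, hu2c⟩ := conj_near (cjN N u1 h11 h12).commutant (UD D) B γ2
    hBnear (by
      rw [← hc, hγ2]
      rw [hdc] at hb2
      nlinarith)
  have hDu2 : ∀ x ∈ D, x * u2 = u2 * x := by
    intro x hx
    refine hu2c x ?_ fun g => comm_of_mem (hD.le x hx) (hBM g)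
    rw [VonNeumannAlgebra.commutant_commutant]
    exact hDN1 x hx
  have hDN2 : ∀ x ∈ D, x ∈ cjN (cjN N u1 h11 h12) u2 h21 h22 := by
    intro x hx
    have : star u2 * x * u2 = x := by
      rw [mul_assoc, hDu2 x hx, ← mul_assoc, h21, one_mul]
    rw [mem_cjN, this]
    exact hDN1 x hx
  have hBN2 : ∀ g, (B g : H →L[ℂ] H) ∈ (cjN (cjN N u1 h11 h12) u2 h21 h22).commutant := fun g =>
    cjN_commutant (hu2N g)
  have hδ2 : δ1 + 4 * (260 * c * γ2) ≤ 1 / 10 := by
    rw [hγ2]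
    rw [hdc] at hb2
    have h1 : 0 ≤ c - 1 := by linarith
    have h2 : 0 ≤ δ1 * (c - 1) := mul_nonneg hδ10 h1
    have h3 : 0 ≤ c * (δ1 * (c - 1)) := mul_nonneg (by linarith) h2
    have h4 : δ1 ≤ c * (c * δ1) := by nlinarith
    nlinarith
  have hδ1le : δ1 ≤ 1 := by
    have : 0 ≤ 4 * (260 * c * γ2) := by
      rw [hγ2]
      positivity
    linarith
  have hMN2 := nearIn_cjN hMN1 hδ1le h21 h22 hu2
  have hNM2 := cjN_nearIn hNM1 h21 h22 hu2
  have hζ2 := trVec_cjN (trVec_cjN hζ h11 h12) h21 h22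
  have hF2 := transfer T hξ hT hfac hdiff hD hDN2 hMN2 hNM2 hδ2 hζ2 hpD hF1 B hBN2 hBη
  have hF3 := fam_of_cjN h11 h12 (fam_of_cjN h21 h22 hF2)
  have htr : ∀ i, tr (fun k => u2 (u1 (ζ k))) (p i) = tr ξ (p i) := fun i =>
    tr_masa_eq T hξ.summable hT hfac hdiff hD hDN2 hMN2 hδ2 hζ2 (p i) (hpD i)
  refine ⟨_, _, fun i => ?_, fun i => ?_, fun i => ?_, fun i => ?_, hF3⟩
  · exact hDN2 _ (hpD i)
  · simp only [star_mul, star_star, hps, mul_assoc]
  · show star u1 * (star u2 * p i * u2) * u1 * (star u1 * (star u2 * p i * u2) * u1) =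
      star u1 * (star u2 * p i * u2) * u1
    calc star u1 * (star u2 * p i * u2) * u1 * (star u1 * (star u2 * p i * u2) * u1) =
        star u1 * star u2 * p i * u2 * (u1 * star u1) * star u2 * p i * u2 * u1 := by
          noncomm_ring
      _ = star u1 * star u2 * p i * (u2 * star u2) * p i * u2 * u1 := by
          rw [h12]; noncomm_ring
      _ = star u1 * star u2 * (p i * p i) * u2 * u1 := by rw [h22]; noncomm_ring
      _ = star u1 * (star u2 * p i * u2) * u1 := by rw [hpp]; noncomm_ring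
  · rw [← hpt i, ← htr i, tr_conj, tr_conj]

end Pool.Agent.Q141.CC
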